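import Pool.Agent.K6.H80.LV.Gen

/-!
Extension of the base field, and algebraic relations between the values of generic forms.
-/

set_option autoImplicit false
set_option linter.unusedSectionVars false

open MvPolynomial Pool.Agent.W602.GT

namespace Pool.Agent.K6.H80.LV

section base

theorem trdeg_base {k1 k2 Ω σ : Type} [Field k1] [Field k2] [Field Ω] [Algebra k1 k2]
    [Algebra k1 Ω] [Algebra k2 Ω] [IsScalarTower k1 k2 Ω] [Fintype σ] {x : σ → Ω} {m : ℕ}
    (h : Algebra.trdeg k1 (IntermediateField.adjoin k1 (Set.range x)) ≤ m) :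
    Algebra.trdeg k2 (IntermediateField.adjoin k2 (Set.range x)) ≤ m := by
  classical
  obtain ⟨I, hI, hIx⟩ := exists_coords x h
  obtain ⟨F, hF⟩ : ∃ F, F = IntermediateField.adjoin k2 (Set.range x) := ⟨_, rfl⟩
  rw [← hF]
  have hxF : ∀ i, x i ∈ F := fun i => by
    rw [hF]; exact IntermediateField.subset_adjoin _ _ ⟨i, rfl⟩
  obtain ⟨y, hy⟩ : ∃ y : σ → F, ∀ i, (y i : Ω) = x i := ⟨fun i => ⟨x i, hxF i⟩, fun _ => rfl⟩
  obtain ⟨U, hU⟩ : ∃ U : Set F, U = y '' (I : Set σ) := ⟨_, rfl⟩
  have hyU : ∀ i, IsAlgebraic (IntermediateField.adjoin k2 U) (y i) := by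
    intro i
    refine alg_descend (Ω := Ω) ?_
    have h1 : algebraMap F Ω '' U = x '' (I : Set σ) := by
      rw [hU, ← Set.image_comp]
      exact Set.image_congr fun i _ => hy i
    rw [h1]
    change IsAlgebraic _ (y i : Ω)
    rw [hy]
    refine Pool.Agent.TH145.MF.alg_mono
      (F1 := (IntermediateField.adjoin k1 (x '' (I : Set σ))).toSubfield)
      (F2 := (IntermediateField.adjoin k2 (x '' (I : Set σ))).toSubfield) ?_ (hIx i)
    have h2 : (IntermediateField.adjoin k1 (x '' (I : Set σ))).toSubfield ≤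
        (IntermediateField.adjoin k2 (x '' (I : Set σ))).toSubfield := by
      rw [IntermediateField.adjoin_toSubfield, Subfield.closure_le]
      rintro w (⟨r, rfl⟩ | hw)
      · rw [IsScalarTower.algebraMap_apply k1 k2 Ω]
        exact IntermediateField.algebraMap_mem _ _
      · exact IntermediateField.subset_adjoin _ _ hw
    exact fun w hw => h2 hw
  have htop : IntermediateField.adjoin k2 (Set.range y) = ⊤ := by
    rw [eq_top_iff]
    rintro ⟨z, hz⟩ -
    have h2 : (IntermediateField.adjoin k2 (Set.range y)).map F.val = F := by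
      rw [IntermediateField.adjoin_map]
      conv_rhs => rw [hF]
      congr 1
      ext w
      constructor
      · rintro ⟨_, ⟨i, rfl⟩, rfl⟩
        exact ⟨i, (hy i).symm⟩
      · rintro ⟨i, rfl⟩
        exact ⟨y i, ⟨i, rfl⟩, hy i⟩
    have h3 : z ∈ (IntermediateField.adjoin k2 (Set.range y)).map F.val := by rw [h2]; exact hz
    obtain ⟨w, hw, hwz⟩ := h3
    have h4 : w = ⟨z, hz⟩ := Subtype.ext hwz
    rw [← h4]
    exact hw
  have halg : Algebra.IsAlgebraic (IntermediateField.adjoin k2 U) F := by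
    have h1 : (IntermediateField.adjoin k2 (Set.range y)) ≤
        (algebraicClosure (IntermediateField.adjoin k2 U) F).restrictScalars k2 := by
      rw [IntermediateField.adjoin_le_iff]
      rintro _ ⟨i, rfl⟩
      exact mem_algebraicClosure_iff.2 (hyU i)
    refine ⟨fun f => ?_⟩
    have h2 : f ∈ IntermediateField.adjoin k2 (Set.range y) := by rw [htop]; trivial
    exact mem_algebraicClosure_iff.1 (h1 h2)
  have halg' : Algebra.IsAlgebraic (Algebra.adjoin k2 U) F :=
    ⟨fun f => IntermediateField.isAlgebraic_adjoin_iff.1 (halg.isAlgebraic f)⟩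
  have h7 := Algebra.IsAlgebraic.trdeg_le_cardinalMk (R := k2) U
  have hUf : U.Finite := by
    rw [hU]
    exact (Finset.finite_toSet I).image _
  have hUc : U.ncard ≤ m := by
    rw [hU]
    refine (Set.ncard_image_le (Finset.finite_toSet I)).trans ?_
    rw [Set.ncard_coe_finset]
    exact hI
  refine h7.trans ?_
  rw [← Set.cast_ncard hUf]
  exact_mod_cast hUc

theorem image_block {σ S Ω : Type} (β : σ → S) (x : σ → Ω) (s : S) :
    (x '' {l | β l = s}) = Set.range fun l : {l // β l = s} => x l := by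
  ext z
  constructor
  · rintro ⟨l, hl, rfl⟩
    exact ⟨⟨l, hl⟩, rfl⟩
  · rintro ⟨⟨l, hl⟩, rfl⟩
    exact ⟨l, hl, rfl⟩

/-- The dimension does not increase under extensions of the base field. -/
theorem DimB.base {k1 k2 σ S : Type} [Field k1] [Field k2] [Algebra k1 k2] [Fintype σ]
    {β : σ → S} {V : Set (MvPolynomial σ k1)} {m : ℕ} {μ : S → ℕ} (h : DimB k1 β V m μ) :
    DimB k2 β (map (algebraMap k1 k2) '' V) m μ := by
  classical
  intro Ω _ _ x hx hxV
  let _ : Algebra k1 Ω := ((algebraMap k2 Ω).comp (algebraMap k1 k2)).toAlgebra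
  have hst : IsScalarTower k1 k2 Ω := IsScalarTower.of_algebraMap_eq fun _ => rfl
  obtain ⟨h1, h2⟩ := h Ω x hx fun f hf => by
    have h3 := hxV _ ⟨f, hf, rfl⟩
    rwa [aeval_map_algebraMap] at h3
  refine ⟨trdeg_base h1, fun s => ?_⟩
  have h3 := h2 s
  rw [image_block] at h3 ⊢
  exact trdeg_base h3

end base

section two

variable {σ S : Type} [Fintype σ] [Fintype S]

open scoped Classical in
/-- The monomial `I` has multidegree `d`, and it contains at most two variables of each block. -/
def Two (β : σ → S) (d : S → ℕ) (I : σ →₀ ℕ) : Prop :=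
  ∀ s, ∑ l ∈ Finset.univ.filter (fun l => β l = s), I l = d s ∧
    (Finset.univ.filter fun l => β l = s ∧ I l ≠ 0).card ≤ 2

theorem sM_apply {β : σ → S} {c : S → σ} (hc : ∀ s, β (c s) = s) {d : S → ℕ} {l : S → σ}
    (hl : ∀ s, β (l s) = s) (j : S → ℕ) {s : S} {i : σ} (hi : β i = s) :
    sM c d l j i = (Finsupp.single (c s) (d s - j s) + Finsupp.single (l s) (j s)) i := by
  classical
  unfold sM
  rw [Finsupp.finsetSum_apply, Finset.sum_eq_single s]
  · intro s' _ hs'
    have h1 : i ≠ c s' := by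
      rintro rfl
      exact hs' ((hc s').symm.trans hi)
    have h2 : i ≠ l s' := by
      rintro rfl
      exact hs' ((hl s').symm.trans hi)
    rw [Finsupp.add_apply, Finsupp.single_eq_of_ne h1, Finsupp.single_eq_of_ne h2, add_zero]
  · intro h; exact absurd (Finset.mem_univ _) h

theorem st_two {β : σ → S} {c : S → σ} (hc : ∀ s, β (c s) = s) {d : S → ℕ} {I : σ →₀ ℕ}
    (h : I ∈ St β c d) : Two β d I := by
  classical
  obtain ⟨l, j, hl, hj, rfl⟩ := h
  intro s
  constructor
  · rw [Finset.sum_congr rfl fun i hi => sM_apply hc hl j (Finset.mem_filter.1 hi).2]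
    simp only [Finsupp.add_apply, Finset.sum_add_distrib]
    rw [Finset.sum_eq_single (c s), Finset.sum_eq_single (l s), Finsupp.single_eq_same,
      Finsupp.single_eq_same]
    · have := hj s
      omega
    · intro i _ hi
      rw [Finsupp.single_eq_of_ne hi]
    · intro h
      exact absurd (Finset.mem_filter.2 ⟨Finset.mem_univ (l s), hl s⟩) h
    · intro i _ hi
      rw [Finsupp.single_eq_of_ne hi]
    · intro h
      exact absurd (Finset.mem_filter.2 ⟨Finset.mem_univ (c s), hc s⟩) h
  · refine (Finset.card_le_card (t := {c s, l s}) ?_).trans Finset.card_le_two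
    intro i hi
    obtain ⟨-, hi1, hi2⟩ := Finset.mem_filter.1 hi
    rw [sM_apply hc hl j hi1, Finsupp.add_apply] at hi2
    rw [Finset.mem_insert, Finset.mem_singleton]
    by_contra hcon
    rw [not_or] at hcon
    rw [Finsupp.single_eq_of_ne hcon.1, Finsupp.single_eq_of_ne hcon.2] at hi2
    exact hi2 rfl

end two

section rel

variable {k K : Type} [Field k] [Field K] [Algebra k K] [IsAlgClosed K] [CharZero K]
  {σ S A : Type} [Fintype σ] [Fintype S] [Fintype A] {β : σ → S} {dg : A → S → ℕ}

/-- The base field for the coefficients outside of `B`. -/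
theorem exists_base {J : A → Type} [∀ a, Fintype (J a)] (cf : ∀ a, J a → K)
    (hind : AlgebraicIndependent k fun p : (Σ a, J a) => cf p.1 p.2) (B : Finset A) :
    ∃ (k0 : Type) (_ : Field k0) (_ : Algebra k0 K) (_ : Algebra (algebraicClosure k K) k0),
      IsScalarTower (algebraicClosure k K) k0 K ∧ IsAlgClosed k0 ∧
      (∀ a, a ∉ B → ∀ j, cf a j ∈ Set.range (algebraMap k0 K)) ∧
      AlgebraicIndependent k0 fun p : (Σ b : {b // b ∈ B}, J b) => cf p.1 p.2 := by
  classical
  obtain ⟨W, hW⟩ : ∃ W : Set K, W = (fun p : (Σ a, J a) => cf p.1 p.2) '' {p | p.1 ∈ B}ᶜ :=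
    ⟨_, rfl⟩
  obtain ⟨k1, hk1⟩ : ∃ k1, k1 = IntermediateField.adjoin k W := ⟨_, rfl⟩
  have hle : (algebraicClosure k K).toSubfield ≤ (algebraicClosure k1 K).toSubfield := by
    intro z hz
    have h1 : IsAlgebraic k z := mem_algebraicClosure_iff.1 hz
    have h2 : IsAlgebraic k1 z := h1.extendScalars (algebraMap k k1).injective
    exact mem_algebraicClosure_iff.2 h2
  let _ : Algebra (algebraicClosure k K) (algebraicClosure k1 K) :=
    RingHom.toAlgebra (R := algebraicClosure k K) (S := algebraicClosure k1 K)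
      (Subfield.inclusion hle)
  refine ⟨algebraicClosure k1 K, inferInstance, inferInstance, inferInstance,
    IsScalarTower.of_algebraMap_eq fun _ => rfl,
    (algebraicClosure.isAlgClosure k1 K).isAlgClosed, fun a ha j => ?_, ?_⟩
  · have h1 : cf a j ∈ k1 := by
      rw [hk1]
      refine IntermediateField.subset_adjoin _ _ ?_
      rw [hW]
      exact ⟨⟨a, j⟩, ha, rfl⟩
    exact ⟨⟨cf a j, mem_algebraicClosure_iff.2 (isAlgebraic_algebraMap (⟨_, h1⟩ : k1))⟩, rfl⟩
  · have h1 := (AlgebraicIndependent.iff_adjoin_image_compl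
      (x := fun p : (Σ a, J a) => cf p.1 p.2) {p | p.1 ∈ B}).1 hind
    have h2 := h1.2
    rw [← hW] at h2
    have h3 : AlgebraicIndependent k1
        (fun p : {p : (Σ a, J a) // p.1 ∈ B} => cf p.1.1 p.1.2) := by
      rw [hk1]
      exact IntermediateField.algebraicIndependent_adjoin_iff.2 h2
    have h4 := h3.algebraicClosure
    have h5 := h4.comp (fun p : (Σ b : {b // b ∈ B}, J b) =>
      (⟨⟨p.1.1, p.2⟩, p.1.2⟩ : {p : (Σ a, J a) // p.1 ∈ B})) (by
        rintro ⟨⟨a, ha⟩, j⟩ ⟨⟨a', ha'⟩, j'⟩ h
        have h6 := congrArg Subtype.val h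
        obtain rfl : a = a' := congrArg Sigma.fst h6
        obtain rfl : j = j' := eq_of_heq (Sigma.mk.inj_iff.1 h6).2
        rfl)
    exact h5

/-- The values of the forms outside of `B` lie in the field generated by the coordinates. -/
theorem val_mem {k' k0 Ω J : Type} [Field k'] [Field k0] [Field Ω] [Algebra k' k0] [Algebra k' Ω]
    [Algebra k0 Ω] [IsScalarTower k' k0 Ω] [Fintype J] (P : J → MvPolynomial σ k') {c : J → Ω}
    (hc : ∀ j, c j ∈ Set.range (algebraMap k0 Ω)) (x : σ → Ω) :
    ∑ j, c j * aeval x (P j) ∈ IntermediateField.adjoin k0 (Set.range x) := by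
  refine sum_mem fun j _ => mul_mem ?_ ?_
  · obtain ⟨r, hr⟩ := hc j
    rw [← hr]
    exact IntermediateField.algebraMap_mem _ _
  · have h1 : aeval x (P j) = aeval x (map (algebraMap k' k0) (P j)) := by
      rw [aeval_map_algebraMap]
    rw [h1]
    have h2 : aeval x (map (algebraMap k' k0) (P j)) ∈ Algebra.adjoin k0 (Set.range x) := by
      rw [Algebra.adjoin_range_eq_range_aeval]
      exact ⟨_, rfl⟩
    exact IntermediateField.algebra_adjoin_le_adjoin _ _ h2

theorem alg_rel {k' k0 Ω : Type} [Field k'] [Field k0] [Field Ω] [Algebra k' k0] [Algebra k' Ω]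
    [Algebra k0 Ω] [IsScalarTower k' k0 Ω] {x : σ → Ω} {U : Set Ω} {z : Ω}
    (h : IsAlgebraic (IntermediateField.adjoin k' (Set.range x ∪ U)) z)
    (hU : ∀ u ∈ U, u ∈ IntermediateField.adjoin k0 (Set.range x)) :
    IsAlgebraic (IntermediateField.adjoin k0 (Set.range x)) z := by
  refine Pool.Agent.TH145.MF.alg_mono
    (F1 := (IntermediateField.adjoin k' (Set.range x ∪ U)).toSubfield)
    (F2 := (IntermediateField.adjoin k0 (Set.range x)).toSubfield) ?_ h
  rw [IntermediateField.adjoin_toSubfield, Subfield.closure_le]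
  rintro w (⟨r, rfl⟩ | (hw | hw))
  · rw [IsScalarTower.algebraMap_apply k' k0 Ω]
    exact IntermediateField.algebraMap_mem _ _
  · exact IntermediateField.subset_adjoin _ _ hw
  · exact hU w hw

variable {m : ℕ} {μ : S → ℕ}

theorem eval_comb {k' Ω J : Type} [Field k'] [Field Ω] [Algebra k' Ω] [Fintype J]
    (P : J → MvPolynomial σ k') (c : J → Ω) {F : MvPolynomial σ Ω}
    (hF : F = ∑ j, C (c j) * map (algebraMap k' Ω) (P j)) (x : σ → Ω) :
    eval x F = ∑ j, c j * aeval x (P j) := by
  rw [hF, map_sum]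
  refine Finset.sum_congr rfl fun j _ => ?_
  rw [map_mul, eval_C, eval_map]
  rfl

/-- Algebraic relations between the values of generic forms: finiteness. -/
theorem rel_fin (V : Set (MvPolynomial σ (algebraicClosure k K)))
    (hV : DimB (algebraicClosure k K) β V m μ) {J : A → Type} [∀ a, Fintype (J a)]
    (P : ∀ a, J a → MvPolynomial σ (algebraicClosure k K))
    (hP2 : ∀ a I, Two β (dg a) I → ∃ j, P a j = monomial I 1)
    (cf : ∀ a, J a → K) (hind : AlgebraicIndependent k fun p : (Σ a, J a) => cf p.1 p.2)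
    {F : A → MvPolynomial σ K}
    (hF : ∀ a, F a = ∑ j, C (cf a j) * map (algebraMap (algebraicClosure k K) K) (P a j))
    (T : Finset K) :
    {x : σ → K | (∀ j, x j ∈ IntermediateField.adjoin (algebraicClosure k K) (T : Set K)) ∧
      (∀ s, ∃ l, β l = s ∧ x l = 1) ∧ (∀ f ∈ V, aeval x f = 0) ∧
      ∃ B : Finset A, (∀ s, μ s + m + 2 ≤ ∑ a ∈ B, (dg a s + 1)) ∧ ∀ b ∈ B,
        IsAlgebraic (IntermediateField.adjoin (algebraicClosure k K)
          (Set.range x ∪ (fun a => eval x (F a)) '' {a | a ∉ B})) (eval x (F b))}.Finite := by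
  classical
  have key : ∀ (B : Finset A) (c : S → σ),
      {x : σ → K | (∀ j, x j ∈ IntermediateField.adjoin (algebraicClosure k K) (T : Set K)) ∧
      (∀ s, β (c s) = s ∧ x (c s) = 1) ∧ (∀ f ∈ V, aeval x f = 0) ∧
      (∀ s, μ s + m + 2 ≤ ∑ a ∈ B, (dg a s + 1)) ∧ ∀ b ∈ B,
        IsAlgebraic (IntermediateField.adjoin (algebraicClosure k K)
          (Set.range x ∪ (fun a => eval x (F a)) '' {a | a ∉ B})) (eval x (F b))}.Finite := by
    intro B c
    by_cases hc : ∀ s, β (c s) = s
    swap
    · refine Set.finite_empty.subset ?_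
      rintro x ⟨-, h, -⟩
      exact absurd (fun s => (h s).1) hc
    by_cases hd : ∀ s, μ s + m + 2 ≤ ∑ a ∈ B, (dg a s + 1)
    swap
    · refine Set.finite_empty.subset ?_
      rintro x ⟨-, -, -, h, -⟩
      exact absurd h hd
    obtain ⟨k0, _, _, _, hst, hac, hcf, hind0⟩ := exists_base cf hind B
    have h1 := fin_points (k0 := k0) (K := K) (A := {b // b ∈ B}) (β := β) (c := c)
      (dg := fun b => dg b) (m := m) (μ := μ) hc (fun s => by
        rw [Finset.sum_coe_sort B (fun a => dg a s + 1)]
        exact hd s) (map (algebraMap (algebraicClosure k K) k0) '' V) hV.base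
      (J := fun b => J b) (fun b j => map (algebraMap (algebraicClosure k K) k0) (P b j))
      (fun b I hI => by
        obtain ⟨j, hj⟩ := hP2 b I (st_two hc hI)
        exact ⟨j, by rw [hj, map_monomial, map_one]⟩) (cf := fun b j => cf b j)
      (F := fun b => F b) (fun b => by
        rw [hF]
        refine Finset.sum_congr rfl fun j _ => ?_
        rw [map_map, ← IsScalarTower.algebraMap_eq]) hind0 T
    refine h1.subset ?_
    rintro x ⟨hx, hx1, hxV, -, hxF⟩
    refine ⟨fun j => ?_, fun s => (hx1 s).2, ?_, fun b => ?_⟩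
    · have h2 : (IntermediateField.adjoin (algebraicClosure k K) (T : Set K)).toSubfield ≤
          (IntermediateField.adjoin k0 (T : Set K)).toSubfield := by
        rw [IntermediateField.adjoin_toSubfield, Subfield.closure_le]
        rintro w (⟨r, rfl⟩ | hw)
        · rw [IsScalarTower.algebraMap_apply (algebraicClosure k K) k0 K]
          exact IntermediateField.algebraMap_mem _ _
        · exact IntermediateField.subset_adjoin _ _ hw
      exact h2 (hx j)
    · rintro _ ⟨f, hf, rfl⟩
      rw [aeval_map_algebraMap]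
      exact hxV f hf
    · refine alg_rel (hxF b b.2) ?_
      rintro _ ⟨a, ha, rfl⟩
      dsimp only
      rw [eval_comb (P a) (cf a) (hF a)]
      exact val_mem (k0 := k0) (P a) (hcf a ha) x
  refine (Set.finite_iUnion fun B => Set.finite_iUnion (key B)).subset ?_
  rintro x ⟨hx, hx1, hxV, B, hd, hxF⟩
  choose c hc using hx1
  rw [Set.mem_iUnion]
  refine ⟨B, ?_⟩
  rw [Set.mem_iUnion]
  exact ⟨c, hx, hc, hxV, hd, hxF⟩

/-- Algebraic relations between the values of generic forms: general type. -/
theorem rel_gt {L : Type} [Field L] [Algebra K L] {w : ℕ}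
    (V : Set (MvPolynomial σ (algebraicClosure k K)))
    (hV : DimB (algebraicClosure k K) β V m μ) {J : A → Type} [∀ a, Fintype (J a)]
    (P : ∀ a, J a → MvPolynomial σ (algebraicClosure k K))
    (hP2 : ∀ a I, Two β (dg a) I → ∃ j, P a j = monomial I 1)
    (cf : ∀ a, J a → K) (hind : AlgebraicIndependent k fun p : (Σ a, J a) => cf p.1 p.2)
    {F : A → MvPolynomial σ K}
    (hF : ∀ a, F a = ∑ j, C (cf a j) * map (algebraMap (algebraicClosure k K) K) (P a j))
    (hw : 0 < w) (htr : Algebra.trdeg K L = w) {x : σ → L} (hx : ∀ s, ∃ l, β l = s ∧ x l = 1)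
    (hgen : Algebra.IsAlgebraic (IntermediateField.adjoin K (Set.range x)) L)
    (hxV : ∀ f ∈ V, aeval x f = 0) {B : Finset A}
    (hd : ∀ s, μ s + m + 2 ≤ ∑ a ∈ B, (dg a s + 1) + w)
    (hB : ∀ b ∈ B, IsAlgebraic (IntermediateField.adjoin (algebraicClosure k K)
      (Set.range x ∪ (fun a => aeval x (F a)) '' {a | a ∉ B})) (aeval x (F b))) :
    GeneralType K L w := by
  classical
  choose c hc using hx
  obtain ⟨k0, _, _, _, hst, hac, hcf, hind0⟩ := exists_base cf hind B
  let _ : Algebra k0 L := ((algebraMap K L).comp (algebraMap k0 K)).toAlgebra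
  have hst1 : IsScalarTower k0 K L := IsScalarTower.of_algebraMap_eq fun _ => rfl
  have hst2 : IsScalarTower (algebraicClosure k K) K L := inferInstance
  have hst3 : IsScalarTower (algebraicClosure k K) k0 L :=
    IsScalarTower.of_algebraMap_eq fun r => by
      change algebraMap K L (algebraMap (algebraicClosure k K) K r) =
        algebraMap K L (algebraMap k0 K (algebraMap (algebraicClosure k K) k0 r))
      rw [← IsScalarTower.algebraMap_apply (algebraicClosure k K) k0 K]
  have hval : ∀ a, aeval x (F a) = ∑ j, algebraMap K L (cf a j) * aeval x (P a j) := by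
    intro a
    rw [hF, map_sum]
    refine Finset.sum_congr rfl fun j _ => ?_
    rw [map_mul, aeval_C, aeval_map_algebraMap]
  refine gen_type (k0 := k0) (K := K) (A := {b // b ∈ B}) (β := β) (c := c)
    (dg := fun b => dg b) (m := m) (μ := μ) (fun s => (hc s).1) (fun s => by
      rw [Finset.sum_coe_sort B (fun a => dg a s + 1)]
      exact hd s) (map (algebraMap (algebraicClosure k K) k0) '' V) hV.base
    (J := fun b => J b) (fun b j => map (algebraMap (algebraicClosure k K) k0) (P b j))
    (fun b I hI => by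
      obtain ⟨j, hj⟩ := hP2 b I (st_two (fun s => (hc s).1) hI)
      exact ⟨j, by rw [hj, map_monomial, map_one]⟩) (cf := fun b j => cf b j)
    (F := fun b => F b) (fun b => by
      rw [hF]
      refine Finset.sum_congr rfl fun j _ => ?_
      rw [map_map, ← IsScalarTower.algebraMap_eq]) hind0 hw htr (fun s => (hc s).2) hgen ?_ ?_
  · rintro _ ⟨f, hf, rfl⟩
    rw [aeval_map_algebraMap]
    exact hxV f hf
  · intro b
    refine alg_rel (hB b b.2) ?_
    rintro _ ⟨a, ha, rfl⟩
    dsimp only
    rw [hval]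
    refine val_mem (k0 := k0) (P a) (fun j => ?_) x
    obtain ⟨r, hr⟩ := hcf a ha j
    exact ⟨r, by rw [← hr]; rfl⟩

end rel

end Pool.Agent.K6.H80.LV
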