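import Pool.Agent.K6.H80.LV.Ineq
import Pool.Agent.TH145.GC.Rank

/-!
The dimension of the space of the vector fields, and the dual functionals.
-/

set_option autoImplicit false
set_option linter.unusedSectionVars false

open MvPolynomial
open Pool.Agent.TH145.GC (der_zero_of_alg)

namespace Pool.Agent.K6.H80.LV

variable {k0 L : Type} [Field k0] [Field L] [Algebra k0 L] {σ S A X : Type} [Fintype σ] [Fintype S]

/-- A transcendence basis among the coordinates. -/
theorem exists_coords {m : ℕ} (x : σ → L)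
    (h : Algebra.trdeg k0 (IntermediateField.adjoin k0 (Set.range x)) ≤ m) :
    ∃ I : Finset σ, I.card ≤ m ∧
      ∀ i, IsAlgebraic (IntermediateField.adjoin k0 (x '' (I : Set σ))) (x i) := by
  classical
  obtain ⟨F, hF⟩ : ∃ F, F = IntermediateField.adjoin k0 (Set.range x) := ⟨_, rfl⟩
  have hxF : ∀ i, x i ∈ F := fun i => by
    rw [hF]; exact IntermediateField.subset_adjoin _ _ ⟨i, rfl⟩
  obtain ⟨y, hy⟩ : ∃ y : σ → F, ∀ i, (y i : L) = x i := ⟨fun i => ⟨x i, hxF i⟩, fun _ => rfl⟩
  rw [← hF] at h
  have htop : IntermediateField.adjoin k0 (Set.range y) = ⊤ := by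
    rw [eq_top_iff]
    rintro ⟨z, hz⟩ -
    have h2 : (IntermediateField.adjoin k0 (Set.range y)).map F.val = F := by
      rw [IntermediateField.adjoin_map]
      conv_rhs => rw [hF]
      congr 1
      ext w
      constructor
      · rintro ⟨_, ⟨i, rfl⟩, rfl⟩
        exact ⟨i, (hy i).symm⟩
      · rintro ⟨i, rfl⟩
        exact ⟨y i, ⟨i, rfl⟩, hy i⟩
    have h3 : z ∈ (IntermediateField.adjoin k0 (Set.range y)).map F.val := by rw [h2]; exact hz
    obtain ⟨w, hw, hwz⟩ := h3
    have h4 : w = ⟨z, hz⟩ := Subtype.ext hwz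
    rw [← h4]
    exact hw
  have halg : Algebra.IsAlgebraic (Algebra.adjoin k0 (Set.range y)) F := by
    refine ⟨fun f => IntermediateField.isAlgebraic_adjoin_iff.1 ?_⟩
    have h5 : f ∈ IntermediateField.adjoin k0 (Set.range y) := by rw [htop]; trivial
    exact isAlgebraic_algebraMap (⟨f, h5⟩ : IntermediateField.adjoin k0 (Set.range y))
  obtain ⟨u, -, hu, hub⟩ := exists_isTranscendenceBasis_between (R := k0) (∅ : Set F) (Set.range y)
    (Set.empty_subset _) ((algebraicIndependent_empty_type_iff (R := k0) (A := F)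
      (x := fun i : (∅ : Set F) => (i : F))).2 (algebraMap k0 F).injective)
  have hfin : Finite u := Set.Finite.to_subtype ((Set.finite_range y).subset hu)
  have := Fintype.ofFinite u
  have hcard : Fintype.card u ≤ m := by
    have h4 := hub.lift_cardinalMk_eq_trdeg
    have h5 : (Fintype.card u : Cardinal) ≤ m := by
      rw [← Cardinal.mk_fintype]
      have h6 : Cardinal.mk u = Algebra.trdeg k0 F := by simpa using h4
      rw [h6]
      exact h
    exact_mod_cast h5
  choose l hl using fun i : u => hu i.2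
  refine ⟨Finset.univ.image l, Finset.card_image_le.trans (by rwa [Finset.card_univ]), fun i => ?_⟩
  have h6 : IsAlgebraic (IntermediateField.adjoin k0 (Set.range fun z : u => (z : F))) (y i) := by
    have := hub.isAlgebraic_field
    exact this.isAlgebraic (y i)
  have h7 : (IntermediateField.adjoin k0 (Set.range fun z : u => (z : F))).map F.val ≤
      IntermediateField.adjoin k0 (x '' ((Finset.univ.image l : Finset σ) : Set σ)) := by
    rw [IntermediateField.adjoin_map]
    refine IntermediateField.adjoin.mono _ _ _ ?_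
    rintro _ ⟨_, ⟨z, rfl⟩, rfl⟩
    refine ⟨l z, by simp, ?_⟩
    have h8 := congrArg (fun w : F => (w : L)) (hl z)
    rw [← hy]
    exact h8
  obtain ⟨p, hp, hpx⟩ := h6
  let f : IntermediateField.adjoin k0 (Set.range fun z : u => (z : F)) →+*
      IntermediateField.adjoin k0 (x '' ((Finset.univ.image l : Finset σ) : Set σ)) :=
    { toFun := fun a => ⟨((a : F) : L), h7 ⟨(a : F), a.2, rfl⟩⟩
      map_one' := rfl
      map_mul' := fun _ _ => rfl
      map_zero' := rfl
      map_add' := fun _ _ => rfl }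
  refine ⟨p.map f, (Polynomial.map_ne_zero_iff f.injective).2 hp, ?_⟩
  have h1 := congrArg (algebraMap F L) hpx
  rw [map_zero, Polynomial.aeval_def, Polynomial.hom_eval₂] at h1
  rw [Polynomial.aeval_def, Polynomial.eval₂_map, ← hy]
  exact h1

theorem der_adjoin [CharZero L] (δ : Derivation ℤ L L) (hδ : ∀ r : k0, δ (algebraMap k0 L r) = 0)
    {T : Set L} (hT : ∀ t ∈ T, δ t = 0) {z : L}
    (hz : IsAlgebraic (IntermediateField.adjoin k0 T) z) : δ z = 0 := by
  refine der_zero_of_alg δ (IntermediateField.adjoin k0 T).toSubfield ?_ hz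
  intro w hw
  rw [IntermediateField.adjoin_toSubfield] at hw
  induction hw using Subfield.closure_induction with
  | mem w hw =>
    rcases hw with ⟨r, rfl⟩ | hw
    · exact hδ r
    · exact hT w hw
  | one => exact δ.map_one_eq_zero
  | add a b _ _ ha hb => rw [map_add, ha, hb, add_zero]
  | neg a _ ha => rw [map_neg, ha, neg_zero]
  | inv a _ ha => rw [Derivation.leibniz_inv, ha, smul_zero]
  | mul a b _ _ ha hb => rw [δ.leibniz, ha, hb, smul_zero, smul_zero, add_zero]

/-- The sums of multiples of the blocks and the derivatives. -/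
def Tan (k0 : Type) {L : Type} [Field k0] [Field L] [Algebra k0 L] {σ S : Type} (β : σ → S)
    (x : σ → L) : Submodule L (σ → L) where
  carrier := {z | ∃ (r : S → L) (E : Derivation ℤ L L), (∀ a : k0, E (algebraMap k0 L a) = 0) ∧
    ∀ l, z l = r (β l) * x l + E (x l)}
  add_mem' := by
    rintro y z ⟨c, E, hE, hy⟩ ⟨c', E', hE', hz⟩
    refine ⟨c + c', E + E', fun r => by rw [Derivation.add_apply, hE, hE', add_zero], fun l => ?_⟩
    rw [Pi.add_apply, hy, hz, Derivation.add_apply, Pi.add_apply]
    ring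
  zero_mem' := ⟨0, 0, fun _ => rfl, fun l => by simp⟩
  smul_mem' := by
    rintro s z ⟨c, E, hE, hz⟩
    refine ⟨s • c, s • E, fun r => by rw [Derivation.smul_apply, hE, smul_zero], fun l => ?_⟩
    rw [Pi.smul_apply, hz, Derivation.smul_apply, smul_eq_mul, smul_eq_mul, Pi.smul_apply,
      smul_eq_mul]
    ring

section

variable {β : σ → S} {c : S → σ} {dg : A → S → ℕ} {D : A → (σ →₀ ℕ) → Derivation ℤ L L}
  {E : X → Derivation ℤ L L}

theorem full_le_tan (hDk : ∀ a I (r : k0), D a I (algebraMap k0 L r) = 0)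
    (hEk : ∀ ξ (r : k0), E ξ (algebraMap k0 L r) = 0) (x : σ → L) :
    Full β c dg D E x ≤ Tan k0 β x := by
  classical
  have hE : ∀ a I, Ev D x a I ∈ Tan k0 β x := fun a I =>
    ⟨0, D a I, hDk a I, fun l => by rw [Pi.zero_apply, zero_mul, zero_add]; rfl⟩
  rw [Full, Submodule.span_le]
  rintro _ (⟨o, rfl⟩ | ⟨a, I, hI, rfl⟩)
  · rcases o with s | ξ | t
    · refine ⟨fun s' => if s' = s then 1 else 0, 0, fun _ => rfl, fun l => ?_⟩
      simp only [wv, px_apply, Derivation.zero_apply, add_zero, ite_mul, one_mul, zero_mul]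
    · exact ⟨0, E ξ, hEk ξ, fun l => by rw [Pi.zero_apply, zero_mul, zero_add]; rfl⟩
    · simp only [wv, tv]
      split_ifs
      · exact sub_mem (Submodule.smul_mem _ _ (hE _ _)) (Submodule.smul_mem _ _ (hE _ _))
      · exact zero_mem _
  · exact hE a I

/-- The dimension of the space of the vector fields. -/
theorem rank_le [CharZero L] (hc : ∀ s, β (c s) = s)
    (hDk : ∀ a I (r : k0), D a I (algebraMap k0 L r) = 0)
    (hEk : ∀ ξ (r : k0), E ξ (algebraMap k0 L r) = 0) {x : σ → L} (hx : ∀ s, x (c s) = 1) {m : ℕ}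
    (h : Algebra.trdeg k0 (IntermediateField.adjoin k0 (Set.range x)) ≤ m) :
    Module.finrank L (Full β c dg D E x) ≤ m + Fintype.card S := by
  classical
  obtain ⟨I, hI, hIx⟩ := exists_coords x h
  refine (Submodule.finrank_mono (full_le_tan hDk hEk x)).trans ?_
  obtain ⟨J, hJ⟩ : ∃ J : Finset σ, J = I ∪ Finset.univ.image c := ⟨_, rfl⟩
  obtain ⟨ρ, hρ⟩ : ∃ ρ : Tan k0 β x →ₗ[L] (J → L), ∀ z i, ρ z i = z.1 i.1 :=
    ⟨{ toFun := fun z i => z.1 i.1
       map_add' := fun _ _ => rfl
       map_smul' := fun _ _ => rfl }, fun _ _ => rfl⟩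
  have hinj : Function.Injective ρ := by
    rw [← LinearMap.ker_eq_bot, LinearMap.ker_eq_bot']
    rintro ⟨z, r, E, hE, hz⟩ h0
    have h1 : ∀ i ∈ J, z i = 0 := fun i hi => by
      have := congrFun h0 ⟨i, hi⟩
      rw [hρ] at this
      exact this
    have hr : r = 0 := by
      funext s
      have h2 := h1 (c s) (by rw [hJ]; exact Finset.mem_union_right _ (by simp))
      rw [hz, hx, E.map_one_eq_zero, mul_one, add_zero, hc] at h2
      exact h2
    have hEI : ∀ i ∈ I, E (x i) = 0 := fun i hi => by
      have h2 := h1 i (by rw [hJ]; exact Finset.mem_union_left _ hi)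
      rwa [hz, hr, Pi.zero_apply, zero_mul, zero_add] at h2
    have hx : ∀ i, E (x i) = 0 := fun i => der_adjoin E hE (T := x '' (I : Set σ)) (by
      rintro _ ⟨j, hj, rfl⟩
      exact hEI j hj) (hIx i)
    apply Subtype.ext
    funext l
    change z l = 0
    rw [hz, hr, hx, Pi.zero_apply, zero_mul, add_zero]
  have h1 := LinearMap.finrank_le_finrank_of_injective hinj
  rw [Module.finrank_pi, Fintype.card_coe] at h1
  have h2 := Finset.card_union_le I (Finset.univ.image c)
  have h3 : (Finset.univ.image c).card ≤ Fintype.card S := Finset.card_image_le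
  rw [← hJ] at h2
  omega

/-- The dimension of the space of the vector fields in a block. -/
theorem rank_le_blk [CharZero L] (hc : ∀ s, β (c s) = s)
    (hDk : ∀ a I (r : k0), D a I (algebraMap k0 L r) = 0)
    (hEk : ∀ ξ (r : k0), E ξ (algebraMap k0 L r) = 0) {x : σ → L} (hx : ∀ s, x (c s) = 1) {m : ℕ}
    (s : S) (h : Algebra.trdeg k0 (IntermediateField.adjoin k0 (x '' {l | β l = s})) ≤ m) :
    Module.finrank L ((Full β c dg D E x).map (bp L β s)) ≤ m + 1 := by
  classical
  have hr : (x '' {l | β l = s}) = Set.range fun l : {l // β l = s} => x l := by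
    ext z
    constructor
    · rintro ⟨l, hl, rfl⟩
      exact ⟨⟨l, hl⟩, rfl⟩
    · rintro ⟨⟨l, hl⟩, rfl⟩
      exact ⟨l, hl, rfl⟩
  rw [hr] at h
  obtain ⟨I, hI, hIx⟩ := exists_coords (fun l : {l // β l = s} => x l) h
  refine (Submodule.finrank_mono (t := (Tan k0 β x).map (bp L β s))
    (Submodule.map_mono (full_le_tan hDk hEk x))).trans ?_
  obtain ⟨J, hJ⟩ : ∃ J : Finset σ, J = I.image Subtype.val ∪ {c s} := ⟨_, rfl⟩
  obtain ⟨ρ, hρ⟩ : ∃ ρ : (Tan k0 β x).map (bp L β s) →ₗ[L] (J → L), ∀ z i, ρ z i = z.1 i.1 :=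
    ⟨{ toFun := fun z i => z.1 i.1
       map_add' := fun _ _ => rfl
       map_smul' := fun _ _ => rfl }, fun _ _ => rfl⟩
  have hinj : Function.Injective ρ := by
    rw [← LinearMap.ker_eq_bot, LinearMap.ker_eq_bot']
    rintro ⟨_, z, ⟨r, E, hE, hz⟩, rfl⟩ h0
    have h1 : ∀ i ∈ J, β i = s → z i = 0 := fun i hi his => by
      have := congrFun h0 ⟨i, hi⟩
      rw [hρ] at this
      change px β z s i = 0 at this
      rwa [px_apply, if_pos his] at this
    have hr : r s = 0 := by
      have h2 := h1 (c s) (by rw [hJ]; exact Finset.mem_union_right _ (by simp)) (hc s)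
      rw [hz, hx, E.map_one_eq_zero, mul_one, add_zero, hc] at h2
      exact h2
    have hEI : ∀ i ∈ I, E (x i) = 0 := fun i hi => by
      have h2 := h1 i (by
        rw [hJ]
        exact Finset.mem_union_left _ (Finset.mem_image_of_mem _ hi)) i.2
      rwa [hz, i.2, hr, zero_mul, zero_add] at h2
    have hx : ∀ i : {l // β l = s}, E (x i) = 0 := fun i =>
      der_adjoin E hE (T := (fun l : {l // β l = s} => x l) '' (I : Set {l // β l = s})) (by
        rintro _ ⟨j, hj, rfl⟩
        exact hEI j hj) (hIx i)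
    apply Subtype.ext
    funext l
    change px β z s l = 0
    rw [px_apply]
    split_ifs with hl
    · rw [hz, hl, hr, hx ⟨l, hl⟩, zero_mul, add_zero]
    · rfl
  have h1 := LinearMap.finrank_le_finrank_of_injective hinj
  rw [Module.finrank_pi, Fintype.card_coe] at h1
  have h2 := Finset.card_union_le (I.image Subtype.val) {c s}
  have h3 : (I.image Subtype.val).card ≤ I.card := Finset.card_image_le
  rw [← hJ, Finset.card_singleton] at h2
  omega

/-- The chain rule. -/
theorem chain (δ : Derivation ℤ L L) (x : σ → L) (p : MvPolynomial σ L) :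
    δ (eval x p) = ∑ u ∈ p.support, δ (p.coeff u) * mn x u +
      ∑ i, eval x (pderiv i p) * δ (x i) := by
  classical
  have h0 : ∀ u (a : L), eval x (monomial u a) = a * mn x u := fun u a => by
    rw [eval_monomial]
    congr 1
    rw [Finsupp.prod_fintype _ _ fun i => pow_zero _]
    rfl
  have hmon : ∀ u : σ →₀ ℕ, δ (mn x u) = ∑ i, eval x (pderiv i (monomial u (1 : L))) * δ (x i) := by
    intro u
    have h1 : ∀ T : Finset σ, δ (∏ i ∈ T, x i ^ u i) =
        ∑ i ∈ T, (∏ j ∈ T.erase i, x j ^ u j) * (u i * x i ^ (u i - 1) * δ (x i)) := by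
      intro T
      induction T using Finset.induction_on with
      | empty => simp
      | insert a T ha ih =>
        rw [Finset.prod_insert ha, δ.leibniz, ih, δ.leibniz_pow, Finset.sum_insert ha,
          Finset.erase_insert ha]
        simp only [smul_eq_mul, nsmul_eq_mul]
        rw [add_comm]
        congr 1
        · ring
        · rw [Finset.mul_sum]
          refine Finset.sum_congr rfl fun i hi => ?_
          have hai : a ≠ i := by rintro rfl; exact ha hi
          rw [Finset.erase_insert_of_ne hai, Finset.prod_insert (by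
            rw [Finset.mem_erase]; exact fun h => ha h.2)]
          ring
    unfold mn
    rw [h1]
    refine Finset.sum_congr rfl fun i _ => ?_
    rw [pderiv_monomial, h0, one_mul]
    have h2 : mn x (u - Finsupp.single i 1) = x i ^ (u i - 1) *
        ∏ j ∈ Finset.univ.erase i, x j ^ u j := by
      unfold mn
      rw [← Finset.mul_prod_erase _ _ (Finset.mem_univ i)]
      congr 1
      · rw [Finsupp.tsub_apply, Finsupp.single_eq_same]
      · refine Finset.prod_congr rfl fun j hj => ?_
        rw [Finsupp.tsub_apply, Finsupp.single_eq_of_ne (Finset.ne_of_mem_erase hj), tsub_zero]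
    rw [h2]
    ring
  have h1 : eval x p = ∑ u ∈ p.support, p.coeff u * mn x u := by
    conv_lhs => rw [p.as_sum, map_sum]
    exact Finset.sum_congr rfl fun u _ => h0 _ _
  rw [h1, map_sum]
  have h2 : ∀ i, eval x (pderiv i p) =
      ∑ u ∈ p.support, p.coeff u * eval x (pderiv i (monomial u (1 : L))) := by
    intro i
    conv_lhs => rw [p.as_sum, map_sum, map_sum]
    refine Finset.sum_congr rfl fun u _ => ?_
    have h3 : (monomial u (p.coeff u) : MvPolynomial σ L) = C (p.coeff u) * monomial u 1 := by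
      rw [C_mul_monomial, mul_one]
    rw [h3, pderiv_C_mul, map_mul, eval_C]
  simp only [h2, Finset.sum_mul]
  rw [Finset.sum_comm, ← Finset.sum_add_distrib]
  refine Finset.sum_congr rfl fun u _ => ?_
  rw [δ.leibniz, hmon]
  simp only [smul_eq_mul, Finset.mul_sum]
  rw [add_comm]
  congr 1
  · ring
  · exact Finset.sum_congr rfl fun i _ => by ring

/-- The functionals exist if the values of the polynomials are algebraic over the field of the
coordinates. -/
theorem exists_fn [CharZero L] (hc : ∀ s, β (c s) = s) {x : σ → L} (hx : ∀ s, x (c s) = 1)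
    (G : MvPolynomial σ L)
    (halg : IsAlgebraic (IntermediateField.adjoin k0 (Set.range x)) (eval x G)) :
    ∃ φ : σ → L, (∀ s, ∑ l, φ l * px β x s l = 0) ∧
      ∀ δ : Derivation ℤ L L, (∀ r : k0, δ (algebraMap k0 L r) = 0) →
        ∑ l, φ l * δ (x l) = - ∑ u ∈ G.support, δ (G.coeff u) * mn x u := by
  classical
  obtain ⟨f, hf⟩ : ∃ f : σ → Derivation k0 L L →ₗ[L] L, ∀ l δ, f l δ = δ (x l) :=
    ⟨fun l => { toFun := fun δ => δ (x l), map_add' := fun _ _ => rfl, map_smul' := fun _ _ => rfl },
      fun _ _ => rfl⟩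
  obtain ⟨g, hg⟩ : ∃ g : Derivation k0 L L →ₗ[L] L, ∀ δ, g δ =
      ∑ u ∈ G.support, δ (G.coeff u) * mn x u :=
    ⟨{ toFun := fun δ => ∑ u ∈ G.support, δ (G.coeff u) * mn x u
       map_add' := fun a b => by
         simp only [Derivation.add_apply, add_mul, Finset.sum_add_distrib]
       map_smul' := fun r a => by
         simp only [Derivation.smul_apply, smul_eq_mul, RingHom.id_apply, Finset.mul_sum,
           mul_assoc] }, fun _ => rfl⟩
  have hker : ⨅ i, LinearMap.ker (f i) ≤ LinearMap.ker g := by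
    intro δ hδ
    simp only [Submodule.mem_iInf, LinearMap.mem_ker] at hδ ⊢
    have h1 : ∀ l, δ (x l) = 0 := fun l => by rw [← hf]; exact hδ l
    have h2 := chain (δ.restrictScalars ℤ) x G
    have h3 : (δ.restrictScalars ℤ) (eval x G) = 0 :=
      der_adjoin (δ.restrictScalars ℤ) (fun r => δ.map_algebraMap r) (T := Set.range x) (by
        rintro _ ⟨l, rfl⟩
        exact h1 l) halg
    rw [h3] at h2
    have h4 : ∑ i, eval x (pderiv i G) * (δ.restrictScalars ℤ) (x i) = 0 :=
      Finset.sum_eq_zero fun i _ => by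
        have : (δ.restrictScalars ℤ) (x i) = 0 := h1 i
        rw [this, mul_zero]
    rw [h4, add_zero] at h2
    rw [hg]
    exact h2.symm
  have hspan := mem_span_of_iInf_ker_le_ker hker
  rw [Submodule.mem_span_range_iff_exists_fun] at hspan
  obtain ⟨a, ha⟩ := hspan
  have ha' : ∀ δ : Derivation ℤ L L, (∀ r : k0, δ (algebraMap k0 L r) = 0) →
      ∑ l, a l * δ (x l) = ∑ u ∈ G.support, δ (G.coeff u) * mn x u := by
    intro δ hδ
    let δ' : Derivation k0 L L :=
      { toFun := δ
        map_add' := fun a b => map_add δ a b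
        map_smul' := fun r y => by
          change δ (r • y) = r • δ y
          rw [Algebra.smul_def, δ.leibniz, hδ, smul_zero, add_zero, smul_eq_mul, Algebra.smul_def]
        map_one_eq_zero' := δ.map_one_eq_zero
        leibniz' := fun a b => δ.leibniz a b }
    have h1 := congrArg (fun h : Derivation k0 L L →ₗ[L] L => h δ') ha
    simp only [LinearMap.coe_sum, Finset.sum_apply, LinearMap.smul_apply, smul_eq_mul, hf, hg] at h1
    exact h1
  obtain ⟨q, hq⟩ : ∃ q : S → L, ∀ s, q s = ∑ l, a l * px β x s l := ⟨_, fun _ => rfl⟩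
  refine ⟨fun l => - a l + if l = c (β l) then q (β l) else 0, fun s => ?_, fun δ hδ => ?_⟩
  · simp only [add_mul, neg_mul, Finset.sum_add_distrib, Finset.sum_neg_distrib]
    rw [← hq, Finset.sum_eq_single (c s)]
    · rw [hc, if_pos rfl, px_apply, hc, if_pos rfl, hx, mul_one, neg_add_cancel]
    · intro l _ hl
      by_cases h1 : l = c (β l)
      · have h3 : px β x s l = 0 := by
          rw [px_apply, if_neg]
          intro h2
          apply hl
          rw [h1, h2]
        rw [h3, mul_zero]
      · rw [if_neg h1, zero_mul]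
    · intro h; exact absurd (Finset.mem_univ _) h
  · simp only [add_mul, neg_mul, Finset.sum_add_distrib, Finset.sum_neg_distrib]
    rw [ha' δ hδ, Finset.sum_eq_zero (f := fun l => (if l = c (β l) then q (β l) else 0) * δ (x l))
      fun l _ => ?_, add_zero]
    by_cases h1 : l = c (β l)
    · have h2 : δ (x l) = 0 := by rw [h1, hx, δ.map_one_eq_zero]
      rw [h2, mul_zero]
    · rw [if_neg h1, zero_mul]

end

/-- Linear equations with coefficients in a subfield. -/
theorem descend {L Ω : Type} [Field L] [Field Ω] [Algebra L Ω] {ι : Type} (v : ι → σ → L)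
    (w : ι → L) (φ : σ → Ω)
    (h : ∀ i, ∑ l, φ l * algebraMap L Ω (v i l) = algebraMap L Ω (w i)) :
    ∃ φ' : σ → L, ∀ i, ∑ l, φ' l * v i l = w i := by
  obtain ⟨ρ, hρ⟩ := LinearMap.exists_leftInverse_of_injective (Algebra.linearMap L Ω)
    (LinearMap.ker_eq_bot.2 (algebraMap L Ω).injective)
  have hρ' : ∀ y : L, ρ (algebraMap L Ω y) = y := fun y => by
    have := congrArg (fun f : L →ₗ[L] L => f y) hρ
    exact this
  refine ⟨fun l => ρ (φ l), fun i => ?_⟩
  have h1 := congrArg ρ (h i)
  rw [hρ', map_sum] at h1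
  rw [← h1]
  refine Finset.sum_congr rfl fun l _ => ?_
  have h2 : φ l * algebraMap L Ω (v i l) = v i l • φ l := by
    rw [Algebra.smul_def, mul_comm]
  rw [h2, map_smul, smul_eq_mul, mul_comm]

end Pool.Agent.K6.H80.LV
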