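import Pool.Agent.K6.H80.LV.Ineq
import Pool.Agent.K6.H80.LV.Tan
import Pool.Agent.TH145.GH.FinB2

/-!
Heights of the points, and finiteness over a finitely generated field.
-/

set_option autoImplicit false
set_option linter.unusedSectionVars false

open MvPolynomial FF Pool.Agent.W603.LV Pool.Agent.W603.PV Pool.Agent.W602.RG
open Pool.Agent.TH145.GH

namespace Pool.Agent.K6.H80.LV

/-- The common zeros of the polynomials `f ∈ V`, with some coordinate in each block equal to one,
have dimension at most `m`, and their projections to the blocks have dimension at most `μ s`. -/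
def DimB (k0 : Type) [Field k0] {σ S : Type} (β : σ → S) (V : Set (MvPolynomial σ k0))
    (m : ℕ) (μ : S → ℕ) : Prop :=
  ∀ (Ω : Type) [Field Ω] [Algebra k0 Ω] (x : σ → Ω), (∀ s, ∃ l, β l = s ∧ x l = 1) →
    (∀ f ∈ V, aeval x f = 0) →
    Algebra.trdeg k0 (IntermediateField.adjoin k0 (Set.range x)) ≤ m ∧
    ∀ s, Algebra.trdeg k0 (IntermediateField.adjoin k0 (x '' {l | β l = s})) ≤ μ s

/-- No vertical derivations. -/
abbrev nv {K : Type} [Field K] : Empty → Derivation ℤ K K := fun e => e.elim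

theorem map_mn {K L σ : Type} [Field K] [Field L] [Fintype σ] (f : K →+* L) (x : σ → K)
    (u : σ →₀ ℕ) : f (mn x u) = mn (fun l => f (x l)) u := by
  unfold mn
  rw [map_prod]
  exact Finset.prod_congr rfl fun i _ => map_pow _ _ _

theorem finite_st {σ S : Type} [Finite σ] [Fintype S] (β : σ → S) (c : S → σ) (d : S → ℕ) :
    (St β c d).Finite := by
  classical
  have h1 : (Set.Iic d).Finite := by
    have := Fintype.ofFinite S
    exact Set.finite_Iic d
  have h2 : ((Set.univ : Set (S → σ)) ×ˢ (Set.Iic d)).Finite := (Set.toFinite _).prod h1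
  refine (h2.image fun p => sM c d p.1 p.2).subset ?_
  rintro _ ⟨l, j, -, hj, rfl⟩
  exact ⟨(l, j), ⟨trivial, hj⟩, rfl⟩

theorem finite_ix {σ S A : Type} [Finite σ] [Fintype S] [Finite A] (β : σ → S) (c : S → σ)
    (dg : A → S → ℕ) : Finite {p : A × (σ →₀ ℕ) // p.2 ∈ St β c (dg p.1)} := by
  have h : ∀ a, Finite (St β c (dg a)) := fun a => finite_st β c (dg a)
  let f : {p : A × (σ →₀ ℕ) // p.2 ∈ St β c (dg p.1)} → Σ a, St β c (dg a) :=
    fun p => ⟨p.1.1, p.1.2, p.2⟩
  refine Finite.of_injective f ?_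
  rintro ⟨⟨a, I⟩, h1⟩ ⟨⟨a', I'⟩, h2⟩ h
  obtain rfl : a = a' := congrArg Sigma.fst h
  have h3 : (⟨I, h1⟩ : St β c (dg a)) = ⟨I', h2⟩ := eq_of_heq (Sigma.mk.inj_iff.1 h).2
  obtain rfl : I = I' := congrArg Subtype.val h3
  rfl

section

variable {L Ω : Type} [Field L] [Field Ω] [Algebra L Ω] {σ S A X : Type} [Fintype σ] [Fintype S]
  {β : σ → S} {c : S → σ} {dg : A → S → ℕ}

/-- The functionals exist over a smaller field. -/
theorem Fn.descend {D : A → (σ →₀ ℕ) → Derivation ℤ Ω Ω} {D' : A → (σ →₀ ℕ) → Derivation ℤ L L}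
    (hD : ∀ a I y, algebraMap L Ω (D' a I y) = D a I (algebraMap L Ω y))
    {E : X → Derivation ℤ Ω Ω} {E' : X → Derivation ℤ L L}
    (hE : ∀ ξ y, algebraMap L Ω (E' ξ y) = E ξ (algebraMap L Ω y))
    {x : σ → L} {φ : A → σ → Ω} (h : Fn β c dg D E (fun l => algebraMap L Ω (x l)) φ) :
    ∃ φ' : A → σ → L, Fn β c dg D' E' x φ' := by
  classical
  have key : ∀ a, ∃ φ' : σ → L, (∀ s, ∑ l, φ' l * px β x s l = 0) ∧
      (∀ ξ, ∑ l, φ' l * E' ξ (x l) = 0) ∧
      ∀ b, ∀ I ∈ St β c (dg b), ∑ l, φ' l * D' b I (x l) = if a = b then - mn x I else 0 := by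
    intro a
    obtain ⟨φ', hφ'⟩ := Pool.Agent.K6.H80.LV.descend (ι := S ⊕ (X ⊕ {p : A × (σ →₀ ℕ) // p.2 ∈ St β c (dg p.1)}))
      (fun i l => match i with
        | Sum.inl s => px β x s l
        | Sum.inr (Sum.inl ξ) => E' ξ (x l)
        | Sum.inr (Sum.inr p) => D' p.1.1 p.1.2 (x l))
      (fun i => match i with
        | Sum.inl s => 0
        | Sum.inr (Sum.inl ξ) => 0
        | Sum.inr (Sum.inr p) => if a = p.1.1 then - mn x p.1.2 else 0) (φ a) (by
      rintro (s | ξ | ⟨⟨b, I⟩, hI⟩)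
      · simp only [map_zero]
        rw [← h.pos a s]
        refine Finset.sum_congr rfl fun l _ => ?_
        rw [px_apply, px_apply]
        split_ifs
        · rfl
        · rw [map_zero]
      · simp only [map_zero]
        rw [← h.ver a ξ]
        exact Finset.sum_congr rfl fun l _ => by rw [hE]
      · by_cases hab : a = b
        · subst hab
          simp only [if_true, map_neg, map_mn]
          rw [← h.dia a I hI]
          exact Finset.sum_congr rfl fun l _ => by rw [hD]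
        · simp only [hab, if_false, map_zero]
          rw [← h.nor a b I hI hab]
          exact Finset.sum_congr rfl fun l _ => by rw [hD])
    exact ⟨φ', fun s => hφ' (Sum.inl s), fun ξ => hφ' (Sum.inr (Sum.inl ξ)),
      fun b I hI => hφ' (Sum.inr (Sum.inr ⟨(b, I), hI⟩))⟩
  choose φ' h1 h2 h3 using key
  refine ⟨φ', h1, h2, fun a b I hI hab => ?_, fun a I hI => ?_⟩
  · rw [h3 a b I hI, if_neg hab]
  · rw [h3 a a I hI, if_pos rfl]

end

variable {k0 K ι : Type} [Field k0] [Field K] [Algebra k0 K] [IsAlgClosed K] [CharZero K]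

section

variable {y : ι → K} (E : IntermediateField (IntermediateField.adjoin k0 (Set.range y)) K)
  {σ S A : Type} [Fintype σ] [Fintype S] [Fintype A] {β : σ → S} {c : S → σ} {dg : A → S → ℕ}

/-- The heights of the points are bounded. -/
theorem heights {m : ℕ} {μ : S → ℕ} (hy : AlgebraicIndependent k0 y)
    [FiniteDimensional (IntermediateField.adjoin k0 (Set.range y)) E]
    (hc : ∀ s, β (c s) = s) (D : A → (σ →₀ ℕ) → Derivation ℤ K K)
    (hDE : ∀ a I, ∀ x ∈ E, D a I x ∈ E)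
    (hDk : ∀ a I (r : k0), D a I (algebraMap k0 K r) = 0)
    (hDy : ∀ a I j, ∃ r : k0, D a I (y j) = algebraMap k0 K r)
    (hd : ∀ s, μ s + m + 2 ≤ ∑ a, (dg a s + 1))
    (V : Set (MvPolynomial σ k0)) (hV : DimB k0 β V m μ) (i : ι) :
    ∃ B : ℤ, ∀ (x : σ → E), (∀ s, x (c s) = 1) →
      (∀ f ∈ V, eval₂ (algebraMap k0 K) (fun j => (x j : K)) f = 0) →
      (∃ φ : A → σ → K, Fn β c dg D nv (fun j => (x j : K)) φ) →
      ∀ j, hgt (kap k0 y i) (⟨(x j : K), subset_LL y _ i (x j).2⟩ :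
        LL k0 y (E : Set K) i) ≤ B := by
  classical
  have hFF : IsFF (kap k0 y i) (LL k0 y (E : Set K) i) := LL_ff E hy i
  have hac : IsAlgClosed (kap k0 y i) := acl_isAlgClosed _
  have hcz : CharZero (kap k0 y i) := charZero_of_injective_algebraMap
    (algebraMap ℚ (kap k0 y i)).injective
  let D' : A → (σ →₀ ℕ) → Derivation ℤ (LL k0 y (E : Set K) i)
      (LL k0 y (E : Set K) i) := fun a I => resDer _ (D a I) fun x hx =>
    der_LL E (D a I) (hDk a I) (hDy a I) (hDE a I) i hx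
  have hS : ∀ a I, Sem (kap k0 y i) (D' a I) := fun a I r =>
    ⟨⟨_, der_kap (D a I) (hDk a I) (hDy a I) i r.2⟩, rfl⟩
  have hfin := finite_ix β c dg
  obtain ⟨e, he0, hef, he⟩ := exists_loss_fin (k := kap k0 y i) (K := LL k0 y (E : Set K) i)
    (ι := {p : A × (σ →₀ ℕ) // p.2 ∈ St β c (dg p.1)}) (D := fun p => D' p.1.1 p.1.2)
    (fun p => hS p.1.1 p.1.2)
  refine ⟨∑ᶠ P, (m + Fintype.card S : ℕ) * e P, fun x hx hxV hφ j => ?_⟩
  obtain ⟨φ, hφ⟩ := hφ
  obtain ⟨x', hx'⟩ : ∃ x' : σ → LL k0 y (E : Set K) i,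
    ∀ j, x' j = ⟨(x j : K), subset_LL y _ i (x j).2⟩ := ⟨_, fun _ => rfl⟩
  have hx'1 : ∀ s, x' (c s) = 1 := fun s => by
    rw [hx']
    apply Subtype.ext
    change (x (c s) : K) = 1
    rw [hx]; rfl
  have hx'x : (fun l => algebraMap (LL k0 y (E : Set K) i) K (x' l)) = fun j => (x j : K) := by
    funext j
    rw [hx']
    rfl
  have hrk : Module.finrank (LL k0 y (E : Set K) i) (Full β c dg D' nv x') ≤
      m + Fintype.card S ∧ ∀ s, Module.finrank (LL k0 y (E : Set K) i)
        ((Full β c dg D' nv x').map (bp _ β s)) ≤ μ s + 1 := by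
    let ψ : k0 →+* LL k0 y (E : Set K) i :=
      { toFun := fun r => ⟨algebraMap k0 K r, subset_LL y _ i (k0_mem E r)⟩
        map_one' := Subtype.ext (map_one _)
        map_mul' := fun a b => Subtype.ext (map_mul _ a b)
        map_zero' := Subtype.ext (map_zero _)
        map_add' := fun a b => Subtype.ext (map_add _ a b) }
    have hczL : CharZero (LL k0 y (E : Set K) i) :=
      charZero_of_injective_algebraMap (algebraMap (kap k0 y i) _).injective
    let _ : Algebra k0 (LL k0 y (E : Set K) i) := ψ.toAlgebra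
    have hDk' : ∀ a I (r : k0), D' a I (algebraMap k0 (LL k0 y (E : Set K) i) r) = 0 :=
      fun a I r => Subtype.ext (hDk a I r)
    have hVx : ∀ f ∈ V, aeval x' f = 0 := fun f hf => by
      apply Subtype.ext
      have h1 := hom_eval₂ f ψ (algebraMap (LL k0 y (E : Set K) i) K) x'
      refine h1.trans ?_
      have h2 : (algebraMap (LL k0 y (E : Set K) i) K).comp ψ = algebraMap k0 K := by
        ext r
        rfl
      rw [h2, hx'x]
      exact hxV f hf
    obtain ⟨hV1, hV2⟩ := hV _ x' (fun s => ⟨c s, hc s, hx'1 s⟩) hVx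
    exact ⟨rank_le (k0 := k0) hc hDk' (fun ξ => ξ.elim) hx'1 hV1, fun s =>
      rank_le_blk (k0 := k0) hc hDk' (fun ξ => ξ.elim) hx'1 s (hV2 s)⟩
  obtain ⟨φ', hφ'⟩ := Fn.descend (β := β) (c := c) (dg := dg) (D := D) (D' := D') (E := nv)
    (E' := nv) (fun a I y => rfl) (fun ξ => ξ.elim) (x := x') (φ := φ) (by rw [hx'x]; exact hφ)
  have h1 := ineq (k := kap k0 y i) hc hx'1 hd hrk.1 hrk.2 hφ' he0 hef
    (fun P f hf a I hI => he P f hf ⟨(a, I), hI⟩) j
  rw [← hx']
  exact h1

end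

section

variable [IsAlgClosed k0] {σ S A : Type} [Fintype σ] [Fintype S] [Fintype A] {β : σ → S}
  {c : S → σ} {dg : A → S → ℕ}

/-- Limit points are constant. -/
theorem limit {m : ℕ} {μ : S → ℕ} (E : Subfield K) (hE : ∀ r : k0, algebraMap k0 K r ∈ E)
    (hc : ∀ s, β (c s) = s) (D : A → (σ →₀ ℕ) → Derivation ℤ K K)
    (hDE : ∀ a I, ∀ x ∈ E, D a I x ∈ E)
    (hDk : ∀ a I (r : k0), D a I (algebraMap k0 K r) = 0)
    (hd : ∀ s, μ s + m + 2 ≤ ∑ a, (dg a s + 1))
    (V : Set (MvPolynomial σ k0)) (hV : DimB k0 β V m μ)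
    (z : σ → Om K) (hz : ∀ j, z j ∈ OE k0 (E : Set K)) (hz1 : ∀ s, z (c s) = 1)
    (hzV : ∀ f ∈ V, eval₂ ((cst K).comp (algebraMap k0 K)) z f = 0)
    {Φ : A → σ → Om K} (hΦ : Fn β c dg (fun a I => hat (D a I)) nv z Φ) (j : σ) :
    z j ∈ acl (cst K '' (E : Set K)) := by
  classical
  by_contra hj1
  obtain ⟨κ, Λ, M, hac, hFF, hEκ, hzΛ, hzκ, -, hMC, hder, hplace⟩ :=
    exists_rig E hE z hz ∅ (by simp) j hj1
  have hczOm : CharZero (Om K) :=
    charZero_of_injective_algebraMap (algebraMap K (Om K)).injective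
  have hcz : CharZero κ := charZero_of_injective_algebraMap (algebraMap ℚ κ).injective
  have hczΛ : CharZero Λ := charZero_of_injective_algebraMap (algebraMap κ Λ).injective
  have hd' := fun a I => hder (hat (D a I)) (fun w hw => hat_CC (D a I) (hDk a I) hw)
    (fun x hx => ⟨D a I x, hDE a I x hx, by rw [hat_cst]⟩)
  let D' : A → (σ →₀ ℕ) → Derivation ℤ Λ Λ := fun a I =>
    resDer Λ (hat (D a I)) (hd' a I).2
  have hD' : ∀ a I (x : Λ), ((D' a I x : Λ) : Om K) = hat (D a I) x := fun a I x => rfl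
  have hS : ∀ a I, Sem κ (D' a I) := fun a I c => ⟨⟨hat (D a I) c, (hd' a I).1 c c.2⟩, rfl⟩
  have hM0 : ∀ a I, ∀ m ∈ M, D' a I m = 0 := by
    intro a I m hm
    apply Subtype.ext
    rw [hD']
    exact hat_CC (D a I) (hDk a I) (hMC m hm)
  have hloss : ∀ (P : Place κ Λ) f, Ge P 0 f → ∀ a, ∀ I ∈ St β c (dg a), Ge P (-0) (D' a I f) := by
    intro P f hf a I _
    rw [neg_zero]
    rcases hplace P with ⟨-, θ, hθM, c, hu⟩ | ⟨π, hπM, hπ⟩
    · refine reg_of_unif P hu (hS a I) le_rfl ?_ hf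
      obtain ⟨c', hc'⟩ := hS a I c
      rw [map_sub, hM0 a I θ hθM, hc', zero_sub]
      exact (Ge.const c').neg
    · refine reg_of_unif P hπ (hS a I) le_rfl ?_ hf
      rw [hM0 a I π hπM]
      exact Ge.zero
  obtain ⟨x, hx⟩ : ∃ x : σ → Λ, ∀ j, x j = ⟨z j, hzΛ j⟩ := ⟨_, fun _ => rfl⟩
  have hxz : (fun j => algebraMap Λ (Om K) (x j)) = z := by
    funext j
    rw [hx]
    rfl
  have hx1 : ∀ s, x (c s) = 1 := fun s => by
    rw [hx]
    exact Subtype.ext (hz1 s)
  have hrk : Module.finrank Λ (Full β c dg D' nv x) ≤ m + Fintype.card S ∧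
      ∀ s, Module.finrank Λ ((Full β c dg D' nv x).map (bp Λ β s)) ≤ μ s + 1 := by
    let ψ : k0 →+* Λ :=
      { toFun := fun r => ⟨cst K (algebraMap k0 K r), Λ.algebraMap_mem ⟨_, hEκ _ (hE r)⟩⟩
        map_one' := Subtype.ext (by simp)
        map_mul' := fun a b => Subtype.ext (by simp)
        map_zero' := Subtype.ext (by simp)
        map_add' := fun a b => Subtype.ext (by simp) }
    let _ : Algebra k0 Λ := ψ.toAlgebra
    have hDk' : ∀ a I (r : k0), D' a I (algebraMap k0 Λ r) = 0 := fun a I r => by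
      apply Subtype.ext
      change hat (D a I) (cst K (algebraMap k0 K r)) = 0
      rw [hat_cst, hDk, map_zero]
    have hVx : ∀ f ∈ V, aeval x f = 0 := fun f hf => by
      apply Subtype.ext
      have h1 := hom_eval₂ f ψ (algebraMap Λ (Om K)) x
      refine h1.trans ?_
      have h2 : (algebraMap Λ (Om K)).comp ψ = (cst K).comp (algebraMap k0 K) := by
        ext r
        rfl
      rw [h2, hxz]
      exact hzV f hf
    obtain ⟨hV1, hV2⟩ := hV _ x (fun s => ⟨c s, hc s, hx1 s⟩) hVx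
    exact ⟨rank_le (k0 := k0) hc hDk' (fun ξ => ξ.elim) hx1 hV1, fun s =>
      rank_le_blk (k0 := k0) hc hDk' (fun ξ => ξ.elim) hx1 s (hV2 s)⟩
  obtain ⟨φ', hφ'⟩ := Fn.descend (β := β) (c := c) (dg := dg) (D := fun a I => hat (D a I))
    (D' := D') (E := nv) (E' := nv) (fun a I y => rfl) (fun ξ => ξ.elim) (x := x) (φ := Φ)
    (by rw [hxz]; exact hΦ)
  have h1 := ineq (k := κ) hc hx1 hd hrk.1 hrk.2 hφ' (e := fun _ => 0) (fun _ => le_rfl) (by simp)
    hloss j
  simp only [mul_zero, finsum_zero] at h1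
  obtain ⟨r, hr⟩ := const_of_hgt h1
  apply hzκ
  have h2 := congrArg (fun w : Λ => (w : Om K)) hr
  rw [hx] at h2
  change z j = (r : Om K) at h2
  rw [h2]
  exact r.2

end

section

variable [IsAlgClosed k0] {y : ι → K}
  (E : IntermediateField (IntermediateField.adjoin k0 (Set.range y)) K)
  {σ S A : Type} [Fintype σ] [Fintype S] [Fintype A] {β : σ → S} {c : S → σ} {dg : A → S → ℕ}

theorem mn_mk (x : ℕ → σ → K) (u : σ →₀ ℕ) :
    mn (fun j => Om.mk fun n => x n j) u = Om.mk fun n => mn (x n) u := by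
  classical
  have h1 : ∀ (w : ℕ → K) (e : ℕ), (Om.mk w) ^ e = Om.mk fun n => w n ^ e := by
    intro w e
    rw [← Pool.Agent.TH145.MF.mkHom_apply (k := K) w, ← map_pow]
    rfl
  unfold mn
  have h2 : ∀ T : Finset σ, ∏ i ∈ T, (Om.mk fun n => x n i) ^ u i =
      Om.mk fun n => ∏ i ∈ T, x n i ^ u i := by
    intro T
    induction T using Finset.induction_on with
    | empty => simp only [Finset.prod_empty]; rfl
    | insert a T ha ih =>
      simp only [Finset.prod_insert ha]
      rw [ih, h1, Om.mk_mul]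
  exact h2 _

/-- Finiteness of the points. -/
theorem fin_all {m : ℕ} {μ : S → ℕ} [Finite ι] (hy : IsTranscendenceBasis k0 y)
    [FiniteDimensional (IntermediateField.adjoin k0 (Set.range y)) E]
    [IsGalois (IntermediateField.adjoin k0 (Set.range y)) E]
    (hc : ∀ s, β (c s) = s) (D : A → (σ →₀ ℕ) → Derivation ℤ K K)
    (hDE : ∀ a I, ∀ x ∈ E, D a I x ∈ E)
    (hDk : ∀ a I (r : k0), D a I (algebraMap k0 K r) = 0)
    (hDy : ∀ a I j, ∃ r : k0, D a I (y j) = algebraMap k0 K r)
    (hd : ∀ s, μ s + m + 2 ≤ ∑ a, (dg a s + 1))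
    (V : Set (MvPolynomial σ k0)) (hV : DimB k0 β V m μ) :
    {x : σ → K | (∀ j, x j ∈ E) ∧ (∀ s, x (c s) = 1) ∧
      (∀ f ∈ V, eval₂ (algebraMap k0 K) x f = 0) ∧
      ∃ φ : A → σ → K, Fn β c dg D nv x φ}.Finite := by
  classical
  by_contra hinf
  let f := Set.Infinite.natEmbedding _ hinf
  obtain ⟨x, hx⟩ : ∃ x : ℕ → σ → K, ∀ n, x n = (f n).1 := ⟨_, fun _ => rfl⟩
  have hxinj : Function.Injective x := by
    intro a b hab
    rw [hx, hx] at hab
    exact f.injective (Subtype.ext hab)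
  have hxE : ∀ n j, x n j ∈ E := fun n j => by rw [hx]; exact (f n).2.1 j
  have hxl : ∀ n s, x n (c s) = 1 := fun n => by rw [hx]; exact (f n).2.2.1
  have hxV : ∀ n, ∀ f ∈ V, eval₂ (algebraMap k0 K) (x n) f = 0 := fun n => by
    rw [hx]; exact (f n).2.2.2.1
  have hxφ : ∀ n, ∃ φ : A → σ → K, Fn β c dg D nv (x n) φ := fun n => by
    rw [hx]; exact (f n).2.2.2.2
  choose B hB using fun i => heights E hy.1 hc D hDE hDk hDy hd V hV i
  have hz : ∀ j, Om.mk (fun n => x n j) ∈ OE k0 ((E.toSubfield : Subfield K) : Set K) := fun j =>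
    lim_mem E hy (fun n => ⟨x n j, hxE n j⟩) B fun n i =>
      hB i (fun j => ⟨x n j, hxE n j⟩) (fun s => Subtype.ext (hxl n s)) (hxV n) (hxφ n) j
  choose φ hφ using hxφ
  have hzero : ∀ u : ℕ → K, (∀ n, u n = 0) → Om.mk u = 0 := fun u hu => by
    have : u = fun _ => 0 := funext hu
    rw [this]; rfl
  have hpx : ∀ s l, px β (fun j => Om.mk fun n => x n j) s l = Om.mk fun n => px β (x n) s l := by
    intro s l
    simp only [px_apply]
    split_ifs
    · rfl
    · rfl
  have hsum : ∀ (a : A) (v : σ → ℕ → K), ∑ l, (Om.mk fun n => φ n a l) * Om.mk (v l) =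
      Om.mk fun n => ∑ l, φ n a l * v l n := by
    intro a v
    rw [Pool.Agent.W61.RG.GSP.mk_sum Finset.univ (fun l n => φ n a l * v l n)]
    exact Finset.sum_congr rfl fun l _ => Om.mk_mul _ _
  have hΦ : Fn β c dg (fun a I => hat (D a I)) nv (fun j => Om.mk fun n => x n j)
      (fun a l => Om.mk fun n => φ n a l) := by
    refine ⟨fun a s => ?_, fun a ξ => ξ.elim, fun a b I hI hab => ?_, fun a I hI => ?_⟩
    · simp only [hpx]
      rw [hsum a (fun l n => px β (x n) s l)]
      exact hzero _ fun n => (hφ n).pos a s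
    · simp only [hat_mk]
      rw [hsum a (fun l n => D b I (x n l))]
      exact hzero _ fun n => (hφ n).nor a b I hI hab
    · simp only [hat_mk]
      rw [hsum a (fun l n => D a I (x n l)), mn_mk]
      have h1 : (fun n => ∑ l, φ n a l * D a I (x n l)) = fun n => - mn (x n) I :=
        funext fun n => (hφ n).dia a I hI
      rw [h1]
      rfl
  have hacl := limit E.toSubfield (fun r => k0_mem E r) hc D hDE hDk hd V hV
    (fun j => Om.mk fun n => x n j) hz (fun s => by
      have h1 : (fun n => x n (c s)) = fun _ => 1 := funext fun n => hxl n s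
      change (Om.mk fun n => x n (c s)) = 1
      rw [h1]; rfl) (fun f hf => by
      have h1 : eval₂ (cst K) (fun j => Om.mk fun n => x n j) (map (algebraMap k0 K) f) =
          Om.mk fun n => eval (x n) (map (algebraMap k0 K) f) := by
        generalize map (algebraMap k0 K) f = g
        induction g using MvPolynomial.induction_on with
        | C a => simp only [eval₂_C, eval_C]; rfl
        | add p q hp hq => rw [eval₂_add]; simp only [map_add]; rw [hp, hq, Om.mk_add]
        | mul_X p i hp => rw [eval₂_mul, eval₂_X]; simp only [map_mul, eval_X]; rw [hp, Om.mk_mul]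
      have h2 : (fun n => eval (x n) (map (algebraMap k0 K) f)) = fun _ => 0 := by
        funext n
        rw [eval_map]
        exact hxV n f hf
      rw [h2] at h1
      have h3 : eval₂ (cst K) (fun j => Om.mk fun n => x n j) (map (algebraMap k0 K) f) = 0 := h1
      rwa [eval₂_map] at h3) hΦ
  choose a ha using fun j => eventually_const (hacl j)
  exact not_all_const hxinj a ha

end

end Pool.Agent.K6.H80.LV
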