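import Pool.Agent.K6.H80.LV.Choice
import Pool.Agent.TH145.GC.Est
import Pool.Agent.TH145.GC.Ineq

/-!
The height inequality.
-/

set_option autoImplicit false
set_option linter.unusedSectionVars false

open MvPolynomial FF Pool.Agent.W603.LV Pool.Agent.W603.PV

namespace Pool.Agent.K6.H80.LV

variable {k K : Type} [Field k] [Field K] [Algebra k K] {σ S A X : Type}

/-- The minimum of the orders of the nonzero coordinates of a block. -/
noncomputable def po (β : σ → S) (P : Place k K) (x : σ → K) (s : S) : ℤ :=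
  ⨅ j : {j // β j = s ∧ x j ≠ 0}, P.ord (x j)

theorem po_le [Finite σ] {β : σ → S} (P : Place k K) {x : σ → K} {j : σ} (hj : x j ≠ 0) :
    po β P x (β j) ≤ P.ord (x j) := by
  unfold po
  exact ciInf_le (Finite.bddBelow_range _) (⟨j, rfl, hj⟩ : {j' // β j' = β j ∧ x j' ≠ 0})

theorem exists_po [Finite σ] {β : σ → S} (P : Place k K) {x : σ → K} {j0 : σ} (hj0 : x j0 ≠ 0) :
    ∃ j, β j = β j0 ∧ x j ≠ 0 ∧ P.ord (x j) = po β P x (β j0) := by
  have : Nonempty {j // β j = β j0 ∧ x j ≠ 0} := ⟨⟨j0, rfl, hj0⟩⟩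
  obtain ⟨j, hj⟩ := exists_eq_ciInf_of_finite
    (f := fun j : {j // β j = β j0 ∧ x j ≠ 0} => P.ord (x j))
  exact ⟨j, j.2.1, j.2.2, hj⟩

/-- Scaling at a place. -/
theorem exists_sc [Finite σ] {β : σ → S} {c : S → σ} (hc : ∀ s, β (c s) = s) (P : Place k K)
    {x : σ → K} (hx : ∀ s, x (c s) ≠ 0) :
    ∃ (lam : S → K) (x' : σ → K) (e : S → σ), (∀ s, lam s ≠ 0) ∧
      (∀ s, P.ord (lam s) = po β P x s) ∧ x = sc β lam x' ∧ (∀ l, Ge P 0 (x' l)) ∧
      (∀ s, β (e s) = s) ∧ ∀ s, x' (e s) = 1 := by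
  have h : ∀ s, ∃ j, β j = s ∧ x j ≠ 0 ∧ P.ord (x j) = po β P x s := fun s => by
    have := exists_po (β := β) P (hx s)
    rwa [hc] at this
  choose e he hex heo using h
  have hne : ∀ s, x (e s) ≠ 0 := hex
  refine ⟨fun s => x (e s), fun l => (x (e (β l)))⁻¹ * x l, e, hne, heo, ?_, fun l => ?_, he,
    fun s => ?_⟩
  · funext l
    rw [sc, mul_inv_cancel_left₀ (hne _)]
  · dsimp only
    by_cases hl : x l = 0
    · left
      rw [hl, mul_zero]
    · right
      rw [P.ord_mul (inv_ne_zero (hne _)) hl, P.ord_inv, heo]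
      have := po_le (β := β) P hl
      omega
  · dsimp only
    rw [he, inv_mul_cancel₀ (hne s)]

variable [Fintype σ] [Fintype S] {β : σ → S} {c : S → σ} {dg : A → S → ℕ}
  {D : A → (σ →₀ ℕ) → Derivation ℤ K K} {E : X → Derivation ℤ K K}

theorem ge_vv (hc : ∀ s, β (c s) = s) {P : Place k K} {ε : ℤ} (hε : 0 ≤ ε) {x : σ → K}
    (hx : ∀ l, Ge P 0 (x l))
    (hD : ∀ l a, ∀ I ∈ St β c (dg a), Ge P (-ε) (D a I (x l)))
    (hE : ∀ ξ l, Ge P (-ε) (E ξ (x l))) {I : A → σ →₀ ℕ} (hI : ∀ a, I a ∈ St β c (dg a))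
    (i : Ix σ S A X ⊕ A) (l : σ) : Ge P (-ε) (vv β c dg D E x I i l) := by
  classical
  rcases i with (s | ξ | t) | a
  · simp only [vv, wv, px_apply]
    split_ifs
    · exact (hx l).mono (by omega)
    · exact Ge.zero
  · exact hE ξ l
  · simp only [vv, wv, tv]
    split_ifs with ht
    · refine Ge.mono (by omega : -ε ≤ 0 + -ε) (Ge.sub ?_ ?_)
      · exact (hx _).mul (hD l _ _ (sM_up_mem ht.1 ht.2.1 ht.2.2))
      · exact (hx _).mul (hD l _ _ ⟨_, _, ht.1, ht.2.1, rfl⟩)
    · exact Ge.zero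
  · exact hD l a _ (hI a)

open scoped Classical in
/-- The number of the columns in a block. -/
noncomputable def col (β : σ → S) {b : Finset (Ix σ S A X ⊕ A)} (τ : b → σ) (s : S) : ℕ :=
  (Finset.univ.filter fun j : b => β (τ j) = s).card

/-- The rows of the tangent vector fields of a block. -/
def IsT (s : S) (i : Ix σ S A X ⊕ A) : Prop :=
  ∃ t : Ti σ S A, i = Sum.inl (Sum.inr (Sum.inr t)) ∧ t.2.1 = s

open scoped Classical in
/-- The number of the rows of the tangent vector fields of a block. -/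
noncomputable def tw (b : Finset (Ix σ S A X ⊕ A)) (s : S) : ℕ := (b.filter fun i => IsT s i).card

theorem fac_ne {lam : S → K} (hl : ∀ s, lam s ≠ 0) (i : Ix σ S A X ⊕ A) : fac lam i ≠ 0 := by
  rcases i with (s | ξ | t) | a
  · exact one_ne_zero
  · exact one_ne_zero
  · exact hl _
  · exact one_ne_zero

theorem ord_fac (P : Place k K) (lam : S → K) (i : Ix σ S A X ⊕ A) [∀ s, Decidable (IsT s i)] :
    P.ord (fac lam i) = ∑ s, if IsT s i then P.ord (lam s) else 0 := by
  classical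
  rcases i with (s | ξ | t) | a
  · simp [fac, IsT, P.ord_one]
  · simp [fac, IsT, P.ord_one]
  · rw [Finset.sum_eq_single t.2.1]
    · rw [if_pos ⟨t, rfl, rfl⟩]
      rfl
    · intro s _ hs
      rw [if_neg]
      rintro ⟨t', ht', h⟩
      apply hs
      have h1 : t = t' := by simpa using ht'
      rw [h1]; exact h.symm
    · intro h; exact absurd (Finset.mem_univ _) h
  · simp [fac, IsT, P.ord_one]

open scoped Classical in
/-- The orders of the factors. -/
theorem ord_factors (P : Place k K) {lam : S → K} (hl : ∀ s, lam s ≠ 0)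
    {b : Finset (Ix σ S A X ⊕ A)} (τ : b → σ) :
    P.ord ((∏ j : b, lam (β (τ j))) * (∏ i : b, fac lam i.1)) =
      ∑ s, ((col β τ s + tw b s : ℕ) : ℤ) * P.ord (lam s) := by
  have h1 : (∏ j : b, lam (β (τ j))) ≠ 0 := Finset.prod_ne_zero_iff.2 fun j _ => hl _
  have h2 : (∏ i : b, fac lam i.1) ≠ 0 := Finset.prod_ne_zero_iff.2 fun i _ => fac_ne hl _
  rw [P.ord_mul h1 h2, Pool.Agent.TH145.GC.ord_prod P _ _ fun j _ => hl _,
    Pool.Agent.TH145.GC.ord_prod P _ _ fun i _ => fac_ne hl _]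
  have h3 : ∑ j : b, P.ord (lam (β (τ j))) = ∑ s, (col β τ s : ℤ) * P.ord (lam s) := by
    have : ∀ j : b, P.ord (lam (β (τ j))) =
        ∑ s, if β (τ j) = s then P.ord (lam s) else 0 := fun j => by
      rw [Finset.sum_ite_eq Finset.univ (β (τ j)), if_pos (Finset.mem_univ _)]
    rw [Finset.sum_congr rfl fun j _ => this j, Finset.sum_comm]
    refine Finset.sum_congr rfl fun s _ => ?_
    rw [← Finset.sum_filter, Finset.sum_const, nsmul_eq_mul]
    rfl
  have h4 : ∑ i : b, P.ord (fac lam i.1) = ∑ s, (tw b s : ℤ) * P.ord (lam s) := by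
    rw [Finset.sum_coe_sort b (fun i => P.ord (fac lam i)),
      Finset.sum_congr rfl fun i _ => ord_fac P lam i, Finset.sum_comm]
    refine Finset.sum_congr rfl fun s _ => ?_
    rw [← Finset.sum_filter, Finset.sum_const, nsmul_eq_mul]
    rfl
  rw [h3, h4, ← Finset.sum_add_distrib]
  exact Finset.sum_congr rfl fun s _ => by push_cast; ring

theorem full_sc_le (hc : ∀ s, β (c s) = s) (x : σ → K) {lam : S → K} (hl : ∀ s, lam s ≠ 0) :
    ∀ z ∈ Full β c dg D E (sc β lam x), (fun l => (lam (β l))⁻¹ * z l) ∈ Full β c dg D E x := by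
  classical
  obtain ⟨ψ, hψ⟩ : ∃ ψ : (σ → K) →ₗ[K] (σ → K), ∀ z l, ψ z l = (lam (β l))⁻¹ * z l :=
    ⟨{ toFun := fun z l => (lam (β l))⁻¹ * z l
       map_add' := fun y z => funext fun l => by simp [mul_add]
       map_smul' := fun r z => funext fun l => by simp; ring }, fun _ _ => rfl⟩
  have hpx : ∀ s, px β x s ∈ Full β c dg D E x := fun s => wv_mem_full x (Sum.inl s)
  have key : Full β c dg D E (sc β lam x) ≤ (Full β c dg D E x).comap ψ := by
    have hrow : ∀ (I : A → σ →₀ ℕ) (i : Ix σ S A X ⊕ A),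
        vv β c dg D E x I i ∈ Full β c dg D E x →
        ψ (vv β c dg D E (sc β lam x) I i) ∈ Full β c dg D E x := by
      intro I i hi
      obtain ⟨κ, -, hκ⟩ := vv_scale hc dg D E x hl I
      have h1 : ψ (vv β c dg D E (sc β lam x) I i) =
          fac lam i • (vv β c dg D E x I i + ∑ s, κ i s • px β x s) := by
        funext l
        rw [hψ, hκ, inv_mul_cancel_left₀ (hl _)]
        simp only [Pi.smul_apply, Pi.add_apply, Finset.sum_apply, smul_eq_mul]
      rw [h1]
      exact Submodule.smul_mem _ _ (add_mem hi (sum_mem fun s _ => Submodule.smul_mem _ _ (hpx s)))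
    rw [Full, Submodule.span_le]
    rintro _ (⟨o, rfl⟩ | ⟨a, I, hI, rfl⟩)
    · exact hrow (fun _ => 0) (Sum.inl o) (wv_mem_full x o)
    · exact hrow (fun _ => I) (Sum.inr a) (Ev_mem_full x hI)
  intro z hz
  have h1 := key hz
  have h2 : (fun l => (lam (β l))⁻¹ * z l) = ψ z := funext fun l => (hψ z l).symm
  rw [h2]
  exact h1

open scoped Classical in
/-- The local inequality. -/
theorem local_est [Fintype A] (hc : ∀ s, β (c s) = s) (P : Place k K) {ε : ℤ} (hε : 0 ≤ ε)
    {x : σ → K} (hx : ∀ s, x (c s) ≠ 0)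
    (hD : ∀ f, Ge P 0 f → ∀ a, ∀ I ∈ St β c (dg a), Ge P (-ε) (D a I f))
    (hE : ∀ f, Ge P 0 f → ∀ ξ, Ge P (-ε) (E ξ f))
    {b : Finset (Ix σ S A X ⊕ A)} (hbp : ∀ s, Sum.inl (Sum.inl s) ∈ b) (hb : ∀ a, Sum.inr a ∈ b)
    (τ : b → σ) (hspan : Submodule.span K (Set.range (wv β c dg D E x)) ≤
        Submodule.span K (wv β c dg D E x '' {o | Sum.inl o ∈ b}))
    (hdet : (mx β c dg D E x (fun a => pw c (dg a)) b τ).det ≠ 0) :
    ∑ s, ((col β τ s + tw b s : ℕ) - (∑ a, dg a s : ℕ)) * po β P x s - b.card * ε ≤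
      P.ord ((mx β c dg D E x (fun a => pw c (dg a)) b τ).det / ∏ a, mn x (pw c (dg a))) := by
  obtain ⟨lam, x', e, hl, hlo, hxx, hx', he, he1⟩ := exists_sc hc P hx
  have hpe : ∀ a, pw e (dg a) ∈ St β c (dg a) := fun a => pw_mem he _
  have h1 := det_change hx hb τ hspan (fun a => pw e (dg a)) hpe
  have h2 := det_lam (dg := dg) (D := D) (E := E) hc (x := x') hl hbp τ (fun a => pw e (dg a))
  rw [← hxx] at h2
  rw [h2] at h1
  obtain ⟨d0, hd0⟩ : ∃ d0, d0 = (mx β c dg D E x (fun a => pw c (dg a)) b τ).det := ⟨_, rfl⟩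
  obtain ⟨d1, hd1⟩ : ∃ d1, d1 = (mx β c dg D E x' (fun a => pw e (dg a)) b τ).det := ⟨_, rfl⟩
  rw [← hd0] at hdet h1 ⊢
  rw [← hd1] at h1
  have hmc : ∀ a, mn x (pw c (dg a)) ≠ 0 := fun a => by
    rw [mn_pw]
    exact Finset.prod_ne_zero_iff.2 fun s _ => pow_ne_zero _ (hx s)
  have hme : ∀ a, mn x (pw e (dg a)) = ∏ s, lam s ^ dg a s := fun a => by
    rw [mn_pw]
    refine Finset.prod_congr rfl fun s _ => ?_
    rw [hxx, sc, he, he1, mul_one]
  have hme0 : ∀ a, (∏ s, lam s ^ dg a s) ≠ 0 := fun a =>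
    Finset.prod_ne_zero_iff.2 fun s _ => pow_ne_zero _ (hl s)
  have hZ0 : (∏ a, mn x (pw c (dg a))) ≠ 0 := Finset.prod_ne_zero_iff.2 fun a _ => hmc a
  have hY0 : (∏ a, ∏ s, lam s ^ dg a s) ≠ 0 := Finset.prod_ne_zero_iff.2 fun a _ => hme0 a
  obtain ⟨Φ, hΦ⟩ : ∃ Φ, Φ = (∏ j : b, lam (β (τ j))) * (∏ i : b, fac lam i.1) := ⟨_, rfl⟩
  have hΦ0 : Φ ≠ 0 := by
    rw [hΦ]
    exact mul_ne_zero (Finset.prod_ne_zero_iff.2 fun j _ => hl _)
      (Finset.prod_ne_zero_iff.2 fun i _ => fac_ne hl _)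
  have h3 : Φ * d1 = d0 / (∏ a, mn x (pw c (dg a))) * ∏ a, ∏ s, lam s ^ dg a s := by
    rw [hΦ, mul_assoc, h1, Finset.prod_div_distrib]
    simp only [hme]
    field_simp
  have hq0 : d0 / (∏ a, mn x (pw c (dg a))) ≠ 0 := div_ne_zero hdet hZ0
  have hd10 : d1 ≠ 0 := by
    intro h0
    rw [h0, mul_zero] at h3
    exact mul_ne_zero hq0 hY0 h3.symm
  have h5 := congrArg P.ord h3
  rw [P.ord_mul hΦ0 hd10, P.ord_mul hq0 hY0] at h5
  have h6 : P.ord (∏ a, ∏ s, lam s ^ dg a s) = ∑ s, ((∑ a, dg a s : ℕ) : ℤ) * po β P x s := by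
    rw [Pool.Agent.TH145.GC.ord_prod P _ _ fun a _ => hme0 a]
    have : ∀ a, P.ord (∏ s, lam s ^ dg a s) = ∑ s, (dg a s : ℤ) * po β P x s := fun a => by
      rw [Pool.Agent.TH145.GC.ord_prod P _ _ fun s _ => pow_ne_zero _ (hl s)]
      exact Finset.sum_congr rfl fun s _ => by rw [P.ord_pow, hlo]
    rw [Finset.sum_congr rfl fun a _ => this a, Finset.sum_comm]
    refine Finset.sum_congr rfl fun s _ => ?_
    rw [← Finset.sum_mul]
    push_cast
    rfl
  have h7 : P.ord Φ = ∑ s, ((col β τ s + tw b s : ℕ) : ℤ) * po β P x s := by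
    rw [hΦ, ord_factors P hl τ]
    exact Finset.sum_congr rfl fun s _ => by rw [hlo]
  have h8 : -(b.card * ε) ≤ P.ord d1 := by
    have h9 := Pool.Agent.TH145.GC.ge_det P
      (mx β c dg D E x' (fun a => pw e (dg a)) b τ) (c := ε) fun i j =>
        ge_vv hc hε hx' (fun l a I hI => hD _ (hx' l) a I hI) (fun ξ l => hE _ (hx' l) ξ) hpe _ _
    rw [Fintype.card_coe, ← hd1] at h9
    exact h9.resolve_left hd10
  rw [h6, h7] at h5
  have h9 : ∑ s, ((col β τ s + tw b s : ℕ) - (∑ a, dg a s : ℕ)) * po β P x s =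
      ∑ s, ((col β τ s + tw b s : ℕ) : ℤ) * po β P x s -
        ∑ s, ((∑ a, dg a s : ℕ) : ℤ) * po β P x s := by
    rw [← Finset.sum_sub_distrib]
    exact Finset.sum_congr rfl fun s _ => by ring
  rw [h9]
  linarith

open scoped Classical in
/-- The number of the rows. -/
theorem num [Fintype A] [Fintype X] {b : Finset (Ix σ S A X ⊕ A)}
    (hbV : ∀ i ∈ Vert σ S A X, i ∈ b) (hb : ∀ a, Sum.inr a ∈ b) (s : S) :
    tw b s + Fintype.card A + Fintype.card X + Fintype.card S ≤ b.card := by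
  obtain ⟨b1, hb1⟩ : ∃ b1 : Finset (Ix σ S A X ⊕ A), b1 = (b.filter fun i => IsT s i) :=
    ⟨_, rfl⟩
  obtain ⟨b2, hb2⟩ : ∃ b2 : Finset (Ix σ S A X ⊕ A), b2 = Finset.univ.image
    (fun o : A ⊕ (X ⊕ S) => match o with
      | Sum.inl a => (Sum.inr a : Ix σ S A X ⊕ A)
      | Sum.inr (Sum.inl ξ) => Sum.inl (Sum.inr (Sum.inl ξ))
      | Sum.inr (Sum.inr s) => Sum.inl (Sum.inl s)) := ⟨_, rfl⟩
  have h2 : b2.card = Fintype.card A + (Fintype.card X + Fintype.card S) := by
    rw [hb2, Finset.card_image_of_injective, Finset.card_univ, Fintype.card_sum,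
      Fintype.card_sum]
    rintro (a | ξ | s) (a' | ξ' | s') h
    all_goals simp_all
  have h3 : Disjoint b1 b2 := by
    rw [Finset.disjoint_left]
    intro i hi hi'
    rw [hb1, Finset.mem_filter] at hi
    obtain ⟨-, t, rfl, -⟩ := hi
    rw [hb2, Finset.mem_image] at hi'
    obtain ⟨(a | ξ | s), -, h⟩ := hi'
    all_goals simp at h
  have h4 : b1 ∪ b2 ⊆ b := by
    refine Finset.union_subset ?_ ?_
    · rw [hb1]; exact Finset.filter_subset _ _
    · rw [hb2]
      intro i hi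
      obtain ⟨(a | ξ | s), -, rfl⟩ := Finset.mem_image.1 hi
      · exact hb a
      · exact hbV _ (Or.inr ⟨ξ, rfl⟩)
      · exact hbV _ (Or.inl ⟨s, rfl⟩)
  have h5 := Finset.card_le_card h4
  rw [Finset.card_union_of_disjoint h3, h2] at h5
  have h6 : b1.card = tw b s := by rw [hb1]; rfl
  omega

/-- The projection to a block. -/
noncomputable def bp (K : Type) [Field K] (β : σ → S) (s : S) : (σ → K) →ₗ[K] (σ → K) where
  toFun z := px β z s
  map_add' y z := by
    classical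
    funext l
    simp only [px_apply, Pi.add_apply]
    split_ifs
    · rfl
    · rw [add_zero]
  map_smul' r z := by
    classical
    funext l
    simp only [px_apply, Pi.smul_apply, RingHom.id_apply, smul_eq_mul]
    split_ifs
    · rfl
    · rw [mul_zero]

open scoped Classical in
/-- The number of the columns of a block. -/
theorem col_le {x : σ → K} {I : A → σ →₀ ℕ} (hI : ∀ a, I a ∈ St β c (dg a))
    {b : Finset (Ix σ S A X ⊕ A)} (τ : b → σ) (hdet : (mx β c dg D E x I b τ).det ≠ 0) (s : S)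
    {N : ℕ} (hN : Module.finrank K ((Full β c dg D E x).map (bp K β s)) ≤ N) :
    col β τ s ≤ N := by
  obtain ⟨M, hM⟩ : ∃ M : Matrix b {j : b // β (τ j) = s} K,
    M = Matrix.of fun i j => mx β c dg D E x I b τ i j.1 := ⟨_, rfl⟩
  have h1 : LinearIndependent K (mx β c dg D E x I b τ).col :=
    Matrix.linearIndependent_cols_of_det_ne_zero hdet
  have h2 : LinearIndependent K M.transpose.row := by
    have h3 := h1.comp (fun j : {j : b // β (τ j) = s} => j.1) Subtype.val_injective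
    convert h3 using 1
    rw [hM]
    rfl
  have h3 := h2.rank_matrix
  rw [Matrix.rank_transpose, Matrix.rank_eq_finrank_span_row, Fintype.card_subtype] at h3
  have h4 : col β τ s = (Finset.univ.filter fun j : b => β (τ j) = s).card := rfl
  rw [h4, ← h3]
  refine le_trans ?_ hN
  obtain ⟨ρ, hρ⟩ : ∃ ρ : (σ → K) →ₗ[K] ({j : b // β (τ j) = s} → K), ∀ z j, ρ z j = z (τ j.1) :=
    ⟨{ toFun := fun z j => z (τ j.1)
       map_add' := fun _ _ => rfl
       map_smul' := fun _ _ => rfl }, fun _ _ => rfl⟩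
  refine le_trans (Submodule.finrank_mono (t := ((Full β c dg D E x).map (bp K β s)).map ρ) ?_)
    (Submodule.finrank_map_le ρ _)
  rw [Submodule.span_le]
  rintro _ ⟨i, rfl⟩
  refine ⟨bp K β s (vv β c dg D E x I i), ⟨_, vv_mem_full x hI i, rfl⟩, ?_⟩
  funext j
  rw [hρ]
  change px β (vv β c dg D E x I i) s (τ j.1) = M i j
  rw [px_apply, if_pos j.2, hM]
  rfl

variable (k) in
/-- The height of a block. -/
noncomputable def bht (β : σ → S) (x : σ → K) (s : S) : ℤ := - ∑ᶠ P : Place k K, po β P x s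

section

variable [IsAlgClosed k] [CharZero k] [IsFF k K]

theorem po_finite {x : σ → K} {s : S} {j0 : σ} (hj0 : x j0 ≠ 0) (hs : β j0 = s) :
    {P : Place k K | po β P x s ≠ 0}.Finite := by
  classical
  obtain ⟨T, hT⟩ := exists_supp (k := k) (Finset.univ : Finset σ) x
  refine T.finite_toSet.subset fun P hP => ?_
  by_contra hPS
  apply hP
  obtain ⟨j, -, -, hj⟩ := exists_po (β := β) P hj0
  rw [← hs, ← hj]
  by_contra hcon
  exact hPS (hT j (Finset.mem_univ _) P hcon)

theorem hgt_le_bht {x : σ → K} {s : S} {j0 l : σ} (hj0 : x j0 = 1) (hs : β j0 = s)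
    (hl : β l = s) : hgt k (x l) ≤ bht k β x s := by
  classical
  obtain ⟨T, hT⟩ := exists_supp (k := k) (Finset.univ : Finset σ) x
  have hx0 : x j0 ≠ 0 := by rw [hj0]; exact one_ne_zero
  have h1 : bht k β x s = ∑ P ∈ T, (- po β P x s) := by
    unfold bht
    rw [finsum_eq_sum_of_support_subset (s := T), Finset.sum_neg_distrib]
    intro P hP
    by_contra hcon
    apply hP
    obtain ⟨j, -, -, hj⟩ := exists_po (β := β) P hx0
    dsimp only
    rw [← hs, ← hj]
    by_contra hcon'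
    exact hcon (hT j (Finset.mem_univ _) P hcon')
  rw [h1, hgt_finset _ T (hT l (Finset.mem_univ _))]
  refine Finset.sum_le_sum fun P _ => ?_
  have h2 : po β P x s ≤ 0 := by
    have := po_le (β := β) P hx0
    rwa [hj0, P.ord_one, hs] at this
  by_cases h0 : x l = 0
  · rw [h0, P.ord_zero]
    simp only [neg_zero, max_self]
    omega
  · have h3 := po_le (β := β) P h0
    rw [hl] at h3
    omega

/-- The sum of the local inequalities. -/
theorem sum_blocks {x : σ → K} (hx : ∀ s, x (c s) = 1) (hc : ∀ s, β (c s) = s) {Θ : K}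
    {α : S → ℤ} (hα : ∀ s, 1 ≤ α s) {C : Place k K → ℤ} (hC : {P | C P ≠ 0}.Finite)
    (h : ∀ P : Place k K, ∑ s, (- α s) * po β P x s - C P ≤ P.ord Θ) (s : S) :
    bht k β x s ≤ ∑ᶠ P, C P := by
  classical
  have hx0 : ∀ s, x (c s) ≠ 0 := fun s => by rw [hx]; exact one_ne_zero
  have hp : ∀ s, {P : Place k K | po β P x s ≠ 0}.Finite := fun s => po_finite (hx0 s) (hc s)
  obtain ⟨T, hT⟩ := exists_supp (k := k) (Finset.univ : Finset Unit) (fun _ => Θ)
  obtain ⟨U, hU⟩ : ∃ U : Finset (Place k K),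
    U = T ∪ ((Finset.univ.biUnion fun s => (hp s).toFinset) ∪ hC.toFinset) := ⟨_, rfl⟩
  have h1 : ∑ P ∈ U, P.ord Θ = 0 := sum_ord_finset _ _ fun P hP => by
    rw [hU]; exact Finset.mem_union_left _ (hT () (Finset.mem_univ _) P hP)
  have h2 : ∀ s, bht k β x s = - ∑ P ∈ U, po β P x s := by
    intro s
    unfold bht
    rw [finsum_eq_sum_of_support_subset (s := U)]
    intro P hP
    rw [hU]
    exact Finset.mem_union_right _ (Finset.mem_union_left _ (Finset.mem_biUnion.2
      ⟨s, Finset.mem_univ _, (hp s).mem_toFinset.2 hP⟩))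
  have h3 : ∑ᶠ P, C P = ∑ P ∈ U, C P := by
    rw [finsum_eq_sum_of_support_subset (s := U)]
    intro P hP
    rw [hU]
    exact Finset.mem_union_right _ (Finset.mem_union_right _ (hC.mem_toFinset.2 hP))
  have h4 := Finset.sum_le_sum (s := U) fun P _ => h P
  rw [Finset.sum_sub_distrib, h1, ← h3, Finset.sum_comm] at h4
  have h5 : ∀ s, ∑ P ∈ U, (- α s) * po β P x s = α s * bht k β x s := fun s => by
    rw [h2, ← Finset.mul_sum]
    ring
  rw [Finset.sum_congr rfl fun s _ => h5 s] at h4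
  have hnn : ∀ s, 0 ≤ bht k β x s := fun s => by
    have := hgt_le_bht (k := k) (β := β) (hx s) (hc s) (hc s)
    exact (hgt_nonneg _).trans this
  have h6 : bht k β x s ≤ ∑ s, α s * bht k β x s := by
    have h7 : bht k β x s ≤ α s * bht k β x s := by nlinarith [hα s, hnn s]
    refine h7.trans (Finset.single_le_sum (f := fun s => α s * bht k β x s) (fun s _ => ?_)
      (Finset.mem_univ s))
    have := hα s
    have := hnn s
    positivity
  linarith

/-- The height inequality. -/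
theorem ineq [Fintype A] (hc : ∀ s, β (c s) = s) {x : σ → K} (hx : ∀ s, x (c s) = 1) {m : ℕ}
    {μ : S → ℕ} {D : A → (σ →₀ ℕ) → Derivation ℤ K K}
    (hd : ∀ s, μ s + m + 2 ≤ ∑ a, (dg a s + 1))
    (hrk : Module.finrank K (Full β c dg D (fun e : Empty => e.elim) x) ≤ m + Fintype.card S)
    (hrkb : ∀ s, Module.finrank K
      ((Full β c dg D (fun e : Empty => e.elim) x).map (bp K β s)) ≤ μ s + 1)
    {φ : A → σ → K} (hφ : Fn β c dg D (fun e : Empty => e.elim) x φ)
    {e : Place k K → ℤ} (he0 : ∀ P, 0 ≤ e P) (hef : {P | e P ≠ 0}.Finite)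
    (hloss : ∀ P f, Ge P 0 f → ∀ a, ∀ I ∈ St β c (dg a), Ge P (-e P) (D a I f)) (l : σ) :
    hgt k (x l) ≤ ∑ᶠ P, (m + Fintype.card S : ℕ) * e P := by
  classical
  have hx0 : ∀ s, x (c s) ≠ 0 := fun s => by rw [hx]; exact one_ne_zero
  have hs0 : LinearIndepOn K (vv β c dg D (fun e : Empty => e.elim) x fun a => pw c (dg a))
      (Vert σ S A Empty) := by
    have h1 : Vert σ S A Empty = Set.range fun s => Sum.inl (Sum.inl s) := by
      ext i
      constructor
      · rintro (⟨s, rfl⟩ | ⟨ξ, -⟩)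
        · exact ⟨s, rfl⟩
        · exact ξ.elim
      · rintro ⟨s, rfl⟩
        exact Or.inl ⟨s, rfl⟩
    rw [h1, ← Set.image_univ]
    refine LinearIndepOn.image_of_comp _ _ ?_
    rw [linearIndepOn_univ_iff, Fintype.linearIndependent_iff]
    intro r hr s
    have h2 := congrFun hr (c s)
    simp only [Finset.sum_apply, Function.comp_apply, vv, wv, Pi.smul_apply, smul_eq_mul,
      Pi.zero_apply] at h2
    rw [sum_px, hc, hx, mul_one] at h2
    exact h2
  obtain ⟨b, hbV, hb, hbi, hspan, hcard⟩ := exists_rows hc hx0 hφ hs0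
  obtain ⟨τ, hτ⟩ := Pool.Agent.TH145.GC.exists_minor _ hbi
  have hdet : (mx β c dg D (fun e : Empty => e.elim) x (fun a => pw c (dg a)) b τ).det ≠ 0 := by
    unfold mx
    convert hτ
  have hbc : b.card ≤ m + Fintype.card S := by rw [← hcard]; exact hrk
  have hcol := fun s => col_le (fun a => pw_mem hc _) τ hdet s (hrkb s)
  refine (hgt_le_bht (k := k) (β := β) (s := β l) (hx (β l)) (hc _) rfl).trans ?_
  refine sum_blocks hx hc (α := fun s => (∑ a, dg a s : ℕ) - (col β τ s + tw b s : ℕ))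
    (fun s => ?_) ?_ (fun P => ?_) (β l) (Θ := (mx β c dg D (fun e : Empty => e.elim) x
      (fun a => pw c (dg a)) b τ).det / ∏ a, mn x (pw c (dg a)))
  · have h1 := num hbV hb s
    have h1' := hcol s
    have h2 := hd s
    rw [Finset.sum_add_distrib, Finset.sum_const, Finset.card_univ, smul_eq_mul, mul_one] at h2
    have h3 : Fintype.card Empty = 0 := rfl
    have h4 : (col β τ s + tw b s) + 1 ≤ ∑ a, dg a s := by omega
    have h5 : (((col β τ s + tw b s) + 1 : ℕ) : ℤ) ≤ (∑ a, dg a s : ℕ) := by exact_mod_cast h4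
    push_cast at h5 ⊢
    linarith
  · refine hef.subset fun P hP h0 => hP ?_
    rw [h0, mul_zero]
  · have h1 := local_est hc P (he0 P) hx0 (hloss P) (fun f _ ξ => ξ.elim)
      (fun s => hbV _ (Or.inl ⟨s, rfl⟩)) hb τ hspan hdet
    refine le_trans ?_ h1
    have h2 : (b.card : ℤ) * e P ≤ (m + Fintype.card S : ℕ) * e P :=
      mul_le_mul_of_nonneg_right (by exact_mod_cast hbc) (he0 P)
    have h3 : ∑ s, (-(((∑ a, dg a s : ℕ) : ℤ) - (col β τ s + tw b s : ℕ))) * po β P x s =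
        ∑ s, ((col β τ s + tw b s : ℕ) - (∑ a, dg a s : ℕ)) * po β P x s :=
      Finset.sum_congr rfl fun s _ => by ring
    rw [h3]
    linarith

end

end Pool.Agent.K6.H80.LV
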