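import Pool.Agent.K6.H80.LV.Vert
import Pool.Agent.W602.GT.Sys

/-!
Subvarieties are of general type.
-/

set_option autoImplicit false
set_option linter.unusedSectionVars false

open MvPolynomial FF Pool.Agent.W603.LV Pool.Agent.W603.PV Pool.Agent.TH145.GH
open Pool.Agent.W602.GT
open Pool.Agent.TH145.GF (vE det_dec der_comb exists_lift exists_dualsG)

namespace Pool.Agent.K6.H80.LV

theorem exists_coord_basis {K L σ : Type} [Field K] [Field L] [Algebra K L] [Finite σ] {w : ℕ}
    (htr : Algebra.trdeg K L = w) {x : σ → L}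
    (h2 : Algebra.IsAlgebraic (IntermediateField.adjoin K (Set.range x)) L) :
    ∃ l : Fin w → σ, IsTranscendenceBasis K fun i => x (l i) := by
  classical
  have h3 : Algebra.IsAlgebraic (Algebra.adjoin K (Set.range x)) L :=
    ⟨fun f => IntermediateField.isAlgebraic_adjoin_iff.1 (h2.isAlgebraic f)⟩
  obtain ⟨u, -, hu, hub⟩ := exists_isTranscendenceBasis_between (R := K) (∅ : Set L) (Set.range x)
    (Set.empty_subset _) ((algebraicIndependent_empty_type_iff (R := K) (A := L)
      (x := fun i : (∅ : Set L) => (i : L))).2 (algebraMap K L).injective)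
  have hfin : Finite u := Set.Finite.to_subtype ((Set.finite_range x).subset hu)
  have := Fintype.ofFinite u
  have hcard : Fintype.card u = w := by
    have h4 := hub.lift_cardinalMk_eq_trdeg
    rw [htr] at h4
    simpa using h4
  obtain ⟨e⟩ : Nonempty (Fin w ≃ u) := ⟨(Fintype.equivFinOfCardEq hcard).symm⟩
  choose l hl using fun i : Fin w => hu (e i).2
  refine ⟨l, ?_⟩
  have h5 : (fun i => x (l i)) = (fun z : u => (z : L)) ∘ e := by
    funext i
    exact hl i
  rw [h5]
  exact (isTranscendenceBasis_equiv e).2 hub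

variable {σ S A : Type} [Fintype σ] [Fintype S] [Fintype A] {β : σ → S} {c : S → σ}
  {dg : A → S → ℕ}

open scoped Classical in
/-- Subvarieties are of general type. -/
theorem gen_type {k0 K L : Type} [Field k0] [Field K] [Field L] [Algebra k0 K] [Algebra K L]
    [Algebra k0 L] [IsScalarTower k0 K L] [IsAlgClosed K] [CharZero K] {m w : ℕ} {μ : S → ℕ}
    (hc : ∀ s, β (c s) = s)
    (hd : ∀ s, μ s + m + 2 ≤ ∑ a, (dg a s + 1) + w)
    (V : Set (MvPolynomial σ k0)) (hV : DimB k0 β V m μ)
    {J : A → Type} [∀ a, Fintype (J a)] (P : ∀ a, J a → MvPolynomial σ k0)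
    (hSt : ∀ a, ∀ I ∈ St β c (dg a), ∃ j, P a j = monomial I 1)
    {cf : ∀ a, J a → K} {F : A → MvPolynomial σ K}
    (hF : ∀ a, F a = ∑ j, C (cf a j) * map (algebraMap k0 K) (P a j))
    (hind : AlgebraicIndependent k0 fun p : (Σ a, J a) => cf p.1 p.2)
    (hw : 0 < w) (htr : Algebra.trdeg K L = w) {x : σ → L} (hx : ∀ s, x (c s) = 1)
    (hgen : Algebra.IsAlgebraic (IntermediateField.adjoin K (Set.range x)) L)
    (hxV : ∀ f ∈ V, aeval x f = 0)
    (halg : ∀ a, IsAlgebraic (IntermediateField.adjoin k0 (Set.range x)) (aeval x (F a))) :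
    GeneralType K L w := by
  have hL : CharZero L := charZero_of_injective_algebraMap (algebraMap K L).injective
  obtain ⟨l, hl⟩ := exists_coord_basis htr hgen
  obtain ⟨t, ht⟩ : ∃ t : Fin w → L, ∀ i, t i = x (l i) := ⟨_, fun _ => rfl⟩
  have htb : IsTranscendenceBasis K t := by
    have : t = fun i => x (l i) := funext ht
    rw [this]
    exact hl
  choose js hjs using hSt
  -- the derivations
  obtain ⟨D0, hD0S, hD0⟩ := exists_dualsG htb _ hind
  obtain ⟨D, hD⟩ : ∃ D : A → (σ →₀ ℕ) → Derivation ℤ L L, ∀ a I, D a I =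
      if h : I ∈ St β c (dg a) then (D0 ⟨a, js a I h⟩).restrictScalars ℤ else 0 :=
    ⟨_, fun _ _ => rfl⟩
  have hDS : ∀ a I, Sem K (D a I) := by
    intro a I
    rw [hD]
    split_ifs
    · exact hD0S _
    · exact fun r => ⟨0, by rw [map_zero]; rfl⟩
  have hDk : ∀ a I (r : k0), D a I (algebraMap k0 L r) = 0 := by
    intro a I r
    rw [hD]
    split_ifs
    · exact (D0 _).map_algebraMap r
    · rfl
  have hDv : ∀ a I (h : I ∈ St β c (dg a)) b j, D a I (algebraMap K L (cf b j)) =
      if (⟨a, js a I h⟩ : Σ a, J a) = ⟨b, j⟩ then 1 else 0 := by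
    intro a I h b j
    rw [hD, dif_pos h]
    exact (hD0 ⟨a, js a I h⟩ ⟨b, j⟩).trans (by congr)
  obtain ⟨E, hE⟩ : ∃ E : Fin w → Derivation K L L, ∀ i j, E i (t j) = if i = j then 1 else 0 := by
    obtain ⟨E, hE⟩ := exists_dual htb
    refine ⟨E, fun i j => ?_⟩
    have := congrFun (congrFun hE i) j
    rw [Matrix.of_apply, Matrix.one_apply] at this
    rw [this]
  have hEk : ∀ ξ (r : k0), vE E ξ (algebraMap k0 L r) = 0 := by
    intro i r
    change E i (algebraMap k0 L r) = 0
    rw [IsScalarTower.algebraMap_apply k0 K L]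
    exact (E i).map_algebraMap _
  -- the functionals
  obtain ⟨φ, hφ⟩ := exists_Fn (k0 := k0) (E := vE E) hc hx P (fun a j => algebraMap K L (cf a j))
    (F := fun a => map (algebraMap K L) (F a)) (fun a => by
      rw [hF, map_sum]
      refine Finset.sum_congr rfl fun j _ => ?_
      rw [map_mul, map_C, map_map, ← IsScalarTower.algebraMap_eq]) js hjs hDk
    (fun a I h => by rw [hDv a I h, if_pos rfl])
    (fun a b hab I h j => by
      rw [hDv a I h, if_neg]
      intro h'
      exact hab (congrArg Sigma.fst h'))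
    (fun a I h j hj => by
      rw [hDv a I h, if_neg]
      intro h'
      exact hj (eq_of_heq (Sigma.mk.inj_iff.1 h').2).symm) hEk
    (fun ξ b j => (E ξ).map_algebraMap _) (fun a => by
      rw [eval_map]
      exact halg a)
  obtain ⟨hV1, hV2⟩ := hV L x (fun s => ⟨c s, hc s, hx s⟩) hxV
  have hrk : Module.finrank L (Full β c dg D (vE E) x) ≤ m + Fintype.card S :=
    rank_le (k0 := k0) hc hDk hEk hx hV1
  have hindep : LinearIndepOn L (vv β c dg D (vE E) x fun a => pw c (dg a))
      (Vert σ S A (Fin w)) := by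
    obtain ⟨f, hf⟩ : ∃ f : S ⊕ Fin w → Ix σ S A (Fin w) ⊕ A, ∀ o, f o =
      Sum.elim (fun s => Sum.inl (Sum.inl s)) (fun i => Sum.inl (Sum.inr (Sum.inl i))) o :=
      ⟨_, fun _ => rfl⟩
    have h1 : Vert σ S A (Fin w) = f '' Set.univ := by
      ext i
      constructor
      · rintro (⟨s, rfl⟩ | ⟨i, rfl⟩)
        · exact ⟨Sum.inl s, trivial, by rw [hf]; rfl⟩
        · exact ⟨Sum.inr i, trivial, by rw [hf]; rfl⟩
      · rintro ⟨(s | i), -, rfl⟩
        · rw [hf]; exact Or.inl ⟨s, rfl⟩
        · rw [hf]; exact Or.inr ⟨i, rfl⟩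
    rw [h1]
    refine LinearIndepOn.image_of_comp _ _ ?_
    rw [linearIndepOn_univ_iff, Fintype.linearIndependent_iff]
    intro r hr
    have h2 : ∀ q, r (Sum.inl (β q)) * x q + ∑ i, r (Sum.inr i) * E i (x q) = 0 := by
      intro q
      have h3 := congrFun hr q
      rw [Fintype.sum_sum_type, Pi.add_apply, Finset.sum_apply, Finset.sum_apply] at h3
      simp only [Function.comp_apply, hf, Sum.elim_inl, Sum.elim_inr, Pi.smul_apply, smul_eq_mul,
        Pi.zero_apply, vv, wv] at h3
      rw [sum_px β x (fun s => r (Sum.inl s)) q] at h3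
      exact h3
    have h3 : ∀ s, r (Sum.inl s) = 0 := by
      intro s
      have h4 := h2 (c s)
      rw [hx, mul_one, hc, Finset.sum_eq_zero fun i _ => by
        rw [(E i).map_one_eq_zero, mul_zero], add_zero] at h4
      exact h4
    rintro (s | j)
    · exact h3 s
    · have h4 := h2 (l j)
      rw [h3, zero_mul, zero_add, ← ht, Finset.sum_eq_single j] at h4
      · rwa [hE, if_pos rfl, mul_one] at h4
      · intro i _ hi
        rw [hE, if_neg hi, mul_zero]
      · intro h; exact absurd (Finset.mem_univ _) h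
  have hx0 : ∀ s, x (c s) ≠ 0 := fun s => by rw [hx]; exact one_ne_zero
  obtain ⟨b, hbV, hbA, hbi, hspan, hcard⟩ := exists_rows hc hx0 hφ hindep
  obtain ⟨τ, hτ⟩ := Pool.Agent.TH145.GC.exists_minor _ hbi
  have hdet : (mx β c dg D (vE E) x (fun a => pw c (dg a)) b τ).det ≠ 0 := by
    rw [Ne, det_dec _ _ (mx β c dg D (vE E) x (fun a => pw c (dg a)) b τ)]
    exact hτ
  have hbc : b.card ≤ m + Fintype.card S := by rw [← hcard]; exact hrk
  have hα : ∀ s, col β τ s + tw b s + 1 ≤ ∑ a, dg a s := by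
    intro s
    have h1 := num hbV hbA s
    have h1' := col_le (fun a => pw_mem hc _) τ hdet s
      (rank_le_blk (k0 := k0) hc hDk hEk hx s (hV2 s))
    have h2 := hd s
    rw [Finset.sum_add_distrib, Finset.sum_const, Finset.card_univ, smul_eq_mul, mul_one] at h2
    rw [Fintype.card_fin] at h1
    omega
  have hmn : ∏ a, mn x (pw c (dg a)) = 1 := by
    refine Finset.prod_eq_one fun a _ => ?_
    rw [mn_pw]
    exact Finset.prod_eq_one fun s _ => by rw [hx, one_pow]
  -- the forms
  obtain ⟨q, hq⟩ : ∃ q : Fin (w + 1) → L, q = Fin.cons 1 t := ⟨_, rfl⟩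
  obtain ⟨Φ, hΦ⟩ : ∃ Φ : (Fin w → Derivation K L L) → L, ∀ Dd, Φ Dd =
    (mx β c dg D (vE Dd) x (fun a => pw c (dg a)) b τ).det := ⟨_, fun _ => rfl⟩
  have hlin : ∀ (M : Matrix (Fin w) (Fin w) L) (D1 D2 : Fin w → Derivation K L L),
      (∀ i f, D1 i f = ∑ j, M i j * D2 j f) → Φ D1 = M.det * Φ D2 := by
    intro M D1 D2 h
    have h1 := det_lin (β := β) (c := c) (dg := dg) (D := D) (E := vE D2) (E' := vE D1) (M := M)
      h x hbV τ (fun a => pw c (dg a))
    rw [hΦ, hΦ]
    exact (det_dec _ _ _).trans (h1.trans (congrArg₂ (· * ·) (det_dec _ _ _) (det_dec _ _ _)))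
  have hΦE : Φ E ≠ 0 := by rw [hΦ]; exact hdet
  refine ⟨htr, 1, one_pos, fun j Dd => Φ Dd * q j, fun j M Dd => ?_, fun Q hQ j Dd hDd => ?_,
    E, ?_, ?_⟩
  · have h1 : Φ (fun i => ∑ j, M i j • Dd j) = M.det * Φ Dd := hlin M _ Dd (fun i f => by
      rw [← Derivation.coeFnAddMonoidHom_apply, map_sum, Finset.sum_apply]
      rfl)
    rw [pow_one]
    dsimp only
    rw [h1, mul_assoc]
  · obtain ⟨M, hM⟩ : ∃ M : Matrix (Fin w) (Fin w) L, M = Matrix.of fun i j => Dd i (t j) :=
      ⟨_, rfl⟩
    have hΦM := hlin M Dd E (fun i f => by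
      rw [der_comb htb hE (Dd i) f, hM]
      rfl)
    dsimp only
    by_cases hM0 : M.det = 0
    · rw [hΦM, hM0, zero_mul, zero_mul]
      exact Q.reg_zero
    have h1 := vert_est hc hw htr hQ hDS htb hE hDd hM hM0 hx0 hbV hbA τ hspan hdet
    rw [hmn, div_one] at h1
    have hpo : ∀ s, po β Q x s ≤ 0 := by
      intro s
      have := po_le (β := β) Q (hx0 s)
      rwa [hx, Q.ord_one, hc] at this
    -- the lower bound
    have h2 : ∀ s0, - po β Q x s0 ≤
        ∑ s, ((col β τ s + tw b s : ℕ) - (∑ a, dg a s : ℕ)) * po β Q x s := by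
      intro s0
      have h3 : ∀ s, (if s = s0 then - po β Q x s else 0) ≤
          (((col β τ s + tw b s : ℕ) : ℤ) - (∑ a, dg a s : ℕ)) * po β Q x s := by
        intro s
        have h4 : (((col β τ s + tw b s + 1 : ℕ)) : ℤ) ≤ (∑ a, dg a s : ℕ) := by
          exact_mod_cast hα s
        have h5 := hpo s
        have h6 : 0 ≤ (((col β τ s + tw b s : ℕ) : ℤ) + 1 - (∑ a, dg a s : ℕ)) * po β Q x s := by
          refine mul_nonneg_of_nonpos_of_nonpos ?_ h5
          push_cast at h4 ⊢
          linarith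
        split_ifs
        · linarith
        · linarith
      have h4 := Finset.sum_le_sum (s := Finset.univ) fun s _ => h3 s
      rw [Finset.sum_ite_eq' Finset.univ s0, if_pos (Finset.mem_univ _)] at h4
      exact h4
    have h3 : ∀ s0, Ge Q (- po β Q x s0) (Φ Dd) := by
      intro s0
      right
      rw [hΦM, Q.ord_mul hM0 hΦE, hΦ]
      exact (h2 s0).trans h1
    have hge : ∀ z, Ge Q 0 z → Q.Reg z := fun z hz => hz
    apply hge
    refine Fin.cases ?_ (fun i => ?_) j
    · rw [hq, Fin.cons_zero, mul_one]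
      refine (h3 (β (l ⟨0, hw⟩))).mono ?_
      have := hpo (β (l ⟨0, hw⟩))
      omega
    · rw [hq, Fin.cons_succ]
      have h4 : Ge Q (po β Q x (β (l i))) (t i) := by
        rw [ht]
        by_cases h0 : x (l i) = 0
        · exact Or.inl h0
        · exact Or.inr (po_le (β := β) Q h0)
      have h5 := (h3 (β (l i))).mul h4
      rwa [neg_add_cancel] at h5
  · dsimp only
    rw [hq, Fin.cons_zero, mul_one]
    exact hΦE
  · have h1 : (fun i : Fin w => Φ E * q i.succ / (Φ E * q 0)) = t := by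
      funext i
      rw [hq, Fin.cons_succ, Fin.cons_zero, mul_one, mul_div_cancel_left₀ _ hΦE]
    rw [h1]
    exact htb.1

end Pool.Agent.K6.H80.LV
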