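import Pool.Agent.K6.H80.LV.Fin
import Pool.Agent.TH145.GH.Setup
import Pool.Agent.W602.GT.Der

/-!
Derivations dual to the coefficients of generic polynomials, and finiteness of the points at which
the values of generic polynomials are algebraic over the field of the coordinates.
-/

set_option autoImplicit false
set_option linter.unusedSectionVars false

open MvPolynomial Pool.Agent.TH145.GH

namespace Pool.Agent.K6.H80.LV

variable {σ S A X : Type} [Fintype σ] [Fintype S] {β : σ → S} {c : S → σ} {dg : A → S → ℕ}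

/-- Derivations and linear combinations. -/
theorem der_coeff {k0 L J : Type} [Field k0] [Field L] [Algebra k0 L] [Fintype J]
    (P : J → MvPolynomial σ k0) (cf : J → L) (D : Derivation ℤ L L)
    (hD : ∀ r : k0, D (algebraMap k0 L r) = 0) (x : σ → L) {F : MvPolynomial σ L}
    (hF : F = ∑ j, C (cf j) * map (algebraMap k0 L) (P j)) :
    ∑ u ∈ F.support, D (F.coeff u) * mn x u = ∑ j, D (cf j) * aeval x (P j) := by
  classical
  have h1 : ∀ u, F.coeff u = ∑ j, cf j * algebraMap k0 L ((P j).coeff u) := by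
    intro u
    rw [hF, coeff_sum]
    refine Finset.sum_congr rfl fun j _ => ?_
    rw [coeff_C_mul, coeff_map]
  have h2 : ∀ u, D (F.coeff u) = ∑ j, D (cf j) * algebraMap k0 L ((P j).coeff u) := by
    intro u
    rw [h1, map_sum]
    refine Finset.sum_congr rfl fun j _ => ?_
    rw [D.leibniz, hD, smul_zero, zero_add, smul_eq_mul, mul_comm]
  obtain ⟨U, hU⟩ : ∃ U : Finset (σ →₀ ℕ), U = F.support ∪ Finset.univ.biUnion fun j =>
    (P j).support := ⟨_, rfl⟩
  have h3 : F.support ⊆ U := by rw [hU]; exact Finset.subset_union_left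
  have h4 : ∀ j, (P j).support ⊆ U := fun j => by
    rw [hU]
    exact (Finset.subset_biUnion_of_mem (fun j => (P j).support) (Finset.mem_univ j)).trans
      Finset.subset_union_right
  rw [Finset.sum_subset h3 fun u _ hu => by
    rw [notMem_support_iff.1 hu, map_zero, zero_mul]]
  have h5 : ∀ j, aeval x (P j) = ∑ u ∈ U, algebraMap k0 L ((P j).coeff u) * mn x u := by
    intro j
    rw [aeval_def, eval₂_eq', ← Finset.sum_subset (h4 j) fun u _ hu => by
      rw [notMem_support_iff.1 hu, map_zero, zero_mul]]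
    rfl
  simp only [h2, h5, Finset.sum_mul, Finset.mul_sum]
  rw [Finset.sum_comm]
  refine Finset.sum_congr rfl fun j _ => Finset.sum_congr rfl fun u _ => ?_
  ring

/-- The functionals. -/
theorem exists_Fn {k0 L : Type} [Field k0] [Field L] [Algebra k0 L] [CharZero L]
    (hc : ∀ s, β (c s) = s) {x : σ → L} (hx : ∀ s, x (c s) = 1) {J : A → Type}
    [∀ a, Fintype (J a)] (P : ∀ a, J a → MvPolynomial σ k0) (cf : ∀ a, J a → L)
    {F : A → MvPolynomial σ L} (hF : ∀ a, F a = ∑ j, C (cf a j) * map (algebraMap k0 L) (P a j))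
    (js : ∀ a, ∀ I ∈ St β c (dg a), J a) (hjs : ∀ a I h, P a (js a I h) = monomial I 1)
    {D : A → (σ →₀ ℕ) → Derivation ℤ L L} (hDk : ∀ a I (r : k0), D a I (algebraMap k0 L r) = 0)
    (hD1 : ∀ a I (h : I ∈ St β c (dg a)), D a I (cf a (js a I h)) = 1)
    (hD2 : ∀ a b, a ≠ b → ∀ I ∈ St β c (dg a), ∀ j, D a I (cf b j) = 0)
    (hD3 : ∀ a I (h : I ∈ St β c (dg a)) j, j ≠ js a I h → D a I (cf a j) = 0)
    {E : X → Derivation ℤ L L} (hEk : ∀ ξ (r : k0), E ξ (algebraMap k0 L r) = 0)
    (hE : ∀ ξ b j, E ξ (cf b j) = 0)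
    (halg : ∀ a, IsAlgebraic (IntermediateField.adjoin k0 (Set.range x)) (eval x (F a))) :
    ∃ φ : A → σ → L, Fn β c dg D E x φ := by
  classical
  choose φ hφ1 hφ2 using fun a => exists_fn (k0 := k0) hc hx (F a) (halg a)
  refine ⟨φ, hφ1, fun a ξ => ?_, fun a b I hI hab => ?_, fun a I hI => ?_⟩
  · have h1 := hφ2 a (E ξ) (hEk ξ)
    have h2 : ∑ j, E ξ (cf a j) * aeval x (P a j) = 0 := Finset.sum_eq_zero fun j _ => by
      rw [hE, zero_mul]
    rw [der_coeff (P a) (cf a) (E ξ) (hEk ξ) x (hF a), h2, neg_zero] at h1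
    exact h1
  · have h1 := hφ2 a (D b I) (hDk b I)
    have h2 : ∑ j, D b I (cf a j) * aeval x (P a j) = 0 := Finset.sum_eq_zero fun j _ => by
      rw [hD2 b a (Ne.symm hab) I hI, zero_mul]
    rw [der_coeff (P a) (cf a) (D b I) (hDk b I) x (hF a), h2, neg_zero] at h1
    exact h1
  · have h1 := hφ2 a (D a I) (hDk a I)
    rw [der_coeff (P a) (cf a) (D a I) (hDk a I) x (hF a),
      Finset.sum_eq_single (js a I hI)] at h1
    · rw [hD1, one_mul, hjs, aeval_monomial, map_one, one_mul,
        Finsupp.prod_fintype _ _ fun _ => pow_zero _] at h1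
      exact h1
    · intro j _ hj
      rw [hD3 a I hI j hj, zero_mul]
    · intro h; exact absurd (Finset.mem_univ _) h

/-- Algebraic elements over a smaller field. -/
theorem alg_descend {k0 L Ω : Type} [Field k0] [Field L] [Field Ω] [Algebra k0 L] [Algebra L Ω]
    [Algebra k0 Ω] [IsScalarTower k0 L Ω] {U : Set L} {z : L}
    (h : IsAlgebraic (IntermediateField.adjoin k0 (algebraMap L Ω '' U)) (algebraMap L Ω z)) :
    IsAlgebraic (IntermediateField.adjoin k0 U) z := by
  classical
  obtain ⟨p, hp0, hp⟩ := h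
  obtain ⟨f, hf⟩ : ∃ f : L →ₐ[k0] Ω, ∀ w, f w = algebraMap L Ω w :=
    ⟨IsScalarTower.toAlgHom k0 L Ω, fun _ => rfl⟩
  have h1 : ∀ w ∈ IntermediateField.adjoin k0 (algebraMap L Ω '' U),
      ∃ w' : IntermediateField.adjoin k0 U, algebraMap L Ω w' = w := by
    intro w hw
    have h2 : (IntermediateField.adjoin k0 U).map f =
        IntermediateField.adjoin k0 (algebraMap L Ω '' U) := by
      rw [IntermediateField.adjoin_map]
      congr 1
      exact Set.image_congr fun w _ => hf w
    rw [← h2] at hw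
    obtain ⟨w', hw', rfl⟩ := hw
    exact ⟨⟨w', hw'⟩, (hf w').symm⟩
  choose! g hg using h1
  obtain ⟨q, hq⟩ : ∃ q : Polynomial (IntermediateField.adjoin k0 U), q =
    ∑ i ∈ Finset.range (p.natDegree + 1), Polynomial.monomial i (g (p.coeff i)) := ⟨_, rfl⟩
  have hcoef : ∀ i, algebraMap L Ω (g (p.coeff i : Ω)) = (p.coeff i : Ω) := fun i =>
    hg _ (p.coeff i).2
  refine ⟨q, fun h0 => ?_, ?_⟩
  · apply hp0
    have h2 := congrArg (fun r => Polynomial.coeff r p.natDegree) h0
    simp only [hq, Polynomial.finsetSum_coeff, Polynomial.coeff_monomial, Finset.sum_ite_eq',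
      Polynomial.coeff_zero] at h2
    rw [if_pos (by simp)] at h2
    have h3 := hcoef p.natDegree
    rw [h2] at h3
    rw [← Polynomial.leadingCoeff_eq_zero]
    apply Subtype.ext
    rw [← Polynomial.coeff_natDegree]
    refine h3.symm.trans ?_
    change algebraMap L Ω 0 = 0
    rw [map_zero]
  · apply (algebraMap L Ω).injective
    rw [map_zero, hq, map_sum, map_sum]
    rw [Polynomial.aeval_eq_sum_range] at hp
    rw [← hp]
    refine Finset.sum_congr rfl fun i _ => ?_
    rw [Polynomial.aeval_monomial, map_mul, map_pow, Algebra.smul_def]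
    congr 1
    exact hcoef i

/-- The finite Galois extension, and the dual derivations. -/
theorem exists_setup {k0 K ι : Type} [Field k0] [Field K] [Algebra k0 K] [IsAlgClosed K]
    [CharZero K] {y : ι → K} (hy : IsTranscendenceBasis k0 y)
    {J : A → Type} [∀ a, Fintype (J a)] (js : ∀ a, ∀ I ∈ St β c (dg a), J a)
    {cf : ∀ a, J a → K} (s : (Σ a, J a) → ι) (hs : Function.Injective s)
    (hFs : ∀ p : (Σ a, J a), cf p.1 p.2 = y (s p)) (T : Finset K) :
    ∃ (E : IntermediateField (IntermediateField.adjoin k0 (Set.range y)) K)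
      (D : A → (σ →₀ ℕ) → Derivation ℤ K K),
      FiniteDimensional (IntermediateField.adjoin k0 (Set.range y)) E ∧
      IsGalois (IntermediateField.adjoin k0 (Set.range y)) E ∧
      (∀ a I, ∀ x ∈ E, D a I x ∈ E) ∧
      (∀ a I (r : k0), D a I (algebraMap k0 K r) = 0) ∧
      (∀ a I j, ∃ r : k0, D a I (y j) = algebraMap k0 K r) ∧
      (∀ a I (h : I ∈ St β c (dg a)), D a I (cf a (js a I h)) = 1) ∧
      (∀ a b, a ≠ b → ∀ I ∈ St β c (dg a), ∀ j, D a I (cf b j) = 0) ∧
      (∀ a I (h : I ∈ St β c (dg a)) j, j ≠ js a I h → D a I (cf a j) = 0) ∧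
      ∀ t ∈ T, t ∈ E := by
  classical
  have hck : CharZero k0 := by
    constructor
    intro a b hab
    have h1 := congrArg (algebraMap k0 K) hab
    rw [map_natCast, map_natCast] at h1
    exact Nat.cast_injective h1
  set R := IntermediateField.adjoin k0 (Set.range y) with hR
  have hcR : CharZero R := charZero_of_injective_algebraMap (algebraMap k0 R).injective
  have halg : Algebra.IsAlgebraic R K := hy.isAlgebraic_field
  have hfin0 : FiniteDimensional R (IntermediateField.adjoin R (T : Set K)) := by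
    have : Finite (T : Set K) := T.finite_toSet
    exact IntermediateField.finiteDimensional_adjoin fun x _ =>
      (halg.isAlgebraic x).isIntegral
  obtain ⟨E, hE⟩ : ∃ E : IntermediateField R K,
    E = IntermediateField.normalClosure R (IntermediateField.adjoin R (T : Set K)) K := ⟨_, rfl⟩
  have hclo : IsAlgClosure R K := ⟨inferInstance, halg⟩
  have hnK : Normal R K := IsAlgClosure.normal R K
  have hfin : FiniteDimensional R E := by
    rw [hE]; infer_instance
  have hnE : Normal R E := by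
    rw [hE]; infer_instance
  have hgal : IsGalois R E := { }
  have hTE : ∀ t ∈ T, t ∈ E := by
    intro t ht
    rw [hE]
    exact (IntermediateField.le_normalClosure _) (IntermediateField.subset_adjoin _ _ ht)
  -- the derivations
  have hD : ∀ (a : A) (I : σ →₀ ℕ), ∃ D : Derivation k0 K K, ∀ j, D (y j) =
      if ∃ h : I ∈ St β c (dg a), s ⟨a, js a I h⟩ = j then 1 else 0 := fun a I =>
    Pool.Agent.W602.GT.exists_der y hy _
  choose D hD using hD
  have hD' : ∀ a I (r : k0), D a I (algebraMap k0 K r) = 0 := fun a I r =>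
    (D a I).map_algebraMap r
  have hDy : ∀ a I j, ∃ r : k0, D a I (y j) = algebraMap k0 K r := by
    intro a I j
    rw [hD]
    split_ifs
    · exact ⟨1, (map_one _).symm⟩
    · exact ⟨0, (map_zero _).symm⟩
  have hDR : ∀ a I x, x ∈ R.toSubfield → (D a I).restrictScalars ℤ x ∈ R.toSubfield := by
    intro a I x hx
    rw [hR, IntermediateField.adjoin_toSubfield] at hx
    refine der_closure ((D a I).restrictScalars ℤ) ?_ hx
    rintro z (⟨r, rfl⟩ | ⟨j, rfl⟩)
    · refine ⟨R.algebraMap_mem r, ?_⟩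
      change D a I _ ∈ _
      rw [hD']
      exact zero_mem _
    · refine ⟨IntermediateField.subset_adjoin _ _ ⟨j, rfl⟩, ?_⟩
      change D a I _ ∈ _
      obtain ⟨r, hr⟩ := hDy a I j
      rw [hr]
      exact R.algebraMap_mem r
  have hDE : ∀ a I x, x ∈ E.toSubfield → (D a I).restrictScalars ℤ x ∈ E.toSubfield := by
    intro a I x hx
    refine (isDer_top ((D a I).restrictScalars ℤ)).mem_of_alg E.toSubfield trivial hx ?_
    have h1 : IsAlgebraic R.toSubfield x := halg.isAlgebraic x
    refine Pool.Agent.TH145.MF.alg_mono ?_ h1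
    intro z hz
    exact ⟨trivial, E.algebraMap_mem ⟨z, hz⟩, E.algebraMap_mem ⟨_, hDR a I z hz⟩⟩
  refine ⟨E, fun a I => (D a I).restrictScalars ℤ, hfin, hgal, hDE, hD', hDy,
    fun a I hI => ?_, fun a b hab I hI j => ?_, fun a I hI j hj => ?_, hTE⟩
  · change D a I (cf a (js a I hI)) = 1
    rw [hFs ⟨a, js a I hI⟩, hD, if_pos ⟨hI, rfl⟩]
  · change D a I (cf b j) = 0
    rw [hFs ⟨b, j⟩, hD, if_neg]
    rintro ⟨h, h'⟩
    exact hab (congrArg Sigma.fst (hs h'))
  · change D a I (cf a j) = 0
    rw [hFs ⟨a, j⟩, hD, if_neg]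
    rintro ⟨h, h'⟩
    exact hj (eq_of_heq (Sigma.mk.inj_iff.1 (hs h')).2).symm

/-- Finiteness of the points at which the values of generic polynomials are algebraic over the
field of the coordinates. -/
theorem fin_points {k0 K : Type} [Field k0] [Field K] [Algebra k0 K] [IsAlgClosed K]
    [CharZero K] [IsAlgClosed k0] [Fintype A] {m : ℕ} {μ : S → ℕ} (hc : ∀ s, β (c s) = s)
    (hd : ∀ s, μ s + m + 2 ≤ ∑ a, (dg a s + 1))
    (V : Set (MvPolynomial σ k0)) (hV : DimB k0 β V m μ)
    {J : A → Type} [∀ a, Fintype (J a)] (P : ∀ a, J a → MvPolynomial σ k0)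
    (hSt : ∀ a, ∀ I ∈ St β c (dg a), ∃ j, P a j = monomial I 1)
    {cf : ∀ a, J a → K} {F : A → MvPolynomial σ K}
    (hF : ∀ a, F a = ∑ j, C (cf a j) * map (algebraMap k0 K) (P a j))
    (hind : AlgebraicIndependent k0 fun p : (Σ a, J a) => cf p.1 p.2)
    (T : Finset K) :
    {x : σ → K | (∀ j, x j ∈ IntermediateField.adjoin k0 (T : Set K)) ∧ (∀ s, x (c s) = 1) ∧
      (∀ f ∈ V, aeval x f = 0) ∧
      ∀ a, IsAlgebraic (IntermediateField.adjoin k0 (Set.range x)) (eval x (F a))}.Finite := by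
  classical
  obtain ⟨B, hB, K1, y, s, hK1, hy, hys, hs, hTK⟩ := exists_closed hind T
  have hcz : CharZero K1 := by
    constructor
    intro a b hab
    have h1 := congrArg (algebraMap K1 K) hab
    rw [map_natCast, map_natCast] at h1
    exact Nat.cast_injective h1
  have : Finite B := hB
  choose js hjs using hSt
  obtain ⟨F0, hF0'⟩ : ∃ F0 : A → MvPolynomial σ K1, ∀ a, F0 a =
      ∑ j, C (y (s ⟨a, j⟩)) * map (algebraMap k0 K1) (P a j) := ⟨_, fun _ => rfl⟩
  have hF0 : ∀ a, map (algebraMap K1 K) (F0 a) = F a := by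
    intro a
    rw [hF0', hF, map_sum]
    refine Finset.sum_congr rfl fun j _ => ?_
    have hyj : algebraMap K1 K (y (s ⟨a, j⟩)) = cf a j := hys ⟨a, j⟩
    rw [map_mul, map_C, hyj, map_map]
    rfl
  obtain ⟨T1, hT1⟩ : ∃ T1 : Finset K1, ∀ t ∈ T, ∃ t1 ∈ T1, (t1 : K) = t :=
    ⟨T.preimage (fun x : K1 => (x : K)) Subtype.val_injective.injOn, fun t ht =>
      ⟨⟨t, hTK t ht⟩, Finset.mem_preimage.2 ht, rfl⟩⟩
  obtain ⟨E, D, h1, h2, h3, h4, h5, h6, h7, h7', h8⟩ := exists_setup (β := β) (c := c) (dg := dg) hy js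
    (cf := fun a j => y (s ⟨a, j⟩)) s hs (fun p => rfl) T1
  have hEK : ∀ t ∈ IntermediateField.adjoin k0 (T : Set K), ∃ e : K1, e ∈ E ∧ (e : K) = t := by
    intro t ht
    have h9 : t ∈ Subfield.closure (Set.range (algebraMap k0 K) ∪ (T : Set K)) := by
      rw [← IntermediateField.adjoin_toSubfield]
      exact ht
    have h10 : Subfield.closure (Set.range (algebraMap k0 K) ∪ (T : Set K)) ≤
        E.toSubfield.map (algebraMap K1 K) := by
      rw [Subfield.closure_le]
      rintro z (⟨r, rfl⟩ | hz)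
      · exact ⟨algebraMap k0 K1 r, E.algebraMap_mem (algebraMap k0 _ r), rfl⟩
      · obtain ⟨t1, ht1, htz⟩ := hT1 z hz
        exact ⟨t1, h8 t1 ht1, htz⟩
    obtain ⟨e, he, het⟩ := h10 h9
    exact ⟨e, he, het⟩
  have h9 := fin_all (β := β) (c := c) (dg := dg) (k0 := k0) (m := m) E hy hc D h3 h4 h5 hd V hV
  refine (h9.image fun x j => (x j : K)).subset ?_
  rintro x ⟨hx, hx1, hxV, hxF⟩
  choose e he hex using fun j => hEK (x j) (hx j)
  have hex' : (fun j => algebraMap K1 K (e j)) = x := funext hex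
  have he1 : ∀ s, e (c s) = 1 := fun s => by
    apply Subtype.ext
    rw [hex, hx1]
    rfl
  refine ⟨e, ⟨he, he1, fun f hf => ?_, ?_⟩, funext hex⟩
  · apply (algebraMap K1 K).injective
    have h10 := hom_eval₂ f (algebraMap k0 K1) (algebraMap K1 K) e
    rw [h10, map_zero, hex']
    exact hxV f hf
  · refine exists_Fn (k0 := k0) hc he1 P (fun a j => y (s ⟨a, j⟩)) hF0' js hjs h4 h6 h7 h7'
      (fun ξ => ξ.elim) (fun ξ => ξ.elim) fun a => ?_
    have hst : IsScalarTower k0 K1 K := IsScalarTower.of_algebraMap_eq fun r => rfl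
    refine alg_descend (Ω := K) ?_
    have h11 : algebraMap K1 K '' Set.range e = Set.range x := by
      rw [← Set.range_comp]
      congr 1
    have h12 : algebraMap K1 K (eval e (F0 a)) = eval x (F a) := by
      rw [← hF0, eval_map]
      have := hom_eval₂ (F0 a) (RingHom.id K1) (algebraMap K1 K) e
      rw [eval₂_id] at this
      rw [this, RingHom.comp_id, hex']
    rw [h11, h12]
    exact hxF a

end Pool.Agent.K6.H80.LV
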