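import Pool.Agent.K6.H80.LV.Setup
import Pool.Agent.TH145.GF.Vert
import Pool.Agent.TH145.GF.Duals

/-!
The local inequality with vertical derivations at a divisorial place.
-/

set_option autoImplicit false
set_option linter.unusedSectionVars false

open MvPolynomial FF Pool.Agent.W603.LV Pool.Agent.W603.PV Pool.Agent.TH145.GH
open Pool.Agent.W602.GT
open Pool.Agent.TH145.GF (vE det_dec der_comb exists_lift)

namespace Pool.Agent.K6.H80.LV

section

variable {K : Type} [Field K] {σ S A X : Type} [Fintype σ] [Fintype S] {β : σ → S} {c : S → σ}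
  {dg : A → S → ℕ} {D D' : A → (σ →₀ ℕ) → Derivation ℤ K K} {E E' : X → Derivation ℤ K K}

open scoped Classical in
/-- A linear substitution of the vertical derivations multiplies the determinant. -/
theorem det_lin [Fintype X] {M : Matrix X X K} (hE : ∀ ξ f, E' ξ f = ∑ η, M ξ η * E η f)
    (x : σ → K) {b : Finset (Ix σ S A X ⊕ A)} (hb : ∀ i ∈ Vert σ S A X, i ∈ b)
    (τ : b → σ) (I : A → σ →₀ ℕ) :
    (mx β c dg D E' x I b τ).det = M.det * (mx β c dg D E x I b τ).det := by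
  have hm : ∀ ξ : X, (Sum.inl (Sum.inr (Sum.inl ξ)) : Ix σ S A X ⊕ A) ∈ b :=
    fun ξ => hb _ (Or.inr ⟨ξ, rfl⟩)
  obtain ⟨v, hv⟩ : ∃ v : X → b, ∀ ξ, v ξ = ⟨Sum.inl (Sum.inr (Sum.inl ξ)), hm ξ⟩ :=
    ⟨_, fun _ => rfl⟩
  have hvi : Function.Injective v := by
    intro ξ η h
    rw [hv, hv] at h
    have h1 := congrArg Subtype.val h
    simpa using h1
  obtain ⟨p, hp⟩ : ∃ p : b → Prop, ∀ i, p i ↔ ∃ ξ, i = v ξ := ⟨_, fun _ => Iff.rfl⟩
  obtain ⟨B, hB1, hB2⟩ : ∃ B : Matrix b b K, (∀ ξ j, B (v ξ) j = ∑ η, if j = v η then M ξ η else 0) ∧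
      ∀ i j, ¬ p i → B i j = if i = j then 1 else 0 := by
    refine ⟨Matrix.of fun i j => if h : ∃ ξ, i = v ξ then
      ∑ η, (if j = v η then M h.choose η else 0) else if i = j then 1 else 0, fun ξ j => ?_,
      fun i j hi => ?_⟩
    · have h : ∃ η, v ξ = v η := ⟨ξ, rfl⟩
      rw [Matrix.of_apply, dif_pos h]
      have h1 : h.choose = ξ := (hvi h.choose_spec).symm
      rw [h1]
    · rw [Matrix.of_apply, dif_neg ((hp i).not.1 hi)]
  have h1 : mx β c dg D E' x I b τ = B * mx β c dg D E x I b τ := by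
    ext i j
    rw [Matrix.mul_apply]
    by_cases hi : p i
    · obtain ⟨ξ, rfl⟩ := (hp i).1 hi
      simp only [hB1, Finset.sum_mul]
      rw [Finset.sum_comm]
      have h2 : mx β c dg D E' x I b τ (v ξ) j = E' ξ (x (τ j)) := by
        rw [hv]; rfl
      rw [h2, hE]
      refine Finset.sum_congr rfl fun η _ => ?_
      rw [Finset.sum_eq_single (v η)]
      · rw [if_pos rfl]
        congr 1
        rw [hv]; rfl
      · intro k _ hk
        rw [if_neg hk, zero_mul]
      · intro h; exact absurd (Finset.mem_univ _) h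
    · rw [Finset.sum_eq_single i]
      · rw [hB2 i i hi, if_pos rfl, one_mul]
        have hi' : ∀ ξ : X, i.1 ≠ Sum.inl (Sum.inr (Sum.inl ξ)) := fun ξ h => hi ((hp i).2 ⟨ξ, by
          rw [hv]; exact Subtype.ext h⟩)
        obtain ⟨i, hib⟩ := i
        rcases i with (_ | ξ | t) | a
        · rfl
        · exact absurd rfl (hi' ξ)
        · rfl
        · rfl
      · intro k _ hk
        rw [hB2 i k hi, if_neg (Ne.symm hk), zero_mul]
      · intro h; exact absurd (Finset.mem_univ _) h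
  rw [h1, Matrix.det_mul]
  congr 1
  rw [Matrix.twoBlockTriangular_det B p (fun i hi j hj => by
    rw [hB2 i j hi, if_neg]
    rintro rfl
    exact hi hj)]
  have h2 : (B.toSquareBlockProp fun i => ¬ p i) = 1 := by
    ext i j
    rw [Matrix.toSquareBlockProp, Matrix.toBlock_apply, hB2 _ _ i.2, Matrix.one_apply]
    by_cases h : i = j
    · rw [if_pos h, if_pos (by rw [h])]
    · rw [if_neg h, if_neg fun h' => h (Subtype.ext h')]
  rw [h2, Matrix.det_one, mul_one]
  obtain ⟨e, he⟩ : ∃ e : X ≃ {i // p i}, ∀ ξ, (e ξ : b) = v ξ :=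
    ⟨Equiv.ofBijective (fun ξ => ⟨v ξ, (hp _).2 ⟨ξ, rfl⟩⟩) ⟨fun ξ η h =>
      hvi (congrArg Subtype.val h), fun ⟨i, hi⟩ => by
        obtain ⟨ξ, rfl⟩ := (hp i).1 hi
        exact ⟨ξ, rfl⟩⟩, fun _ => rfl⟩
  rw [← Matrix.det_submatrix_equiv_self e]
  congr 1
  ext ξ η
  rw [Matrix.submatrix_apply, Matrix.toSquareBlockProp, Matrix.toBlock_apply, he, he, hB1,
    Finset.sum_eq_single η]
  · rw [if_pos rfl]
  · intro k _ hk
    rw [if_neg fun h => hk (hvi h).symm]
  · intro h; exact absurd (Finset.mem_univ _) h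

open scoped Classical in
/-- The determinant does not change if multiples of the vertical derivations are added. -/
theorem det_add_vert [Fintype X] {κ : A → (σ →₀ ℕ) → X → K}
    (hD' : ∀ a I f, D' a I f = D a I f + ∑ ξ, κ a I ξ * E ξ f)
    {x : σ → K} {b : Finset (Ix σ S A X ⊕ A)} (hb : ∀ i ∈ Vert σ S A X, i ∈ b)
    (τ : b → σ) (I : A → σ →₀ ℕ) :
    (mx β c dg D' E x I b τ).det = (mx β c dg D E x I b τ).det := by
  have key : ∀ (U : Finset X) (D' : A → (σ →₀ ℕ) → Derivation ℤ K K),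
      (∀ a I f, D' a I f = D a I f + ∑ ξ ∈ U, κ a I ξ * E ξ f) →
      (mx β c dg D' E x I b τ).det = (mx β c dg D E x I b τ).det := by
    intro U
    induction U using Finset.induction_on with
    | empty =>
      intro D' h
      have h1 : D' = D := by
        funext a I
        ext f
        rw [h, Finset.sum_empty, add_zero]
      rw [h1]
    | insert ξ U hξ ih =>
      intro D' h
      obtain ⟨D1, hD1⟩ : ∃ D1 : A → (σ →₀ ℕ) → Derivation ℤ K K, ∀ a I,
        D1 a I = D' a I - κ a I ξ • E ξ := ⟨_, fun _ _ => rfl⟩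
      have hD1f : ∀ a I f, D1 a I f = D' a I f - κ a I ξ * E ξ f := fun a I f => by
        rw [hD1, Derivation.sub_apply, Derivation.smul_apply, smul_eq_mul]
      have h1 := ih D1 fun a I f => by
        rw [hD1f, h, Finset.sum_insert hξ]
        ring
      rw [← h1]
      have hmem : Sum.inl (Sum.inr (Sum.inl ξ)) ∈ b := hb _ (Or.inr ⟨ξ, rfl⟩)
      obtain ⟨q, hq⟩ : ∃ q : Ix σ S A X ⊕ A → K, q = fun i => match i with
        | Sum.inl (Sum.inl _) => 0
        | Sum.inl (Sum.inr (Sum.inl _)) => 0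
        | Sum.inl (Sum.inr (Sum.inr t)) => if OK β dg t then
            x (c t.2.1) * κ t.1 (sM c (dg t.1) t.2.2.1 (up t.2.2.2 t.2.1)) ξ -
              x (t.2.2.1 t.2.1) * κ t.1 (sM c (dg t.1) t.2.2.1 t.2.2.2) ξ else 0
        | Sum.inr a => κ a (I a) ξ := ⟨_, rfl⟩
      have hrow : ∀ i l, vv β c dg D' E x I i l = vv β c dg D1 E x I i l + q i * E ξ (x l) := by
        rintro ((s | η | t) | a) l
        · rw [hq]
          simp [vv, wv]
        · rw [hq]
          simp [vv, wv]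
        · simp only [vv, wv, tv]
          rw [hq]
          simp only
          split_ifs
          · simp only [Ev, Pi.sub_apply, Pi.smul_apply, smul_eq_mul]
            rw [hD1f, hD1f]
            ring
          · simp
        · simp only [vv, Ev]
          rw [hD1f, hq]
          ring
      refine Matrix.det_eq_of_forall_row_eq_smul_add_const (fun i : b => q i)
        ⟨_, hmem⟩ ?_ fun i j => ?_
      · simp only [hq]
      · simp only [mx, Matrix.of_apply]
        rw [hrow]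
        rfl
  exact key Finset.univ D' hD'

end

section

variable {k K : Type} [Field k] [Field K] [Algebra k K] {σ S A X : Type} [Fintype σ] [Fintype S]
  {β : σ → S} {c : S → σ} {dg : A → S → ℕ} {D : A → (σ →₀ ℕ) → Derivation ℤ K K}
  {E : X → Derivation ℤ K K}

open scoped Classical in
/-- The local identity. -/
theorem local_id [Fintype A] (hc : ∀ s, β (c s) = s) (P : Place k K)
    {x : σ → K} (hx : ∀ s, x (c s) ≠ 0)
    {b : Finset (Ix σ S A X ⊕ A)} (hbp : ∀ s, Sum.inl (Sum.inl s) ∈ b) (hb : ∀ a, Sum.inr a ∈ b)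
    (τ : b → σ) (hspan : Submodule.span K (Set.range (wv β c dg D E x)) ≤
        Submodule.span K (wv β c dg D E x '' {o | Sum.inl o ∈ b}))
    (hdet : (mx β c dg D E x (fun a => pw c (dg a)) b τ).det ≠ 0) :
    ∃ (x' : σ → K) (e : S → σ), (∀ l, Ge P 0 (x' l)) ∧ (∀ s, β (e s) = s) ∧
      (mx β c dg D E x' (fun a => pw e (dg a)) b τ).det ≠ 0 ∧
      ∑ s, ((col β τ s + tw b s : ℕ) - (∑ a, dg a s : ℕ)) * po β P x s +
        P.ord (mx β c dg D E x' (fun a => pw e (dg a)) b τ).det =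
      P.ord ((mx β c dg D E x (fun a => pw c (dg a)) b τ).det / ∏ a, mn x (pw c (dg a))) := by
  obtain ⟨lam, x', e, hl, hlo, hxx, hx', he, he1⟩ := exists_sc hc P hx
  have hpe : ∀ a, pw e (dg a) ∈ St β c (dg a) := fun a => pw_mem he _
  have h1 := det_change hx hb τ hspan (fun a => pw e (dg a)) hpe
  have h2 := det_lam (dg := dg) (D := D) (E := E) hc (x := x') hl hbp τ (fun a => pw e (dg a))
  rw [← hxx] at h2
  rw [h2] at h1
  obtain ⟨d0, hd0⟩ : ∃ d0, d0 = (mx β c dg D E x (fun a => pw c (dg a)) b τ).det := ⟨_, rfl⟩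
  obtain ⟨d1, hd1⟩ : ∃ d1, d1 = (mx β c dg D E x' (fun a => pw e (dg a)) b τ).det := ⟨_, rfl⟩
  rw [← hd0] at hdet h1
  rw [← hd1] at h1
  have hmc : ∀ a, mn x (pw c (dg a)) ≠ 0 := fun a => by
    rw [mn_pw]
    exact Finset.prod_ne_zero_iff.2 fun s _ => pow_ne_zero _ (hx s)
  have hme : ∀ a, mn x (pw e (dg a)) = ∏ s, lam s ^ dg a s := fun a => by
    rw [mn_pw]
    refine Finset.prod_congr rfl fun s _ => ?_
    rw [hxx, sc, he, he1, mul_one]
  have hme0 : ∀ a, (∏ s, lam s ^ dg a s) ≠ 0 := fun a =>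
    Finset.prod_ne_zero_iff.2 fun s _ => pow_ne_zero _ (hl s)
  have hZ0 : (∏ a, mn x (pw c (dg a))) ≠ 0 := Finset.prod_ne_zero_iff.2 fun a _ => hmc a
  have hY0 : (∏ a, ∏ s, lam s ^ dg a s) ≠ 0 := Finset.prod_ne_zero_iff.2 fun a _ => hme0 a
  obtain ⟨Φ, hΦ⟩ : ∃ Φ, Φ = (∏ j : b, lam (β (τ j))) * (∏ i : b, fac lam i.1) := ⟨_, rfl⟩
  have hΦ0 : Φ ≠ 0 := by
    rw [hΦ]
    exact mul_ne_zero (Finset.prod_ne_zero_iff.2 fun j _ => hl _)
      (Finset.prod_ne_zero_iff.2 fun i _ => fac_ne hl _)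
  have h3 : Φ * d1 = d0 / (∏ a, mn x (pw c (dg a))) * ∏ a, ∏ s, lam s ^ dg a s := by
    rw [hΦ, mul_assoc, h1, Finset.prod_div_distrib]
    simp only [hme]
    field_simp
  have hq0 : d0 / (∏ a, mn x (pw c (dg a))) ≠ 0 := div_ne_zero hdet hZ0
  have hd10 : d1 ≠ 0 := by
    intro h0
    rw [h0, mul_zero] at h3
    exact mul_ne_zero hq0 hY0 h3.symm
  refine ⟨x', e, hx', he, by rw [← hd1]; exact hd10, ?_⟩
  rw [← hd0, ← hd1]
  have h5 := congrArg P.ord h3
  rw [P.ord_mul hΦ0 hd10, P.ord_mul hq0 hY0] at h5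
  have h6 : P.ord (∏ a, ∏ s, lam s ^ dg a s) = ∑ s, ((∑ a, dg a s : ℕ) : ℤ) * po β P x s := by
    rw [Pool.Agent.TH145.GC.ord_prod P _ _ fun a _ => hme0 a]
    have : ∀ a, P.ord (∏ s, lam s ^ dg a s) = ∑ s, (dg a s : ℤ) * po β P x s := fun a => by
      rw [Pool.Agent.TH145.GC.ord_prod P _ _ fun s _ => pow_ne_zero _ (hl s)]
      exact Finset.sum_congr rfl fun s _ => by rw [P.ord_pow, hlo]
    rw [Finset.sum_congr rfl fun a _ => this a, Finset.sum_comm]
    refine Finset.sum_congr rfl fun s _ => ?_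
    rw [← Finset.sum_mul]
    push_cast
    rfl
  have h7 : P.ord Φ = ∑ s, ((col β τ s + tw b s : ℕ) : ℤ) * po β P x s := by
    rw [hΦ, ord_factors P hl τ]
    exact Finset.sum_congr rfl fun s _ => by rw [hlo]
  rw [h6, h7] at h5
  have h9 : ∑ s, ((col β τ s + tw b s : ℕ) - (∑ a, dg a s : ℕ)) * po β P x s =
      ∑ s, ((col β τ s + tw b s : ℕ) : ℤ) * po β P x s -
        ∑ s, ((∑ a, dg a s : ℕ) : ℤ) * po β P x s := by
    rw [← Finset.sum_sub_distrib]
    exact Finset.sum_congr rfl fun s _ => by ring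
  rw [h9]
  linarith

end

section

variable {K L : Type} [Field K] [Field L] [Algebra K L] [CharZero K] {σ S A : Type} [Fintype σ]
  [Fintype S] [Fintype A] {w : ℕ} {β : σ → S} {c : S → σ} {dg : A → S → ℕ}
  {D : A → (σ →₀ ℕ) → Derivation ℤ L L}

open scoped Classical in
/-- The local inequality at a divisorial place. -/
theorem vert_est (hc : ∀ s, β (c s) = s) (hw : 0 < w) (htr : Algebra.trdeg K L = w)
    {P : Place K L} (hP : Divisorial w P) (hS : ∀ a I, Sem K (D a I)) {t : Fin w → L}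
    (ht : IsTranscendenceBasis K t) {E : Fin w → Derivation K L L}
    (hEt : ∀ i j, E i (t j) = if i = j then 1 else 0) {Dd : Fin w → Derivation K L L}
    (hDd : ∀ i, DerReg P (Dd i)) {M : Matrix (Fin w) (Fin w) L}
    (hMd : M = Matrix.of fun i j => Dd i (t j)) (hM : M.det ≠ 0)
    {x : σ → L} (hx : ∀ s, x (c s) ≠ 0) {b : Finset (Ix σ S A (Fin w) ⊕ A)}
    (hbV : ∀ i ∈ Vert σ S A (Fin w), i ∈ b) (hb : ∀ a, Sum.inr a ∈ b) (τ : b → σ)
    (hspan : Submodule.span L (Set.range (wv β c dg D (vE E) x)) ≤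
        Submodule.span L (wv β c dg D (vE E) x '' {o | Sum.inl o ∈ b}))
    (hdet : (mx β c dg D (vE E) x (fun a => pw c (dg a)) b τ).det ≠ 0) :
    ∑ s, ((col β τ s + tw b s : ℕ) - (∑ a, dg a s : ℕ)) * po β P x s ≤
      P.ord M.det + P.ord ((mx β c dg D (vE E) x (fun a => pw c (dg a)) b τ).det /
        ∏ a, mn x (pw c (dg a))) := by
  obtain ⟨x', e, hx', he, hd1, hid⟩ := local_id hc P hx (fun s => hbV _ (Or.inl ⟨s, rfl⟩)) hb τ
    hspan hdet
  rw [← hid]
  have hDdE : ∀ i f, Dd i f = ∑ j, M i j * E j f := fun i f => by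
    rw [der_comb ht hEt (Dd i) f, hMd]
    rfl
  choose ξ hξ using fun a I => exists_lift hw htr hP (hS a I)
  obtain ⟨D', hD'⟩ : ∃ D' : A → (σ →₀ ℕ) → Derivation ℤ L L, ∀ a I f,
    D' a I f = D a I f - ξ a I f :=
    ⟨fun a I => D a I - (ξ a I).restrictScalars ℤ, fun a I f => by simp⟩
  have hPres : ∀ f, Ge P 0 f → ∀ a I, Ge P 0 (D' a I f) := fun f hf a I => by
    rcases hf with rfl | hf
    · rw [map_zero]; exact Ge.zero
    · by_cases hf0 : f = 0
      · rw [hf0, map_zero]; exact Ge.zero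
      · rw [hD']
        exact (hξ a I f hf0).mono hf
  have hD'E : ∀ a I f, D' a I f = D a I f + ∑ j, (-(ξ a I (t j))) * vE E j f := fun a I f => by
    rw [hD', der_comb ht hEt (ξ a I) f, sub_eq_add_neg, ← Finset.sum_neg_distrib]
    congr 1
    exact Finset.sum_congr rfl fun j _ => (neg_mul _ _).symm
  have h1 := det_add_vert (β := β) (c := c) (dg := dg) (D := D) (D' := D') (E := vE E)
    (κ := fun a I j => -(ξ a I (t j))) hD'E (x := x') hbV τ (fun a => pw e (dg a))
  have h2 : (mx β c dg D' (vE Dd) x' (fun a => pw e (dg a)) b τ).det =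
      M.det * (mx β c dg D' (vE E) x' (fun a => pw e (dg a)) b τ).det := by
    have := det_lin (β := β) (c := c) (dg := dg) (D := D') (E := vE E) (E' := vE Dd) (M := M)
      (fun i f => hDdE i f) x' hbV τ (fun a => pw e (dg a))
    exact (det_dec _ _ _).trans (this.trans (congrArg₂ (· * ·) (det_dec _ _ _) (det_dec _ _ _)))
  rw [h1] at h2
  have hpe : ∀ a, pw e (dg a) ∈ St β c (dg a) := fun a => pw_mem he _
  have h3 := Pool.Agent.TH145.GC.ge_det P
    (mx β c dg D' (vE Dd) x' (fun a => pw e (dg a)) b τ) (c := 0) fun i j =>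
      ge_vv (E := vE Dd) hc le_rfl hx' (fun l a I _ => by
        rw [neg_zero]; exact hPres _ (hx' l) a I) (fun ξ l => by
        rw [neg_zero]; exact hDd ξ _ (hx' l)) hpe _ _
  rw [mul_zero, neg_zero] at h3
  have h4 : 0 ≤ P.ord (mx β c dg D' (vE Dd) x' (fun a => pw e (dg a)) b τ).det :=
    h3.resolve_left (by rw [h2]; exact mul_ne_zero hM hd1)
  rw [h2, P.ord_mul hM hd1] at h4
  linarith

end

end Pool.Agent.K6.H80.LV
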