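import Pool.Agent.K6.H80.LV.Rel

/-!
Families of field elements in special position: transcendence degree, ranks of matrices, linear
equations.
-/

set_option autoImplicit false
set_option linter.unusedSectionVars false

open Pool.Agent.TH145.GC (exists_minor)

namespace Pool.Agent.K6.H80.LV

section solve

variable {Ω ι : Type} [Field Ω] [Fintype ι] [DecidableEq ι]

/-- The solution of a linear system lies in the field of the coefficients. -/
theorem solve_mem (F : Subfield Ω) (N : Matrix ι ι Ω) (hN : ∀ i j, N i j ∈ F) (hd : N.det ≠ 0)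
    {u b : ι → Ω} (hu : ∀ i, ∑ j, N i j * u j = b i) (hb : ∀ i, b i ∈ F) (j : ι) : u j ∈ F := by
  obtain ⟨N', hN'⟩ : ∃ N' : Matrix ι ι F, ∀ i j, (N' i j : Ω) = N i j :=
    ⟨fun i j => ⟨N i j, hN i j⟩, fun _ _ => rfl⟩
  obtain ⟨b', hb'⟩ : ∃ b' : ι → F, ∀ i, (b' i : Ω) = b i := ⟨fun i => ⟨b i, hb i⟩, fun _ => rfl⟩
  have hNN : F.subtype.mapMatrix N' = N := by
    ext i j
    exact hN' i j
  have hd' : N'.det ≠ 0 := by
    intro h0
    have h1 := RingHom.map_det F.subtype N'
    rw [h0, map_zero, hNN] at h1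
    exact hd h1.symm
  have hu' : N'.mulVec (N'⁻¹.mulVec b') = b' := by
    rw [Matrix.mulVec_mulVec, Matrix.mul_nonsing_inv _ (isUnit_iff_ne_zero.2 hd'),
      Matrix.one_mulVec]
  obtain ⟨u', hu'd⟩ : ∃ u', u' = N'⁻¹.mulVec b' := ⟨_, rfl⟩
  rw [← hu'd] at hu'
  have h1 : N.mulVec (fun j => u j - (u' j : Ω)) = 0 := by
    funext i
    have h2 : ∑ j, N i j * (u' j : Ω) = b i := by
      have h3 : (((N'.mulVec u') i : F) : Ω) = (b' i : Ω) := congrArg Subtype.val (congrFun hu' i)
      have h4 : (((N'.mulVec u') i : F) : Ω) = ∑ j, (N' i j : Ω) * (u' j : Ω) := by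
        rw [Matrix.mulVec, dotProduct]
        push_cast
        rfl
      rw [← hb', ← h3, h4]
      exact Finset.sum_congr rfl fun j _ => by rw [hN']
    have h5 : N.mulVec (fun j => u j - (u' j : Ω)) i = ∑ j, N i j * (u j - (u' j : Ω)) := rfl
    rw [h5, Pi.zero_apply]
    simp only [mul_sub, Finset.sum_sub_distrib]
    rw [hu, h2, sub_self]
  have h2 := Matrix.eq_zero_of_mulVec_eq_zero hd h1
  have h3 := congrFun h2 j
  rw [Pi.zero_apply, sub_eq_zero] at h3
  rw [h3]
  exact (u' j).2

end solve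

variable {k' Ω A : Type} [Field k'] [Field Ω] [Algebra k' Ω] [Fintype A]

open scoped Classical in
/-- Families of small transcendence degree. -/
theorem exists_B_trdeg {U : Set Ω} (f : A → Ω) {N : ℕ}
    (h : Algebra.trdeg (IntermediateField.adjoin k' U)
      (IntermediateField.adjoin (IntermediateField.adjoin k' U) (Set.range f)) ≤ N) :
    ∃ B : Finset A, Fintype.card A ≤ N + B.card ∧
      ∀ b ∈ B, IsAlgebraic (IntermediateField.adjoin k' (U ∪ f '' {a | a ∉ B})) (f b) := by
  obtain ⟨I, hI, hIf⟩ := exists_coords f h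
  refine ⟨Iᶜ, ?_, fun b _ => ?_⟩
  · have := Finset.card_compl_add_card I
    omega
  · have h1 : {a | a ∉ Iᶜ} = (I : Set A) := by
      ext a
      simp
    rw [h1]
    refine Pool.Agent.TH145.MF.alg_mono
      (F1 := (IntermediateField.adjoin (IntermediateField.adjoin k' U) (f '' (I : Set A))).toSubfield)
      (F2 := (IntermediateField.adjoin k' (U ∪ f '' (I : Set A))).toSubfield) ?_ (hIf b)
    rw [← IntermediateField.adjoin_adjoin_left]
    exact le_rfl

open scoped Classical in
/-- Matrices of small rank. -/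
theorem exists_B_rank {p q : Type} [Fintype p] [Fintype q] {U : Set Ω} (M : Matrix p q Ω) {s : ℕ}
    (h : M.rank ≤ s) (hsp : s ≤ Fintype.card p) (hsq : s ≤ Fintype.card q) :
    ∃ (R : Finset p) (C : Finset q), R.card = s ∧ C.card = s ∧ ∀ i j, i ∉ R → j ∉ C →
      M i j ∈ IntermediateField.adjoin k' (U ∪ {z | ∃ i j, (i ∈ R ∨ j ∈ C) ∧ z = M i j}) := by
  obtain ⟨C0, -, -, hspan, hC0⟩ := exists_linearIndepOn_extension
    (K := Ω) (v := M.col) (s := ∅) (t := Set.univ) (linearIndepOn_empty _ _) (Set.empty_subset _)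
  obtain ⟨C, hC⟩ : ∃ C : Finset q, (C : Set q) = C0 :=
    ⟨(Set.toFinite C0).toFinset, (Set.toFinite C0).coe_toFinset⟩
  rw [← hC] at hspan hC0
  have hCi : LinearIndependent Ω (fun j : C => M.col j) := hC0
  obtain ⟨τ, hτ⟩ := exists_minor _ hCi
  have hτi : Function.Injective τ := by
    intro i j hij
    by_contra hne
    exact hτ (Matrix.det_zero_of_column_eq hne fun i' => by simp only [Matrix.of_apply, hij])
  obtain ⟨R, hR⟩ : ∃ R : Finset p, R = Finset.univ.image τ := ⟨_, rfl⟩
  have hRc : R.card = C.card := by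
    rw [hR, Finset.card_image_of_injective _ hτi, Finset.card_univ, Fintype.card_coe]
  have hCc : C.card ≤ s := by
    refine le_trans (le_of_eq ?_) h
    have h1 : Submodule.span Ω (Set.range M.col) = Submodule.span Ω (Set.range fun j : C => M.col j) := by
      apply le_antisymm
      · rw [Submodule.span_le]
        rintro _ ⟨j, rfl⟩
        have h2 := hspan ⟨j, trivial, rfl⟩
        rw [Set.image_eq_range] at h2
        exact h2
      · rw [Submodule.span_le]
        rintro _ ⟨j, rfl⟩
        exact Submodule.subset_span ⟨j, rfl⟩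
    rw [Matrix.rank_eq_finrank_span_cols, h1, finrank_span_eq_card hCi, Fintype.card_coe]
  obtain ⟨R', hRR', -, hR'⟩ := Finset.exists_subsuperset_card_eq (Finset.subset_univ R)
    (hRc.trans_le hCc) (by rw [Finset.card_univ]; exact hsp)
  obtain ⟨C', hCC', -, hC'⟩ := Finset.exists_subsuperset_card_eq (Finset.subset_univ C)
    hCc (by rw [Finset.card_univ]; exact hsq)
  refine ⟨R', C', hR', hC', fun i j hi hj => ?_⟩
  obtain ⟨F, hF⟩ : ∃ F, F = IntermediateField.adjoin k'
    (U ∪ {z | ∃ i j, (i ∈ R' ∨ j ∈ C') ∧ z = M i j}) := ⟨_, rfl⟩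
  rw [← hF]
  have hFm : ∀ i j, (i ∈ R' ∨ j ∈ C') → M i j ∈ F := fun i j h => by
    rw [hF]
    exact IntermediateField.subset_adjoin _ _ (Or.inr ⟨i, j, h, rfl⟩)
  have h1 := hspan ⟨j, trivial, rfl⟩
  rw [Set.image_eq_range, SetLike.mem_coe, Submodule.mem_span_range_iff_exists_fun] at h1
  obtain ⟨u, hu⟩ := h1
  have hu' : ∀ i, ∑ c : C, u c * M i c = M i j := fun i => by
    have h2 := congrFun hu i
    rw [Finset.sum_apply] at h2
    exact h2
  have huF : ∀ c, u c ∈ F.toSubfield := by
    have hτR : ∀ c, τ c ∈ R' := fun c => hRR' (by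
      rw [hR]
      exact Finset.mem_image_of_mem _ (Finset.mem_univ _))
    refine solve_mem F.toSubfield (Matrix.of fun c' c : C => M (τ c') c) (fun c' c =>
      hFm _ _ (Or.inl (hτR c'))) ?_ (b := fun c' => M (τ c') j) (fun c' => ?_)
      (fun c' => hFm _ _ (Or.inl (hτR c')))
    · rw [← Matrix.det_transpose]
      exact hτ
    · rw [← hu']
      exact Finset.sum_congr rfl fun c _ => by rw [Matrix.of_apply, mul_comm]
  rw [← hu']
  exact sum_mem fun c _ => mul_mem (huF c) (hFm _ _ (Or.inr (hCC' c.2)))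

open scoped Classical in
/-- Linear equations. -/
theorem exists_B_lin {p : Type} [Fintype p] {U : Set Ω} (Q : Matrix p A Ω)
    (hQ : ∀ i a, Q i a ∈ IntermediateField.adjoin k' U) (f : A → Ω) (hf : Q.mulVec f = 0) :
    ∃ B : Finset A, B.card = Q.rank ∧
      ∀ b ∈ B, f b ∈ IntermediateField.adjoin k' (U ∪ f '' {a | a ∉ B}) := by
  obtain ⟨R0, -, -, hspan, hR0⟩ := exists_linearIndepOn_extension
    (K := Ω) (v := Q.row) (s := ∅) (t := Set.univ) (linearIndepOn_empty _ _) (Set.empty_subset _)
  obtain ⟨R, hR⟩ : ∃ R : Finset p, (R : Set p) = R0 :=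
    ⟨(Set.toFinite R0).toFinset, (Set.toFinite R0).coe_toFinset⟩
  rw [← hR] at hspan hR0
  have hRi : LinearIndependent Ω (fun j : R => Q.row j) := hR0
  obtain ⟨τ, hτ⟩ := exists_minor _ hRi
  have hτi : Function.Injective τ := by
    intro i j hij
    by_contra hne
    exact hτ (Matrix.det_zero_of_column_eq hne fun i' => by simp only [Matrix.of_apply, hij])
  have hRc : R.card = Q.rank := by
    have h1 : Submodule.span Ω (Set.range Q.row) = Submodule.span Ω (Set.range fun j : R => Q.row j) := by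
      apply le_antisymm
      · rw [Submodule.span_le]
        rintro _ ⟨j, rfl⟩
        have h2 := hspan ⟨j, trivial, rfl⟩
        rw [Set.image_eq_range] at h2
        exact h2
      · rw [Submodule.span_le]
        rintro _ ⟨j, rfl⟩
        exact Submodule.subset_span ⟨j, rfl⟩
    rw [Matrix.rank_eq_finrank_span_row, h1, finrank_span_eq_card hRi, Fintype.card_coe]
  obtain ⟨B, hB⟩ : ∃ B : Finset A, B = Finset.univ.image τ := ⟨_, rfl⟩
  obtain ⟨F, hF⟩ : ∃ F, F = IntermediateField.adjoin k' (U ∪ f '' {a | a ∉ B}) := ⟨_, rfl⟩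
  have hQF : ∀ i a, Q i a ∈ F := fun i a => by
    rw [hF]
    exact IntermediateField.adjoin.mono _ _ _ Set.subset_union_left (hQ i a)
  refine ⟨B, ?_, fun b hb => ?_⟩
  · rw [hB, Finset.card_image_of_injective _ hτi, Finset.card_univ, Fintype.card_coe, hRc]
  · rw [← hF]
    rw [hB, Finset.mem_image] at hb
    obtain ⟨j, -, rfl⟩ := hb
    refine solve_mem F.toSubfield (Matrix.of fun i j : R => Q i (τ j)) (fun i j => hQF _ _) hτ
      (u := fun j => f (τ j)) (b := fun i => - ∑ a ∈ Finset.univ.filter (fun a => a ∉ B),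
        Q i a * f a) (fun i => ?_) (fun i => ?_) j
    · have h1 := congrFun hf i
      rw [Matrix.mulVec, dotProduct, Pi.zero_apply,
        ← Finset.sum_filter_add_sum_filter_not Finset.univ (fun a => a ∈ B)] at h1
      rw [eq_neg_iff_add_eq_zero, ← h1]
      congr 1
      have h2 : Finset.univ.filter (fun a => a ∈ B) = Finset.univ.image τ := by
        rw [hB]
        ext a
        simp
      rw [h2, Finset.sum_image fun x _ y _ h => hτi h]
      rfl
    · refine neg_mem (sum_mem fun a ha => mul_mem (hQF _ _) ?_)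
      change f a ∈ F
      rw [hF]
      exact IntermediateField.subset_adjoin _ _ (Or.inr ⟨a, (Finset.mem_filter.1 ha).2, rfl⟩)

end Pool.Agent.K6.H80.LV
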