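import Pool.Agent.TH145.GC.Local

/-!
Vector fields that are dual to the coefficients of the monomials in two variables of each block.
-/

set_option autoImplicit false

open MvPolynomial FF Pool.Agent.W603.LV Pool.Agent.W603.PV

namespace Pool.Agent.K6.H80.LV

section det

variable {K : Type} [Field K] {R S : Type} [Fintype R] [DecidableEq R]

/-- Scaling of the columns and of the rows, and addition of multiples of some rows. -/
theorem det_blk [Fintype S] (r r' : R → R → K) (ν μ : R → K) (κ : R → S → K)
    (p : S → R) (hp : ∀ s s', κ (p s) s' = 0)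
    (h : ∀ i j, r i j = ν j * (μ i * (r' i j + ∑ s, κ i s * r' (p s) j))) :
    (Matrix.of r).det = (∏ j, ν j) * ((∏ i, μ i) * (Matrix.of r').det) := by
  classical
  have key : ∀ T : Finset S, (Matrix.of fun i j => r' i j + ∑ s ∈ T, κ i s * r' (p s) j).det =
      (Matrix.of r').det := by
    intro T
    induction T using Finset.induction_on with
    | empty =>
      congr 1
      ext i j
      simp
    | insert s T hs ih =>
      rw [← ih]
      refine Matrix.det_eq_of_forall_row_eq_smul_add_const (fun i => κ i s) (p s) (hp s s)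
        fun i j => ?_
      simp only [Matrix.of_apply]
      rw [Finset.sum_insert hs, Finset.sum_eq_zero (s := T) (f := fun s_1 => κ (p s) s_1 * _)
        fun s' _ => by rw [hp, zero_mul]]
      ring
  have h1 : (Matrix.of r) = Matrix.of fun i j => ν j *
      ((Matrix.of fun i j => μ i * (Matrix.of fun i j => r' i j +
        ∑ s, κ i s * r' (p s) j) i j) i j) := by
    ext i j
    simp only [Matrix.of_apply]
    exact h i j
  rw [h1, Matrix.det_mul_row, Matrix.det_mul_column, key]

end det

variable {K : Type} [Field K] {σ S A X : Type} [Fintype σ]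

/-- A monomial. -/
noncomputable def mn (x : σ → K) (u : σ →₀ ℕ) : K := ∏ i, x i ^ u i

theorem mn_add (x : σ → K) (u v : σ →₀ ℕ) : mn x (u + v) = mn x u * mn x v := by
  unfold mn
  rw [← Finset.prod_mul_distrib]
  exact Finset.prod_congr rfl fun i _ => by rw [Finsupp.add_apply, pow_add]

theorem mn_zero (x : σ → K) : mn x 0 = 1 := by
  unfold mn
  simp

theorem mn_single (x : σ → K) (i : σ) (m : ℕ) : mn x (Finsupp.single i m) = x i ^ m := by
  classical
  unfold mn
  rw [Finset.prod_eq_single i]
  · rw [Finsupp.single_eq_same]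
  · intro j _ hj
    rw [Finsupp.single_eq_of_ne hj, pow_zero]
  · intro h; exact absurd (Finset.mem_univ _) h

theorem mn_sum {ι : Type} (x : σ → K) (s : Finset ι) (u : ι → σ →₀ ℕ) :
    mn x (∑ i ∈ s, u i) = ∏ i ∈ s, mn x (u i) := by
  classical
  induction s using Finset.induction_on with
  | empty => rw [Finset.sum_empty, Finset.prod_empty, mn_zero]
  | insert a s ha ih => rw [Finset.sum_insert ha, Finset.prod_insert ha, mn_add, ih]

variable [Fintype S]

/-- The exponent of the product of the monomials `x_(c s) ^ (d s - j s) x_(l s) ^ j s`. -/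
noncomputable def sM (c : S → σ) (d : S → ℕ) (l : S → σ) (j : S → ℕ) : σ →₀ ℕ :=
  ∑ s, (Finsupp.single (c s) (d s - j s) + Finsupp.single (l s) (j s))

/-- The exponents of these monomials. -/
def St (β : σ → S) (c : S → σ) (d : S → ℕ) : Set (σ →₀ ℕ) :=
  {I | ∃ (l : S → σ) (j : S → ℕ), (∀ s, β (l s) = s) ∧ (∀ s, j s ≤ d s) ∧ I = sM c d l j}

theorem mn_sM (x : σ → K) (c : S → σ) (d : S → ℕ) (l : S → σ) (j : S → ℕ) :
    mn x (sM c d l j) = ∏ s, (x (c s) ^ (d s - j s) * x (l s) ^ j s) := by
  unfold sM
  rw [mn_sum]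
  exact Finset.prod_congr rfl fun s _ => by rw [mn_add, mn_single, mn_single]

omit [Fintype σ] in
theorem sM_zero (c : S → σ) (d : S → ℕ) (l : S → σ) :
    sM c d l 0 = ∑ s, Finsupp.single (c s) (d s) := by
  unfold sM
  exact Finset.sum_congr rfl fun s _ => by simp

omit [Fintype σ] in
theorem sM_top (c : S → σ) (d : S → ℕ) (l : S → σ) :
    sM c d l d = ∑ s, Finsupp.single (l s) (d s) := by
  unfold sM
  exact Finset.sum_congr rfl fun s _ => by simp

/-- The exponent of the product of the powers of the variables `l s`. -/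
noncomputable def pw (l : S → σ) (d : S → ℕ) : σ →₀ ℕ := ∑ s, Finsupp.single (l s) (d s)

theorem mn_pw (x : σ → K) (l : S → σ) (d : S → ℕ) : mn x (pw l d) = ∏ s, x (l s) ^ d s := by
  unfold pw
  rw [mn_sum]
  exact Finset.prod_congr rfl fun s _ => mn_single _ _ _

theorem pw_mem {β : σ → S} {c : S → σ} {l : S → σ} (hl : ∀ s, β (l s) = s) (d : S → ℕ) :
    pw l d ∈ St β c d := ⟨l, d, hl, fun _ => le_rfl, (sM_top c d l).symm⟩

open scoped Classical in
/-- The next exponents. -/
noncomputable def up (j : S → ℕ) (s : S) : S → ℕ := fun s' => if s' = s then j s + 1 else j s'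

omit [Fintype S] in
theorem up_le {j d : S → ℕ} (hj : ∀ s, j s ≤ d s) {s : S} (hs : j s < d s) (s' : S) :
    up j s s' ≤ d s' := by
  unfold up
  split_ifs with h
  · subst h; omega
  · exact hj s'

theorem mn_step (x : σ → K) (c : S → σ) (d : S → ℕ) (l : S → σ) (j : S → ℕ) (s : S)
    (hs : j s < d s) : x (c s) * mn x (sM c d l (up j s)) = x (l s) * mn x (sM c d l j) := by
  classical
  rw [mn_sM, mn_sM, ← Finset.mul_prod_erase _ _ (Finset.mem_univ s),
    ← Finset.mul_prod_erase _ _ (Finset.mem_univ s)]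
  have h1 : ∏ s' ∈ Finset.univ.erase s, (x (c s') ^ (d s' - up j s s') * x (l s') ^ up j s s') =
      ∏ s' ∈ Finset.univ.erase s, (x (c s') ^ (d s' - j s') * x (l s') ^ j s') := by
    refine Finset.prod_congr rfl fun s' hs' => ?_
    have h2 : up j s s' = j s' := by
      unfold up
      rw [if_neg (Finset.ne_of_mem_erase hs')]
    rw [h2]
  have h2 : up j s s = j s + 1 := by
    unfold up
    rw [if_pos rfl]
  rw [h1, h2]
  have h3 : d s - j s = d s - (j s + 1) + 1 := by omega
  rw [h3, pow_succ, pow_succ]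
  ring

omit [Fintype σ] [Fintype S] in
/-- The vector of a block. -/
noncomputable def px (β : σ → S) (x : σ → K) (s : S) : σ → K := by
  classical
  exact fun l => if β l = s then x l else 0

open scoped Classical in
omit [Fintype σ] [Fintype S] in
theorem px_apply (β : σ → S) (x : σ → K) (s : S) (l : σ) :
    px β x s l = if β l = s then x l else 0 := rfl

omit [Fintype σ] in
theorem sum_px (β : σ → S) (x : σ → K) (a : S → K) (l : σ) :
    ∑ s, a s * px β x s l = a (β l) * x l := by
  classical
  simp only [px_apply]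
  rw [Finset.sum_eq_single (β l)]
  · rw [if_pos rfl]
  · intro s _ hs
    rw [if_neg (Ne.symm hs), mul_zero]
  · intro h; exact absurd (Finset.mem_univ _) h

/-- The vector of the derivatives of the coordinates. -/
def Ev (D : A → (σ →₀ ℕ) → Derivation ℤ K K) (x : σ → K) (a : A) (I : σ →₀ ℕ) : σ → K :=
  fun l => D a I (x l)

/-- The vector given by a derivation. -/
def ev (E : Derivation ℤ K K) (x : σ → K) : σ → K := fun l => E (x l)

/-- The indices of the tangent vector fields. -/
abbrev Ti (σ S A : Type) := A × S × (S → σ) × (S → ℕ)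

/-- The condition on the indices. -/
def OK (β : σ → S) (dg : A → S → ℕ) (t : Ti σ S A) : Prop :=
  (∀ s, β (t.2.2.1 s) = s) ∧ (∀ s, t.2.2.2 s ≤ dg t.1 s) ∧ t.2.2.2 t.2.1 < dg t.1 t.2.1

open scoped Classical in
/-- The tangent vector fields. -/
noncomputable def tv (β : σ → S) (c : S → σ) (dg : A → S → ℕ)
    (D : A → (σ →₀ ℕ) → Derivation ℤ K K) (x : σ → K) (t : Ti σ S A) : σ → K :=
  if OK β dg t then
    x (c t.2.1) • Ev D x t.1 (sM c (dg t.1) t.2.2.1 (up t.2.2.2 t.2.1)) -
      x (t.2.2.1 t.2.1) • Ev D x t.1 (sM c (dg t.1) t.2.2.1 t.2.2.2) else 0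

/-- The indices of the rows. -/
abbrev Ix (σ S A X : Type) := S ⊕ (X ⊕ Ti σ S A)

/-- The position vectors, the vertical vector fields and the tangent vector fields. -/
noncomputable def wv (β : σ → S) (c : S → σ) (dg : A → S → ℕ)
    (D : A → (σ →₀ ℕ) → Derivation ℤ K K) (E : X → Derivation ℤ K K)
    (x : σ → K) : Ix σ S A X → σ → K
  | Sum.inl s => px β x s
  | Sum.inr (Sum.inl ξ) => ev (E ξ) x
  | Sum.inr (Sum.inr t) => tv β c dg D x t

/-- The rows: the vector fields and the derivatives with the exponents `I`. -/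
noncomputable def vv (β : σ → S) (c : S → σ) (dg : A → S → ℕ)
    (D : A → (σ →₀ ℕ) → Derivation ℤ K K) (E : X → Derivation ℤ K K)
    (x : σ → K) (I : A → σ →₀ ℕ) : Ix σ S A X ⊕ A → σ → K
  | Sum.inl o => wv β c dg D E x o
  | Sum.inr a => Ev D x a (I a)

/-- Scaling of the blocks. -/
def sc (β : σ → S) (lam : S → K) (x : σ → K) : σ → K := fun l => lam (β l) * x l

/-- The factors of the rows. -/
def fac (lam : S → K) : Ix σ S A X ⊕ A → K
  | Sum.inl (Sum.inl _) => 1
  | Sum.inl (Sum.inr (Sum.inl _)) => 1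
  | Sum.inl (Sum.inr (Sum.inr t)) => lam t.2.1
  | Sum.inr _ => 1

omit [Fintype σ] in
theorem der_sc (β : σ → S) {lam : S → K} (hl : ∀ s, lam s ≠ 0) (x : σ → K)
    (δ : Derivation ℤ K K) (l : σ) : δ (sc β lam x l) =
      lam (β l) * (δ (x l) + ∑ s, δ (lam s) / lam s * px β x s l) := by
  rw [sum_px, sc, δ.leibniz]
  simp only [smul_eq_mul]
  have := hl (β l)
  field_simp

theorem vv_scale {β : σ → S} {c : S → σ} (hc : ∀ s, β (c s) = s) (dg : A → S → ℕ)
    (D : A → (σ →₀ ℕ) → Derivation ℤ K K) (E : X → Derivation ℤ K K) (x : σ → K) {lam : S → K}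
    (hl : ∀ s, lam s ≠ 0) (I : A → σ →₀ ℕ) :
    ∃ κ : Ix σ S A X ⊕ A → S → K, (∀ s s', κ (Sum.inl (Sum.inl s)) s' = 0) ∧
      ∀ i l, vv β c dg D E (sc β lam x) I i l =
        lam (β l) * (fac lam i * (vv β c dg D E x I i l + ∑ s, κ i s * px β x s l)) := by
  classical
  refine ⟨fun i s => match i with
    | Sum.inl (Sum.inl _) => 0
    | Sum.inl (Sum.inr (Sum.inl ξ)) => E ξ (lam s) / lam s
    | Sum.inl (Sum.inr (Sum.inr t)) => if OK β dg t then
        x (c t.2.1) * (D t.1 (sM c (dg t.1) t.2.2.1 (up t.2.2.2 t.2.1)) (lam s) / lam s) -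
          x (t.2.2.1 t.2.1) * (D t.1 (sM c (dg t.1) t.2.2.1 t.2.2.2) (lam s) / lam s) else 0
    | Sum.inr a => D a (I a) (lam s) / lam s, fun s s' => rfl, ?_⟩
  rintro ((s | ξ | t) | a) l
  · simp only [vv, wv, fac, zero_mul, one_mul, px_apply, sc, mul_ite, mul_zero, ite_self,
      Finset.sum_const_zero, add_zero]
  · simp only [vv, wv, fac, one_mul, ev]
    exact der_sc β hl x (E ξ) l
  · simp only [vv, wv, fac, tv]
    by_cases ht : OK β dg t
    · simp only [if_pos ht, Pi.sub_apply, Pi.smul_apply, smul_eq_mul, Ev]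
      rw [der_sc β hl, der_sc β hl]
      have h1 : sc β lam x (c t.2.1) = lam t.2.1 * x (c t.2.1) := by rw [sc, hc]
      have h2 : sc β lam x (t.2.2.1 t.2.1) = lam t.2.1 * x (t.2.2.1 t.2.1) := by
        rw [sc, ht.1]
      rw [h1, h2]
      simp only [sub_mul, Finset.sum_sub_distrib, mul_assoc, ← Finset.mul_sum]
      ring
    · simp only [if_neg ht, Pi.zero_apply, zero_mul, Finset.sum_const_zero, add_zero, mul_zero]
  · simp only [vv, fac, one_mul, Ev]
    exact der_sc β hl x (D a (I a)) l

/-- The derivatives, modulo the tangent vectors. -/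
theorem Ev_mod {β : σ → S} {c : S → σ} (dg : A → S → ℕ)
    (D : A → (σ →₀ ℕ) → Derivation ℤ K K) (E : X → Derivation ℤ K K) {x : σ → K}
    (hx : ∀ s, x (c s) ≠ 0) (a : A) {J : σ →₀ ℕ} (hJ : J ∈ St β c (dg a)) :
    Ev D x a J - (mn x J / mn x (pw c (dg a))) • Ev D x a (pw c (dg a)) ∈
      Submodule.span K (Set.range (wv β c dg D E x)) := by
  classical
  obtain ⟨W, hW⟩ : ∃ W, W = Submodule.span K (Set.range (wv β c dg D E x)) := ⟨_, rfl⟩
  have hgW : ∀ o, wv β c dg D E x o ∈ W := fun o => hW ▸ Submodule.subset_span ⟨o, rfl⟩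
  rw [← hW]
  have hc0 : mn x (pw c (dg a)) ≠ 0 := by
    rw [mn_pw]
    exact Finset.prod_ne_zero_iff.2 fun s _ => pow_ne_zero _ (hx s)
  obtain ⟨l, j, hl, hj, rfl⟩ := hJ
  -- induction on the sum of the exponents
  have key : ∀ (N : ℕ) (j : S → ℕ), (∀ s, j s ≤ dg a s) → ∑ s, j s = N →
      Ev D x a (sM c (dg a) l j) - (mn x (sM c (dg a) l j) / mn x (pw c (dg a))) •
        Ev D x a (pw c (dg a)) ∈ W := by
    intro N
    induction N with
    | zero =>
      intro j hj hN
      have h0 : j = 0 := by
        funext s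
        exact (Finset.sum_eq_zero_iff.1 hN) s (Finset.mem_univ s)
      rw [h0, sM_zero]
      change Ev D x a (pw c (dg a)) - (mn x (pw c (dg a)) / _) • _ ∈ W
      rw [div_self hc0, one_smul, sub_self]
      exact zero_mem _
    | succ N ih =>
      intro j hj hN
      obtain ⟨s, hs⟩ : ∃ s, 0 < j s := by
        by_contra hcon
        push Not at hcon
        have : ∑ s, j s = 0 := Finset.sum_eq_zero fun s _ => by have := hcon s; omega
        omega
      obtain ⟨j', hj'⟩ : ∃ j' : S → ℕ, ∀ s', j' s' = if s' = s then j s - 1 else j s' :=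
        ⟨_, fun _ => rfl⟩
      have hjj : j = up j' s := by
        funext s'
        unfold up
        split_ifs with h
        · rw [h, hj', if_pos rfl]
          omega
        · rw [hj', if_neg h]
      have hj's : j' s = j s - 1 := by rw [hj', if_pos rfl]
      have hle : ∀ s', j' s' ≤ dg a s' := by
        intro s'
        rw [hj']
        split_ifs with h
        · subst h
          have := hj s'
          omega
        · exact hj s'
      have hlt : j' s < dg a s := by
        have := hj s
        omega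
      have hsum : ∑ s', j' s' = N := by
        have h1 : ∑ s', j s' = ∑ s', j' s' + 1 := by
          have h2 : ∑ s' ∈ Finset.univ.erase s, j s' = ∑ s' ∈ Finset.univ.erase s, j' s' :=
            Finset.sum_congr rfl fun s' hs' => by
              rw [hj', if_neg (Finset.ne_of_mem_erase hs')]
          rw [← Finset.add_sum_erase _ j (Finset.mem_univ s),
            ← Finset.add_sum_erase _ j' (Finset.mem_univ s), hj's, h2]
          omega
        omega
      have h1 := ih j' hle hsum
      have h2 := hgW (Sum.inr (Sum.inr (a, s, l, j')))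
      have hok : OK β dg (a, s, l, j') := ⟨hl, hle, hlt⟩
      simp only [wv, tv] at h2
      rw [if_pos hok] at h2
      rw [hjj]
      have h3 := mn_step x c (dg a) l j' s hlt
      have hcs := hx s
      have h5 : mn x (sM c (dg a) l (up j' s)) = x (l s) * mn x (sM c (dg a) l j') / x (c s) := by
        rw [← h3]
        field_simp
      have h4 : Ev D x a (sM c (dg a) l (up j' s)) -
          (mn x (sM c (dg a) l (up j' s)) / mn x (pw c (dg a))) • Ev D x a (pw c (dg a)) =
          (x (c s))⁻¹ • (x (c s) • Ev D x a (sM c (dg a) l (up j' s)) -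
            x (l s) • Ev D x a (sM c (dg a) l j')) +
          (x (l s) / x (c s)) • (Ev D x a (sM c (dg a) l j') -
            (mn x (sM c (dg a) l j') / mn x (pw c (dg a))) • Ev D x a (pw c (dg a))) := by
        rw [h5]
        funext p
        simp only [Pi.add_apply, Pi.sub_apply, Pi.smul_apply, smul_eq_mul]
        field_simp
        ring
      rw [h4]
      exact add_mem (Submodule.smul_mem _ _ h2) (Submodule.smul_mem _ _ h1)
  exact key _ j hj rfl

end Pool.Agent.K6.H80.LV
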